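import Pool.Agent.V8H95.EF.Par

/-!
Choice of the parameters.
-/

set_option autoImplicit false

namespace Pool.Agent.V8H95.EF

open Pool.Agent.V8H99.AD (scl scl_ge)

theorem par_tail (d : ℕ) (L ϑ ℓ κ' Nt : ℝ) (hϑ : 0 < ϑ) (hℓ0 : 0 < ℓ) (hℓe : 18874368 * (d : ℝ) / ϑ ≤ ℓ)
    (hLℓ : ℓ ≤ L) (hNt1 : L / 16 ≤ Nt) (hκ' : 1 / ℓ ≤ κ') :
    12 * d * L ^ 2 * Real.exp (-Nt) ≤ ϑ * κ' := by
  have hL0 : 0 < L := by linarith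
  have hN0 : 0 ≤ Nt := le_trans (by positivity) hNt1
  have h1 : Nt ^ 4 / 24 ≤ Real.exp Nt := by
    have := Real.pow_div_factorial_le_exp Nt hN0 4
    have e : ((Nat.factorial 4 : ℕ) : ℝ) = 24 := by norm_num [Nat.factorial]
    rwa [e] at this
  have h2 : (L / 16) ^ 4 / 24 ≤ Real.exp Nt := by
    refine le_trans ?_ h1
    gcongr
  have h3 : Real.exp (-Nt) ≤ 1 / ((L / 16) ^ 4 / 24) := by
    rw [Real.exp_neg, ← one_div]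
    gcongr
  have h4 : 12 * d * L ^ 2 * (1 / ((L / 16) ^ 4 / 24)) = 18874368 * d / L ^ 2 := by
    field_simp
    ring
  calc 12 * d * L ^ 2 * Real.exp (-Nt)
      ≤ 12 * d * L ^ 2 * (1 / ((L / 16) ^ 4 / 24)) := by gcongr
    _ = 18874368 * d / L ^ 2 := h4
    _ ≤ ϑ * ℓ / L ^ 2 := by
        rw [div_le_iff₀ hϑ] at hℓe
        refine div_le_div_of_nonneg_right ?_ (by positivity)
        linarith
    _ ≤ ϑ * ℓ / ℓ ^ 2 := by gcongr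
    _ = ϑ * (1 / ℓ) := by field_simp
    _ ≤ ϑ * κ' := by gcongr

theorem par_vv (d : ℕ) (C cT w κ θ K β lam n τ n' k1 : ℝ) (hC : 1 ≤ C) (hcT : 0 < cT)
    (hcT1 : cT ≤ 1) (hcT2 : 8 * C * cT ≤ β ^ 2 / 4 * (θ ^ 2 / (4 * K)) ^ d) (hθ : 0 < θ)
    (hθ1 : θ ≤ 1) (hK : 1 ≤ K) (hκ : 0 < κ) (hlam : 0 < lam) (hw0 : 0 < w) (hw2 : w ^ 2 = κ ^ d)
    (hsmall : lam * w ≤ k1 * κ ^ 2) (hk1T : k1 ≤ cT) (hτ : τ = cT / (lam * w)) (hn0 : 0 ≤ n)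
    (hn3 : n ≤ θ ^ 2 / (2 * (2 * (K * κ)) ^ 2)) (hn4 : (θ ^ 2 / 2 / (2 * (K * κ))) ^ 2 ≤ n') :
    2 * C * (lam * (n + τ)) ^ 2 / n' ^ ((d : ℝ) / 2) ≤ β ^ 2 / 4 := by
  have hκ2 : 0 < κ ^ 2 := by positivity
  have hτ0 : 0 < τ := by rw [hτ]; positivity
  have hlam_n : lam * n ≤ cT / w := by
    rw [le_div_iff₀ hw0]
    have h1 : n ≤ 1 / κ ^ 2 := by
      refine hn3.trans ?_
      rw [div_le_div_iff₀ (by positivity) hκ2]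
      have h2 : θ ^ 2 ≤ 1 := pow_le_one₀ hθ.le hθ1
      have h3 : κ ^ 2 ≤ (2 * (K * κ)) ^ 2 := by
        apply pow_le_pow_left₀ hκ.le
        have : 1 * κ ≤ K * κ := by gcongr
        linarith
      calc θ ^ 2 * κ ^ 2 ≤ 1 * (2 * (K * κ)) ^ 2 := by gcongr
        _ ≤ 1 * (2 * (2 * (K * κ)) ^ 2) := by
            have : 0 ≤ (2 * (K * κ)) ^ 2 := by positivity
            linarith
    calc lam * n * w = lam * w * n := by ring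
      _ ≤ (k1 * κ ^ 2) * (1 / κ ^ 2) :=
          mul_le_mul hsmall h1 hn0 (le_trans (by positivity) hsmall)
      _ = k1 := by field_simp
      _ ≤ cT := hk1T
  have hlam_τ : lam * τ = cT / w := by rw [hτ]; field_simp
  have hnum : lam * (n + τ) ≤ 2 * cT / w := by
    rw [mul_add, hlam_τ]
    calc lam * n + cT / w ≤ cT / w + cT / w := by linarith
      _ = _ := by ring
  obtain ⟨r1, hr1'⟩ : ∃ r1 : ℝ, r1 = θ ^ 2 / (4 * K) := ⟨_, rfl⟩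
  have hr10 : 0 < r1 := by rw [hr1']; positivity
  have hden : (r1 / κ) ^ d ≤ n' ^ ((d : ℝ) / 2) := by
    have h1 : ((r1 / κ) ^ 2) ^ ((d : ℝ) / 2) = (r1 / κ) ^ d := by
      rw [← Real.rpow_natCast (r1 / κ) 2, ← Real.rpow_mul (by positivity),
        ← Real.rpow_natCast (r1 / κ) d]
      congr 1
      push_cast
      ring
    have h2 : θ ^ 2 / 2 / (2 * (K * κ)) = r1 / κ := by
      rw [hr1']
      field_simp
      norm_num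
    rw [h2] at hn4
    rw [← h1]
    exact Real.rpow_le_rpow (by positivity) hn4 (by positivity)
  rw [← hr1'] at hcT2
  calc 2 * C * (lam * (n + τ)) ^ 2 / n' ^ ((d : ℝ) / 2)
      ≤ 2 * C * (2 * cT / w) ^ 2 / (r1 / κ) ^ d := by gcongr
    _ = 8 * C * cT ^ 2 / r1 ^ d := by
        rw [div_pow, div_pow, hw2]
        field_simp
        ring
    _ ≤ 8 * C * cT / r1 ^ d := by
        have : cT ^ 2 ≤ cT := by nlinarith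
        gcongr
    _ ≤ β ^ 2 / 4 * r1 ^ d / r1 ^ d := by gcongr
    _ = β ^ 2 / 4 := by field_simp

theorem par_gg (N d : ℕ) (L ℓ' pG β : ℝ) (hL0 : 0 < L) (hLN : L ≤ ℓ' ^ N) (hℓ'0 : 0 < ℓ')
    (hβ2 : 0 < β ^ 2) (h : 24 / β ^ 2 ≤ ℓ') (hpG0 : 0 ≤ pG) (hpG : pG ≤ (ℓ' ^ (N * d + 1))⁻¹) :
    6 * L ^ d * pG ≤ β ^ 2 / 4 := by
  have h1 : L ^ d ≤ ℓ' ^ (N * d) := by
    calc L ^ d ≤ (ℓ' ^ N) ^ d := by gcongr
      _ = _ := by rw [← pow_mul]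
  calc 6 * L ^ d * pG ≤ 6 * ℓ' ^ (N * d) * (ℓ' ^ (N * d + 1))⁻¹ := by gcongr
    _ = 6 / ℓ' := by
        rw [pow_succ]
        field_simp
    _ ≤ β ^ 2 / 4 := by
        rw [div_le_iff₀ hℓ'0]
        rw [div_le_iff₀ hβ2] at h
        linarith

theorem par_pG (M : ℕ) (hM : 1 ≤ M) (ℓ' pG x : ℝ) (hℓ'1 : 1 ≤ ℓ') (hx : 0 < x) (h : 1 / x ≤ ℓ')
    (hpG : pG ≤ (ℓ' ^ M)⁻¹) : pG ≤ x := by
  have hℓ'0 : 0 < ℓ' := by linarith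
  refine hpG.trans ?_
  have h1 : (ℓ' ^ M)⁻¹ ≤ 1 / ℓ' := by
    rw [← one_div]
    apply one_div_le_one_div_of_le hℓ'0
    calc ℓ' = ℓ' ^ 1 := (pow_one ℓ').symm
      _ ≤ _ := pow_le_pow_right₀ hℓ'1 hM
  refine h1.trans ?_
  rw [div_le_iff₀ hℓ'0]
  rw [div_le_iff₀ hx] at h
  linarith

theorem par_err (d J j : ℕ) (pG ϑ τ q0 s κ K M β e5 CM k1 cT : ℝ) (hd0 : 0 < (d : ℝ)) (hpG : pG ≤ e5 / 4)
    (hϑ : 0 < ϑ) (hτ0 : 0 < τ) (hq0 : 0 < q0) (hs : 0 < s) (hκ : 0 < κ) (hκ1 : κ ≤ 1)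
    (hM0 : 0 ≤ M) (hMhi : M ≤ CM / κ) (hcT : 0 < cT) (hk1 : 0 < k1)
    (hκτ : cT / k1 ≤ κ ^ 2 * τ) (hqj : q0 ^ J ≤ q0 ^ j)
    (hE1 : 2 * ϑ ^ 2 + 8 * d ^ 2 * K ^ 2 / s ^ 2 * ((83 + 160 * d) * ϑ + 40 * d * β) ≤ e5 / 2)
    (hE2 : 8 * d ^ 2 / s ^ 2 * ((1 + 2 / ϑ) * (2 * d * CM ^ 2 + d / (2 * ϑ))) *
        (k1 / (cT * q0 ^ J)) ^ 2 ≤ e5 / 4) :
    pG + 2 * ϑ ^ 2 + 2 / (τ * q0 ^ j * s * κ / (2 * d)) ^ 2 *
            ((1 + 2 / ϑ) * (2 * (√d * M) ^ 2 + d / (2 * ϑ)) +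
            (83 + 160 * d) * ϑ * (K * κ) ^ 2 * (τ * q0 ^ j) ^ 2 +
            40 * d * (K * κ) ^ 2 * (τ * q0 ^ j) ^ 2 * β) ≤ e5 := by
  obtain ⟨tj, htj⟩ : ∃ tj : ℝ, tj = τ * q0 ^ j := ⟨_, rfl⟩
  have htj0 : 0 < tj := by rw [htj]; positivity
  rw [← htj]
  have hκt : 1 / (κ ^ 2 * tj) ≤ k1 / (cT * q0 ^ J) := by
    rw [div_le_div_iff₀ (by positivity) (by positivity)]
    rw [div_le_iff₀ hk1] at hκτ
    calc 1 * (cT * q0 ^ J) ≤ 1 * (κ ^ 2 * τ * k1 * q0 ^ J) := by gcongr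
      _ ≤ 1 * (κ ^ 2 * τ * k1 * q0 ^ j) := by gcongr
      _ = _ := by rw [htj]; ring
  have e1 : 2 / (tj * s * κ / (2 * d)) ^ 2 *
          ((1 + 2 / ϑ) * (2 * (√d * M) ^ 2 + d / (2 * ϑ)) +
          (83 + 160 * d) * ϑ * (K * κ) ^ 2 * tj ^ 2 +
          40 * d * (K * κ) ^ 2 * tj ^ 2 * β) =
      8 * d ^ 2 / s ^ 2 * ((1 + 2 / ϑ) * (2 * d * M ^ 2 + d / (2 * ϑ))) *
        (1 / (κ * tj)) ^ 2 +
      8 * d ^ 2 * K ^ 2 / s ^ 2 * ((83 + 160 * d) * ϑ + 40 * d * β) := by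
    rw [mul_pow (√d), Real.sq_sqrt (by positivity)]
    field_simp
    ring
  have h2 : 2 * d * M ^ 2 + d / (2 * ϑ) ≤ (2 * d * CM ^ 2 + d / (2 * ϑ)) * (1 / κ) ^ 2 := by
    have h3 : M ^ 2 ≤ (CM / κ) ^ 2 := by gcongr
    have h4 : 1 ≤ (1 / κ) ^ 2 := by
      apply one_le_pow₀
      rw [le_div_iff₀ hκ]
      linarith
    have h5 : (d : ℝ) / (2 * ϑ) ≤ d / (2 * ϑ) * (1 / κ) ^ 2 := by
      have : 0 < (d : ℝ) / (2 * ϑ) := by positivity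
      nlinarith
    calc 2 * d * M ^ 2 + d / (2 * ϑ) ≤ 2 * d * (CM / κ) ^ 2 + d / (2 * ϑ) * (1 / κ) ^ 2 := by
          gcongr
      _ = _ := by ring
  have h3 : 8 * d ^ 2 / s ^ 2 * ((1 + 2 / ϑ) * (2 * d * M ^ 2 + d / (2 * ϑ))) *
        (1 / (κ * tj)) ^ 2 ≤ e5 / 4 := by
    calc 8 * d ^ 2 / s ^ 2 * ((1 + 2 / ϑ) * (2 * d * M ^ 2 + d / (2 * ϑ))) *
        (1 / (κ * tj)) ^ 2
        ≤ 8 * d ^ 2 / s ^ 2 * ((1 + 2 / ϑ) * ((2 * d * CM ^ 2 + d / (2 * ϑ)) * (1 / κ) ^ 2)) *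
        (1 / (κ * tj)) ^ 2 := by gcongr
      _ = 8 * d ^ 2 / s ^ 2 * ((1 + 2 / ϑ) * (2 * d * CM ^ 2 + d / (2 * ϑ))) *
          (1 / (κ ^ 2 * tj)) ^ 2 := by
          field_simp
      _ ≤ 8 * d ^ 2 / s ^ 2 * ((1 + 2 / ϑ) * (2 * d * CM ^ 2 + d / (2 * ϑ))) *
          (k1 / (cT * q0 ^ J)) ^ 2 := by gcongr
      _ ≤ e5 / 4 := hE2
  rw [e1]
  linarith

theorem par_R (d J j : ℕ) (R M k κ w lam cT q0 s CM k1 τ : ℝ) (hd0 : 0 < (d : ℝ)) (hk : k ≤ cT * q0 ^ J * s / (8 * d))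
    (hR : R ≤ k * (κ / w) / lam) (hM : M ≤ CM / κ) (hκ : 0 < κ) (hw : 0 < w) (hlam : 0 < lam)
    (hcT : 0 < cT) (hq0 : 0 < q0) (hs : 0 < s) (hCM : 0 < CM)
    (hsmall : lam * w ≤ k1 * κ ^ 2) (hE3 : k1 * (8 * d * CM) ≤ cT * q0 ^ J * s)
    (hτ : τ = cT / (lam * w)) (hqj : q0 ^ J ≤ q0 ^ j) :
    2 * (R + M) ≤ τ * q0 ^ j * s * κ / (2 * d) := by
  have h1 : 2 * R ≤ cT * q0 ^ J * s * (κ / w) / lam / (4 * d) := by
    calc 2 * R ≤ 2 * (k * (κ / w) / lam) := by gcongr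
      _ ≤ 2 * (cT * q0 ^ J * s / (8 * d) * (κ / w) / lam) := by gcongr
      _ = _ := by field_simp; norm_num
  have h2 : 2 * M ≤ cT * q0 ^ J * s * (κ / w) / lam / (4 * d) := by
    have h3 : lam * w * (8 * d * CM) ≤ κ ^ 2 * (cT * q0 ^ J * s) := by
      calc lam * w * (8 * d * CM) ≤ k1 * κ ^ 2 * (8 * d * CM) := by gcongr
        _ = κ ^ 2 * (k1 * (8 * d * CM)) := by ring
        _ ≤ _ := by gcongr
    calc 2 * M ≤ 2 * (CM / κ) := by gcongr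
      _ = lam * w * (8 * d * CM) / (4 * d * κ * lam * w) := by field_simp; norm_num
      _ ≤ κ ^ 2 * (cT * q0 ^ J * s) / (4 * d * κ * lam * w) := by gcongr
      _ = _ := by field_simp
  calc 2 * (R + M) ≤ cT * q0 ^ J * s * (κ / w) / lam / (4 * d) +
        cT * q0 ^ J * s * (κ / w) / lam / (4 * d) := by linarith
    _ = τ * q0 ^ J * s * κ / (2 * d) := by rw [hτ]; field_simp; norm_num
    _ ≤ _ := by
        have : 0 < τ := by rw [hτ]; positivity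
        gcongr

theorem par_var (d : ℕ) (hd : 3 ≤ d) (N : ℕ) (ε C k' K' : ℝ) (J : ℕ)
    (K s e5 ϑ β θ q0 cT CM k1 b : ℝ) (hε : 0 < ε) (hC : 1 ≤ C) (hk' : 0 < k') (hK' : 3 ≤ K')
    (hb : 16 ≤ b) (hK : 1 ≤ K) (hs : 0 < s) (he5 : 0 < e5)
    (hϑ : 0 < ϑ) (hϑ1 : ϑ ≤ 1 / 100) (hβ : 0 < β) (hθ : 0 < θ) (hθϑ : θ ≤ ϑ)
    (hθβ : 8 * (θ + θ) ^ 2 ≤ β ^ 2 / 2) (hq0 : 0 < q0) (hq1 : q0 ≤ 1) (hcT : 0 < cT)
    (hcT1 : cT ≤ 1) (hcT2 : 8 * C * cT ≤ β ^ 2 / 4 * (θ ^ 2 / (4 * K)) ^ d)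
    (hCM : CM = d * 2 ^ (d + 1) / ϑ + 1) (hCM0 : 0 < CM) (hk1 : 0 < k1) (hk1T : k1 ≤ cT)
    (hE1 : 2 * ϑ ^ 2 + 8 * d ^ 2 * K ^ 2 / s ^ 2 * ((83 + 160 * d) * ϑ + 40 * d * β) ≤ e5 / 2)
    (hE2 : 8 * d ^ 2 / s ^ 2 * ((1 + 2 / ϑ) * (2 * d * CM ^ 2 + d / (2 * ϑ))) *
        (k1 / (cT * q0 ^ J)) ^ 2 ≤ e5 / 4)
    (hE3 : k1 * (8 * d * CM) ≤ cT * q0 ^ J * s) :
    ∃ c k lam0 : ℝ, 0 < c ∧ 0 < k ∧ 0 < lam0 ∧ ∀ lam : ℝ, 0 < lam → lam ≤ lam0 →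
      ∀ ℓ' : ℝ, ℓ' = scl d k' (θ / 4 / lam) → K' * lam ≤ θ / 4 ∧ lam ≤ 1 ∧ 1 ≤ ℓ' ∧
      ∀ L : ℕ, scl d c (1 / lam) ^ (d + 1) ≤ L → (L : ℝ) ≤ scl d c (1 / lam) ^ N →
      ℓ' ≤ L ∧ (L : ℝ) ≤ 2 * ℓ' ^ ((N * d + 1) + 2) ∧
      ∀ κ : ℝ, 1 / scl d c (1 / lam) ≤ κ → κ ≤ k → ∀ pG : ℝ, 0 ≤ pG →
        pG ≤ (ℓ' ^ (N * d + 1))⁻¹ → ∃ (τ : ℝ) (M R Nt n n' : ℕ),
        0 < κ ∧ K * κ ≤ 1 ∧ (K * κ) ^ 2 ≤ 4 * ϑ ∧ 48 * (ℓ' ^ 2)⁻¹ ≤ κ ^ 2 ∧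
        (ℓ' ^ 2)⁻¹ ≤ ϑ * κ ^ 2 ∧ 1 ≤ M ∧ M ≤ L ∧
        d * (2 ^ (d + 1) / (M : ℝ)) ≤ ϑ * (K * κ) ∧ 0 < τ ∧
        (∀ j < J, 2 * ((R : ℝ) + M) ≤ τ * q0 ^ j * s * κ / (2 * d)) ∧ 2 ≤ s * κ * L ∧
        2 * (M + Nt) + 2 < L ∧ 24 * ((4 * d + 1) * τ) ≤ Nt ∧
        12 * d * (L : ℝ) ^ 2 * Real.exp (-(Nt : ℝ)) ≤ ϑ * (K * κ) ∧
        1 ≤ n' ∧ n' ≤ n ∧ n' * (1 / (2 * n + 1) + 1 / (L : ℝ) ^ 2) ≤ θ ^ 2 ∧
        ((2 * n : ℕ) : ℝ) * (4 * (2 * (K * κ)) ^ 2 + 12 * (ℓ' ^ 2)⁻¹) ≤ b * θ ^ 2 ∧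
        8 * (θ + θ) ^ 2 + 2 * C * (lam * (n + τ)) ^ 2 / (n' : ℝ) ^ ((d : ℝ) / 2) +
          6 * (L : ℝ) ^ d * pG ≤ β ^ 2 ∧
        (∀ j < J, pG + 2 * ϑ ^ 2 +
          2 / (τ * q0 ^ j * s * κ / (2 * d)) ^ 2 *
            ((1 + 2 / ϑ) * (2 * (√d * M) ^ 2 + d / (2 * ϑ)) +
            (83 + 160 * d) * ϑ * (K * κ) ^ 2 * (τ * q0 ^ j) ^ 2 +
            40 * d * (K * κ) ^ 2 * (τ * q0 ^ j) ^ 2 * β) ≤ e5) ∧
        k * (κ * L) ^ d ≤ (κ * L / (28 * d)) ^ d ∧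
        (∀ x : ℕ, (x : ℝ) ≤ k * κ ^ (1 - (d : ℝ) / 2) / lam → x ≤ R) ∧ pG ≤ ε / 2 := by
  have hd0 : (3 : ℝ) ≤ d := by exact_mod_cast hd
  have hθ1 : θ ≤ 1 / 100 := hθϑ.trans hϑ1
  have hβ2 : 0 < β ^ 2 := by positivity
  -- the scale
  obtain ⟨c, hc, hrel⟩ := scl_rel d hd k' (θ / 4) (1 / ϑ) hk' (by positivity) (by linarith) (by
    rw [le_div_iff₀ hϑ]; linarith)
  obtain ⟨l0, hl0, hsm⟩ := Pool.Agent.V8H95.MF.small d hd k' (θ / 4) k1 hk' (by positivity) hk1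
  obtain ⟨Y, hY⟩ : ∃ Y : ℝ, Y = 2 / ϑ + 2 / s + 8 * CM + 384 * (4 * d + 1) / c + 16 +
    18874368 * d / ϑ + 24 / β ^ 2 + 4 / e5 + 2 / ε := ⟨_, rfl⟩
  have p1 : 0 < 2 / ϑ := by positivity
  have p2 : 0 < 2 / s := by positivity
  have p3 : 0 < 8 * CM := by positivity
  have p4 : 0 < 384 * (4 * (d : ℝ) + 1) / c := by positivity
  have p5 : 0 < 18874368 * (d : ℝ) / ϑ := by positivity
  have p6 : 0 < 24 / β ^ 2 := by positivity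
  have p7 : 0 < 4 / e5 := by positivity
  have p8 : 0 < 2 / ε := by positivity
  have hY0 : 0 < Y := by rw [hY]; positivity
  obtain ⟨k, hk⟩ : ∃ k : ℝ, k = min (min (1 / K) (θ ^ 2 / (8 * K)))
    (min (min (ϑ / K) ((1 / (28 * d)) ^ d)) (cT * q0 ^ J * s / (8 * d))) := ⟨_, rfl⟩
  have hk0 : 0 < k := by rw [hk]; positivity
  have hka : k ≤ 1 / K := by rw [hk]; exact (min_le_left _ _).trans (min_le_left _ _)
  have hkb : k ≤ θ ^ 2 / (8 * K) := by rw [hk]; exact (min_le_left _ _).trans (min_le_right _ _)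
  have hkc : k ≤ ϑ / K := by
    rw [hk]; exact (min_le_right _ _).trans ((min_le_left _ _).trans (min_le_left _ _))
  have hkd : k ≤ (1 / (28 * d)) ^ d := by
    rw [hk]; exact (min_le_right _ _).trans ((min_le_left _ _).trans (min_le_right _ _))
  have hke : k ≤ cT * q0 ^ J * s / (8 * d) := by
    rw [hk]; exact (min_le_right _ _).trans (min_le_right _ _)
  obtain ⟨lam0, hlam0⟩ : ∃ lam0 : ℝ, lam0 = min (min l0 ((θ / 4) ^ 2))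
    (min (min (θ / 4 / K') (θ / 4 / 3)) (min (1 / 3) (c / Y))) := ⟨_, rfl⟩
  have hlam00 : 0 < lam0 := by rw [hlam0]; positivity
  have hla : lam0 ≤ l0 := by rw [hlam0]; exact (min_le_left _ _).trans (min_le_left _ _)
  have hlb : lam0 ≤ (θ / 4) ^ 2 := by rw [hlam0]; exact (min_le_left _ _).trans (min_le_right _ _)
  have hlc : lam0 ≤ θ / 4 / K' := by
    rw [hlam0]; exact (min_le_right _ _).trans ((min_le_left _ _).trans (min_le_left _ _))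
  have hld : lam0 ≤ θ / 4 / 3 := by
    rw [hlam0]; exact (min_le_right _ _).trans ((min_le_left _ _).trans (min_le_right _ _))
  have hle : lam0 ≤ 1 / 3 := by
    rw [hlam0]; exact (min_le_right _ _).trans ((min_le_right _ _).trans (min_le_left _ _))
  have hlf : lam0 ≤ c / Y := by
    rw [hlam0]; exact (min_le_right _ _).trans ((min_le_right _ _).trans (min_le_right _ _))
  refine ⟨c, k, lam0, hc, hk0, hlam00, ?_⟩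
  intro lam hlam hlam1 ℓ' hℓ'
  have hK'l : K' * lam ≤ θ / 4 := by
    have := hlam1.trans hlc
    rw [le_div_iff₀ (by linarith)] at this
    linarith
  have h3l : 3 * lam ≤ θ / 4 := by
    have := hlam1.trans hld
    rw [le_div_iff₀ (by norm_num)] at this
    linarith
  obtain ⟨ℓ, hℓ⟩ : ∃ ℓ : ℝ, ℓ = scl d c (1 / lam) := ⟨_, rfl⟩
  have hcl : c / lam ≤ ℓ := by
    rw [hℓ]
    have := scl_ge d hd c (1 / lam) hc (by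
      rw [le_div_iff₀ hlam]
      have := hlam1.trans hle
      linarith)
    rwa [mul_one_div] at this
  have hYℓ : Y ≤ ℓ := by
    refine le_trans ?_ hcl
    rw [le_div_iff₀ hlam]
    have := hlam1.trans hlf
    rw [le_div_iff₀ hY0] at this
    linarith
  have hℓ16 : 16 ≤ ℓ := by rw [hY] at hYℓ; linarith
  have hℓϑ : 2 / ϑ ≤ ℓ := by rw [hY] at hYℓ; linarith
  have hℓs : 2 / s ≤ ℓ := by rw [hY] at hYℓ; linarith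
  have hℓM : 8 * CM ≤ ℓ := by rw [hY] at hYℓ; linarith
  have hℓc : 384 * (4 * (d : ℝ) + 1) / c ≤ ℓ := by rw [hY] at hYℓ; linarith
  have hℓe : 18874368 * (d : ℝ) / ϑ ≤ ℓ := by rw [hY] at hYℓ; linarith
  have hℓβ : 24 / β ^ 2 ≤ ℓ := by rw [hY] at hYℓ; linarith
  have hℓ5 : 4 / e5 ≤ ℓ := by rw [hY] at hYℓ; linarith
  have hℓε : 2 / ε ≤ ℓ := by rw [hY] at hYℓ; linarith
  have hℓ0 : 0 < ℓ := by linarith
  have hℓ1 : 1 ≤ ℓ := by linarith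
  obtain ⟨hr1, hr2⟩ := hrel lam hlam (hlam1.trans hlb) h3l (by
    rw [← hℓ]
    calc 2 * (1 / ϑ) = 2 / ϑ := by ring
      _ ≤ ℓ := hℓϑ)
  rw [← hℓ, ← hℓ'] at hr1 hr2
  have hB : 1 ≤ 1 / ϑ := by rw [le_div_iff₀ hϑ]; linarith
  have hℓℓ' : ℓ ≤ ℓ' := by
    refine le_trans ?_ hr1
    calc ℓ = 1 * ℓ := (one_mul ℓ).symm
      _ ≤ 1 / ϑ * ℓ := by gcongr
  have hℓ'0 : 0 < ℓ' := by linarith
  have hℓ'1 : 1 ≤ ℓ' := by linarith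
  refine ⟨hK'l, (hlam1.trans hle).trans (by norm_num), hℓ'1, ?_⟩
  rw [← hℓ]
  intro L hL1 hL2
  have hℓL : ℓ' ≤ L := hr2.trans hL1
  have hL16 : (16 : ℝ) ≤ L := by linarith
  have hL0 : (0 : ℝ) < L := by linarith
  have hLN : (L : ℝ) ≤ ℓ' ^ N := hL2.trans (by gcongr)
  refine ⟨hℓL, ?_, ?_⟩
  · have h1 : ℓ' ^ N ≤ ℓ' ^ ((N * d + 1) + 2) := by
      apply pow_le_pow_right₀ hℓ'1
      have := Nat.le_mul_of_pos_right N (show 0 < d by omega)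
      omega
    have h2 : 0 < ℓ' ^ ((N * d + 1) + 2) := by positivity
    linarith
  intro κ hκℓ hκk pG hpG0 hpG
  have hκ : 0 < κ := lt_of_lt_of_le (by positivity) hκℓ
  have hKκ : K * κ ≤ 1 := by
    have := hκk.trans hka
    rw [le_div_iff₀ (by linarith)] at this
    linarith
  have hκK : κ ≤ K * κ := by
    calc κ = 1 * κ := (one_mul κ).symm
      _ ≤ K * κ := by gcongr
  have hκ1 : κ ≤ 1 := hκK.trans hKκ
  have hKκϑ : K * κ ≤ ϑ := by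
    have := hκk.trans hkc
    rw [le_div_iff₀ (by linarith)] at this
    linarith
  have hKκ0 : 0 < K * κ := by positivity
  have hκinv : 1 / κ ≤ ℓ := by
    rw [div_le_iff₀ hℓ0] at hκℓ
    rw [div_le_iff₀ hκ]
    linarith
  have hℓκ : 1 ≤ ℓ * κ := by rwa [div_le_iff₀ hκ] at hκinv
  -- the mass
  have hm : (ℓ' ^ 2)⁻¹ ≤ ϑ ^ 2 * κ ^ 2 := by
    have h1 : ℓ * (1 / ϑ) ≤ ℓ' := by linarith
    have h2 : 1 ≤ ℓ' * (ϑ * κ) := by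
      calc (1 : ℝ) ≤ ℓ * κ := hℓκ
        _ = ℓ * (1 / ϑ) * (ϑ * κ) := by field_simp
        _ ≤ ℓ' * (ϑ * κ) := by gcongr
    rw [inv_le_iff_one_le_mul₀ (by positivity)]
    calc (1 : ℝ) ≤ (ℓ' * (ϑ * κ)) ^ 2 := one_le_pow₀ h2
      _ = _ := by ring
  have hκ2 : 0 < κ ^ 2 := by positivity
  have hm1 : (ℓ' ^ 2)⁻¹ ≤ ϑ * κ ^ 2 := by
    refine hm.trans ?_
    gcongr
    calc ϑ ^ 2 = ϑ * ϑ := by ring
      _ ≤ ϑ * 1 := by gcongr; linarith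
      _ = ϑ := mul_one ϑ
  have hm2 : 48 * (ℓ' ^ 2)⁻¹ ≤ κ ^ 2 := by
    calc 48 * (ℓ' ^ 2)⁻¹ ≤ 48 * (ϑ ^ 2 * κ ^ 2) := by gcongr
      _ ≤ 48 * ((1 / 100) ^ 2 * κ ^ 2) := by gcongr
      _ ≤ κ ^ 2 := by linarith
  -- the power of κ
  have hsmall := hsm lam hlam (hlam1.trans hla) κ hκ hκ1 (by
    rw [← hℓ']
    refine le_trans ?_ hκℓ
    gcongr)
  obtain ⟨w, hw⟩ : ∃ w : ℝ, w = κ ^ ((d : ℝ) / 2) := ⟨_, rfl⟩
  have hw0 : 0 < w := by rw [hw]; exact Real.rpow_pos_of_pos hκ _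
  have hw2 : w ^ 2 = κ ^ d := by
    rw [hw, ← Real.rpow_natCast, ← Real.rpow_mul hκ.le, ← Real.rpow_natCast]
    congr 1
    push_cast
    ring
  have hwd : κ ^ (d - 1) ≤ w := by
    rw [hw, ← Real.rpow_natCast κ (d - 1)]
    apply Real.rpow_le_rpow_of_exponent_ge hκ hκ1
    rw [Nat.cast_sub (by omega)]
    push_cast
    linarith
  rw [← hw] at hsmall
  obtain ⟨τ, hτ⟩ : ∃ τ : ℝ, τ = cT / (lam * w) := ⟨_, rfl⟩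
  have hτ0 : 0 < τ := by rw [hτ]; positivity
  have hκτ : cT / k1 ≤ κ ^ 2 * τ := by
    rw [hτ, mul_div_assoc', div_le_div_iff₀ hk1 (by positivity)]
    calc cT * (lam * w) ≤ cT * (k1 * κ ^ 2) := by gcongr
      _ = _ := by ring
  have hτL : τ ≤ ℓ ^ d / c := by
    have h1 : 1 / w ≤ ℓ ^ (d - 1) := by
      calc 1 / w ≤ 1 / κ ^ (d - 1) := by gcongr
        _ = (1 / κ) ^ (d - 1) := by rw [div_pow, one_pow]
        _ ≤ ℓ ^ (d - 1) := by gcongr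
    have h2 : 1 / lam ≤ ℓ / c := by
      rw [div_le_div_iff₀ hlam hc]
      rw [div_le_iff₀ hlam] at hcl
      linarith
    calc τ = cT * (1 / lam) * (1 / w) := by rw [hτ]; field_simp
      _ ≤ 1 * (ℓ / c) * ℓ ^ (d - 1) := by gcongr
      _ = ℓ ^ (d - 1 + 1) / c := by rw [pow_succ]; ring
      _ = ℓ ^ d / c := by rw [Nat.sub_add_cancel (by omega)]
  -- the naturals
  obtain ⟨M, hM⟩ : ∃ M : ℕ, M = ⌈d * 2 ^ (d + 1) / (ϑ * (K * κ))⌉₊ := ⟨_, rfl⟩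
  have hMlo : d * 2 ^ (d + 1) / (ϑ * (K * κ)) ≤ (M : ℝ) := by rw [hM]; exact Nat.le_ceil _
  have hMpos : (0 : ℝ) < M := lt_of_lt_of_le (by positivity) hMlo
  have hM1 : 1 ≤ M := by exact_mod_cast hMpos
  have hMhi : (M : ℝ) ≤ CM / κ := by
    have h1 : (M : ℝ) < d * 2 ^ (d + 1) / (ϑ * (K * κ)) + 1 := by
      rw [hM]; exact Nat.ceil_lt_add_one (by positivity)
    have h2 : d * 2 ^ (d + 1) / (ϑ * (K * κ)) ≤ d * 2 ^ (d + 1) / ϑ / κ := by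
      rw [div_div]
      gcongr
    have h3 : 1 ≤ 1 / κ := by rw [le_div_iff₀ hκ]; linarith
    rw [hCM, add_div]
    linarith
  have hMℓ : (M : ℝ) ≤ CM * ℓ := by
    refine hMhi.trans ?_
    calc CM / κ = CM * (1 / κ) := by ring
      _ ≤ CM * ℓ := by gcongr
  have hℓd2 : ℓ ^ 2 ≤ (L : ℝ) := by
    refine le_trans ?_ hL1
    exact pow_le_pow_right₀ hℓ1 (by omega)
  have hM8 : 8 * (M : ℝ) ≤ L := by
    calc 8 * (M : ℝ) ≤ 8 * (CM * ℓ) := by gcongr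
      _ = 8 * CM * ℓ := by ring
      _ ≤ ℓ * ℓ := by gcongr
      _ = ℓ ^ 2 := by ring
      _ ≤ L := hℓd2
  obtain ⟨R, hR⟩ : ∃ R : ℕ, R = ⌊k * κ ^ (1 - (d : ℝ) / 2) / lam⌋₊ := ⟨_, rfl⟩
  have hrp : κ ^ (1 - (d : ℝ) / 2) = κ / w := by
    rw [hw, Real.rpow_sub hκ, Real.rpow_one]
  have hRhi : (R : ℝ) ≤ k * (κ / w) / lam := by
    rw [hR, ← hrp]
    exact Nat.floor_le (by positivity)
  obtain ⟨Nt, hNt⟩ : ∃ Nt : ℕ, Nt = L / 8 := ⟨_, rfl⟩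
  have hNt1 : (L : ℝ) / 16 ≤ Nt := by
    have h1 : L ≤ 8 * Nt + 7 := by omega
    have h2 : (L : ℝ) ≤ 8 * Nt + 7 := by exact_mod_cast h1
    linarith
  have hMN : 2 * (M + Nt) + 2 < L := by
    have h1 : 8 * M ≤ L := by exact_mod_cast hM8
    have h2 : 16 ≤ L := by exact_mod_cast hL16
    omega
  -- arith_n
  obtain ⟨n, n', hn1, hn2, hn3, hn4, hn5, hn6⟩ := Pool.Agent.V8H95.MF.arith_n θ (2 * (K * κ)) ℓ' L
    hθ (by linarith) (by positivity) (by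
      have := hκk.trans hkb
      rw [le_div_iff₀ (by positivity)] at this
      linarith)
    (by
      refine le_trans ?_ hℓℓ'
      refine le_trans ?_ hκinv
      gcongr
      linarith) hℓL b hb
  have hqJ : 0 < q0 ^ J := by positivity
  have hqj : ∀ j < J, q0 ^ J ≤ q0 ^ j := fun j hj => pow_le_pow_of_le_one hq0.le hq1 hj.le
  refine ⟨τ, M, R, Nt, n, n', hκ, hKκ, ?_, hm2, hm1, hM1, ?_, ?_, hτ0, ?_, ?_, hMN, ?_, ?_, hn1,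
    hn2, hn5, hn6, ?_, ?_, ?_, ?_, ?_⟩
  · calc (K * κ) ^ 2 ≤ ϑ ^ 2 := by gcongr
      _ = ϑ * ϑ := by ring
      _ ≤ 4 * ϑ := by gcongr; linarith
  · have h1 : 8 * M ≤ L := by exact_mod_cast hM8
    omega
  · rw [div_le_iff₀ (by positivity)] at hMlo
    rw [← mul_div_assoc, div_le_iff₀ hMpos]
    linarith
  · intro j hj
    exact par_R d J j R M k κ w lam cT q0 s CM k1 τ (by linarith) hke hRhi hMhi hκ hw0 hlam hcT hq0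
      hs hCM0 hsmall hE3 hτ (hqj j hj)
  · have h1 : ℓ ≤ κ * L := by
      calc ℓ = ℓ * 1 := (mul_one ℓ).symm
        _ ≤ ℓ * (ℓ * κ) := by gcongr
        _ = κ * ℓ ^ 2 := by ring
        _ ≤ κ * L := by gcongr
    rw [div_le_iff₀ hs] at hℓs
    calc (2 : ℝ) ≤ ℓ * s := hℓs
      _ ≤ κ * L * s := by gcongr
      _ = s * κ * L := by ring
  · refine le_trans ?_ hNt1
    rw [le_div_iff₀ (by norm_num)]
    calc 24 * ((4 * (d : ℝ) + 1) * τ) * 16 ≤ 24 * ((4 * (d : ℝ) + 1) * (ℓ ^ d / c)) * 16 := by gcongr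
      _ = 384 * (4 * (d : ℝ) + 1) / c * ℓ ^ d := by ring
      _ ≤ ℓ * ℓ ^ d := by gcongr
      _ = ℓ ^ (d + 1) := by ring
      _ ≤ L := hL1
  · exact par_tail d L ϑ ℓ (K * κ) Nt hϑ hℓ0 hℓe (hℓℓ'.trans hℓL) hNt1 (hκℓ.trans hκK)
  · have hv := par_vv d C cT w κ θ K β lam n τ n' k1 hC hcT hcT1 hcT2 hθ (by linarith) hK hκ hlam
      hw0 hw2 hsmall hk1T hτ (Nat.cast_nonneg n) hn3 hn4
    have hg := par_gg N d L ℓ' pG β hL0 hLN hℓ'0 hβ2 (hℓβ.trans hℓℓ') hpG0 hpG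
    linarith
  · intro j hj
    refine par_err d J j pG ϑ τ q0 s κ K M β e5 CM k1 cT (by linarith) ?_ hϑ hτ0 hq0 hs hκ hκ1
      (Nat.cast_nonneg M) hMhi hcT hk1 hκτ (hqj j hj) hE1 hE2
    refine par_pG (N * d + 1) (by omega) ℓ' pG (e5 / 4) hℓ'1 (by positivity) ?_ hpG
    refine le_trans ?_ (hℓ5.trans hℓℓ')
    rw [one_div_div]
  · have h1 : 0 ≤ (κ * L) ^ d := by positivity
    calc k * (κ * L) ^ d ≤ (1 / (28 * d)) ^ d * (κ * L) ^ d := by gcongr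
      _ = (κ * L / (28 * d)) ^ d := by rw [← mul_pow]; congr 1; ring
  · intro x hx
    rw [hR]
    exact Nat.le_floor hx
  · refine par_pG (N * d + 1) (by omega) ℓ' pG (ε / 2) hℓ'1 (by positivity) ?_ hpG
    refine le_trans ?_ (hℓε.trans hℓℓ')
    rw [one_div_div]

end Pool.Agent.V8H95.EF
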