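import Pool.Agent.V8H95.EF.Tor
import Pool.Agent.V8H95.EF.Par2
import Pool.Agent.V8H95.MF.Fin

/-!
The final theorem for orthonormal bases.
-/

set_option autoImplicit false
set_option linter.unusedSectionVars false

open Complex MeasureTheory
open scoped BigOperators ComplexConjugate

namespace Pool.Agent.V8H95.EF

open Pool.Agent.H4R2.AE Pool.Agent.V8H99.AD Pool.Agent.V8H95.MF Pool.Agent.V8H95.BW

theorem final (d : ℕ) (hd : 3 ≤ d) (N : ℕ) (ε : ℝ) (hε : 0 < ε) (hε1 : ε ≤ 1) :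
    ∃ c k lam0 : ℝ, 0 < c ∧ 0 < k ∧ 0 < lam0 ∧
    ∀ (μ : Measure ℝ) [IsProbabilityMeasure μ], μ (Set.Icc (-1) 1)ᶜ = 0 →
    ∀ lam : ℝ, 0 < lam → lam ≤ lam0 → ∀ (L : ℕ) [NeZero L],
    scl d c (1 / lam) ^ (d + 1) ≤ L → (L : ℝ) ≤ scl d c (1 / lam) ^ N →
    ∀ κ : ℝ, 1 / scl d c (1 / lam) ≤ κ → κ ≤ k →
    ∃ G : Set (T d L → ℝ), MeasurableSet G ∧ 1 - ε ≤ (Measure.pi fun _ : T d L => μ).real G ∧
      ∀ V ∈ G, ∀ (b : OrthonormalBasis (T d L) ℂ (XT d L)) (E : T d L → ℝ),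
        (∀ α, HC lam V (b α) = ((E α : ℝ) : ℂ) • b α) →
        k * (κ * L) ^ d ≤ ((win E κ).card : ℝ) ∧
        ∀ S : Finset (T d L), S ⊆ win E κ → (∀ α ∈ S, ∃ x0 : T d L,
          ε < ‖rs (fun x => (nn (x - x0) : ℝ) ≤ k * κ ^ (1 - (d : ℝ) / 2) / lam) (b α)‖ ^ 2) →
          (S.card : ℝ) ≤ ε * ((win E κ).card : ℝ) := by
  obtain ⟨C, hC, HT⟩ := torus_main d hd
  obtain ⟨k', K', hk', hK', HE⟩ := torus_event d hd (N * d + 1)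
  obtain ⟨J, K, s, e5, ϑ, β, θ, q0, cT, CM, k1, a1, a2, a3, a4, a5, a6, a7, a8, a9, a10, a11, a12,
    a13, a14, a15, a16, a17, a18, a19, a20, a21, a22, a23, a24, a25, a26, a27, a28⟩ :=
    consts d hd ε C hε hε1 hC
  have hd0 : (3 : ℝ) ≤ d := by exact_mod_cast hd
  have hb : (16 : ℝ) ≤ bb d := by unfold bb; linarith
  obtain ⟨c, k, lam0, hc, hk, hlam0, HP⟩ := par_var d hd N ε C k' K' J K s e5 ϑ β θ q0 cT CM k1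
    (bb d) hε hC hk' hK' hb a2 a4 a6 a8 a9 a11 a12 a13 a14 a15 a16 a18 a19 a20 a21 a22 a23 a25
    a26 a27 a28
  refine ⟨c, k, lam0, hc, hk, hlam0, ?_⟩
  intro μ _ hμ lam hlam hlaml L _ hL1 hL2 κ hκ1 hκ2
  obtain ⟨ℓ, hℓ⟩ : ∃ ℓ : ℝ, ℓ = scl d k' (θ / 4 / lam) := ⟨_, rfl⟩
  obtain ⟨hKl, hlam1, hℓ1, HP2⟩ := HP lam hlam hlaml ℓ hℓ
  obtain ⟨hℓL, hLe, HP3⟩ := HP2 L hL1 hL2
  have hθ8 : θ / 4 ≤ 1 / 8 := by linarith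
  rw [hℓ] at hℓ1 hLe hℓL
  obtain ⟨E, hE, G0, hG0m, hG0P, hG0⟩ := HE μ lam (θ / 4) hlam hKl hθ8 L hℓ1 hLe hℓL
  rw [← hℓ] at hℓ1 hLe hℓL hG0P hG0
  obtain ⟨G, hGm, hGP, hG⟩ := Arith.pi_real_inter μ hμ G0 hG0m _ hG0P
  have hGc : (Measure.pi fun _ : T d L => μ).real Gᶜ ≤ (ℓ ^ (N * d + 1))⁻¹ := by
    have := probReal_add_probReal_compl (μ := Measure.pi fun _ : T d L => μ) hGm
    linarith
  have hℓ0 : 0 < ℓ := by linarith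
  obtain ⟨τ, M, R, Nt, n, n', b1, b2, b3, b4, b5, b6, b7, b8, b9, b10, b11, b12, b13, b14, b15,
    b16, b17, b18, b19, b20, b21, b22, b23⟩ := HP3 κ hκ1 hκ2
      ((Measure.pi fun _ : T d L => μ).real Gᶜ) measureReal_nonneg hGc
  have hμ1 : ∀ᵐ s ∂μ, |s| ≤ 1 := by
    rw [ae_iff]
    refine measure_mono_null (fun s hs => ?_) hμ
    intro hs'
    exact hs (abs_le.2 hs')
  have hm0 : 1 / (L : ℝ) ^ 2 ≤ (ℓ ^ 2)⁻¹ := by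
    rw [← one_div]
    gcongr
  have hm1 : (ℓ ^ 2)⁻¹ ≤ 1 := inv_le_one_of_one_le₀ (one_le_pow₀ hℓ1)
  have e4 : 4 * (θ / 4) = θ := by ring
  obtain ⟨G', hG'm, hG'P, hG'⟩ := HT L lam (E - 2 * (ℓ ^ 2)⁻¹) (ℓ ^ 2)⁻¹ θ ϑ K s e5 β ε κ τ q0
    J M R Nt n n' μ hμ1 G hGm
    (fun V hV => by
      obtain ⟨w, hw1, hw2⟩ := hG0 V (hG V hV).1 (hG V hV).2
      have := gd_of_mass hlam.le hlam1 (by positivity) hθ8 hE (hG V hV).2 hw1 hm0 hm1 hw2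
      rwa [e4] at this)
    a12.le hε a1 a2 a3 a4 a5 a6.le a7 b1 b2 b3 a8 a9 a13 a10 b4 b5 b6 b7 b8 b9 a15 a16 a17 b10
    b11 b12 b13 b14 b15 b16 b17 b18 hlam.le a11 b19 b20
  refine ⟨G', hG'm, by linarith, ?_⟩
  intro V hV b E' hb'
  obtain ⟨c1, c2⟩ := hG' V hV b E' hb'
  refine ⟨b21.trans c1, ?_⟩
  intro S hS hSε
  refine c2 S hS fun α hα => ?_
  obtain ⟨x0, hx0⟩ := hSε α hα
  refine ⟨x0, lt_of_lt_of_le hx0 ?_⟩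
  classical
  rw [rs_norm, rs_norm]
  refine Finset.sum_le_sum fun x _ => ?_
  by_cases h1 : (nn (x - x0) : ℝ) ≤ k * κ ^ (1 - (d : ℝ) / 2) / lam
  · rw [if_pos h1, if_pos (b22 _ h1)]
  · rw [if_neg h1]
    split_ifs <;> positivity

end Pool.Agent.V8H95.EF
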