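import Pool.Agent.V8H95.EF.Win

/-!
Cells of the torus and annuli around them.
-/

set_option autoImplicit false
set_option linter.unusedSectionVars false

open Complex
open scoped BigOperators ComplexConjugate

namespace Pool.Agent.V8H95.EF

open Pool.Agent.H4R2.AE Pool.Agent.V8H99.AD Pool.Agent.V8H95.MF Pool.Agent.V8H95.BW

variable {d L : ℕ} [NeZero L]

/-- the cell of a point -/
def cell (r0 : ℕ) (x : T d L) : Fin d → ℕ := fun i => (x i).val / r0

theorem div_near {a b r0 : ℕ} (h0 : 1 ≤ r0) (h : a / r0 = b / r0) :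
    ((a : ℤ) - b).natAbs ≤ r0 := by
  have h1 := Nat.div_add_mod a r0
  have h2 := Nat.div_add_mod b r0
  have h3 := Nat.mod_lt a (show 0 < r0 by omega)
  have h4 := Nat.mod_lt b (show 0 < r0 by omega)
  rw [h] at h1
  omega

theorem cell_near {r0 : ℕ} (h0 : 1 ≤ r0) {x z : T d L} (h : cell r0 x = cell r0 z) :
    nn (x - z) ≤ r0 := by
  refine nn_le fun i => ?_
  refine (na_le_cast ((x - z) i) (((x i).val : ℤ) - ((z i).val : ℤ)) ?_).trans
    (div_near h0 (congrFun h i))
  push_cast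
  rw [ZMod.natCast_zmod_val, ZMod.natCast_zmod_val]
  rfl

/-- the possible values of the quotient -/
def S6 (L r0 a : ℕ) : Finset ℕ :=
  {a / r0 - 1, a / r0, a / r0 + 1, (L - 1) / r0 - 1, (L - 1) / r0, 0}

theorem S6_card (L r0 a : ℕ) : (S6 L r0 a).card ≤ 6 := by
  unfold S6
  exact Finset.card_le_six

theorem s6_mem {r0 D : ℕ} (h0 : 1 ≤ r0) (hD : D ≤ r0) (a w : ZMod L) (h : na (a - w) ≤ D) :
    w.val / r0 ∈ S6 L r0 a.val := by
  have hL : 0 < L := NeZero.pos L
  have ha := ZMod.val_lt a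
  have hw := ZMod.val_lt w
  set k : ℤ := (a - w).valMinAbs with hk
  have hk1 : k.natAbs ≤ r0 := h.trans hD
  have hk2 : k.natAbs ≤ L / 2 := ZMod.natAbs_valMinAbs_le (a - w)
  have h1 : (((a.val : ℤ) - w.val - k : ℤ) : ZMod L) = 0 := by
    push_cast
    rw [ZMod.natCast_zmod_val, ZMod.natCast_zmod_val, hk, ZMod.coe_valMinAbs]
    ring
  rw [ZMod.intCast_zmod_eq_zero_iff_dvd] at h1
  obtain ⟨j, hj⟩ := h1
  have hj1 : j = -1 ∨ j = 0 ∨ j = 1 := by
    have h2 : j < 2 := by
      by_contra hc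
      have h3 : (L : ℤ) * 2 ≤ L * j := by
        apply mul_le_mul_of_nonneg_left (by omega) (by omega)
      omega
    have h3 : -2 < j := by
      by_contra hc
      have h3 : (L : ℤ) * j ≤ L * (-2) := by
        apply mul_le_mul_of_nonneg_left (by omega) (by omega)
      omega
    omega
  unfold S6
  simp only [Finset.mem_insert, Finset.mem_singleton]
  rcases hj1 with hj1 | hj1 | hj1
  · rw [hj1] at hj
    have h2 : L - 1 ≤ w.val + r0 := by omega
    have h3 := Nat.div_le_div_right (c := r0) h2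
    rw [Nat.add_div_right _ (by omega)] at h3
    have h4 : w.val / r0 ≤ (L - 1) / r0 := Nat.div_le_div_right (by omega)
    clear hj
    generalize w.val / r0 = u1 at *
    generalize (L - 1) / r0 = u2 at *
    generalize a.val / r0 = u3 at *
    omega
  · rw [hj1] at hj
    have h2 : w.val ≤ a.val + r0 := by omega
    have h3 : a.val ≤ w.val + r0 := by omega
    have h4 := Nat.div_le_div_right (c := r0) h2
    have h5 := Nat.div_le_div_right (c := r0) h3
    rw [Nat.add_div_right _ (by omega)] at h4 h5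
    clear hj
    generalize w.val / r0 = u1 at *
    generalize (L - 1) / r0 = u2 at *
    generalize a.val / r0 = u3 at *
    omega
  · rw [hj1] at hj
    have h2 : w.val < r0 := by omega
    have h3 : w.val / r0 = 0 := Nat.div_eq_of_lt h2
    omega

/-- the point `y` is near the cell -/
def Near (r0 D : ℕ) (c : Fin d → ℕ) (y : T d L) : Prop := ∃ z, cell r0 z = c ∧ nn (y - z) ≤ D

open scoped Classical in
/-- a point is near few cells -/
theorem overlap {r0 D : ℕ} (h0 : 1 ≤ r0) (hD : D ≤ r0) (y : T d L)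
    (C : Finset (Fin d → ℕ)) : (C.filter fun c => Near (L := L) r0 D c y).card ≤ 6 ^ d := by
  have h1 : (C.filter fun c => Near (L := L) r0 D c y) ⊆
      Fintype.piFinset fun i => S6 L r0 (y i).val := by
    intro c hc
    rw [Finset.mem_filter] at hc
    obtain ⟨z, hz1, hz2⟩ := hc.2
    rw [Fintype.mem_piFinset]
    intro i
    rw [← hz1]
    exact s6_mem h0 hD (y i) (z i) ((na_le_nn (y - z) i).trans hz2)
  refine (Finset.card_le_card h1).trans ?_
  rw [Fintype.card_piFinset]
  calc ∏ i : Fin d, (S6 L r0 (y i).val).card ≤ ∏ _i : Fin d, 6 :=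
        Finset.prod_le_prod' fun i _ => S6_card _ _ _
    _ = 6 ^ d := by simp

/-- the annulus around a cell -/
def Ann (r0 : ℕ) (lo hi : ℝ) (c : Fin d → ℕ) (x : T d L) : Prop :=
  ∀ z, cell r0 z = c → lo ≤ nn (x - z) ∧ (nn (x - z) : ℝ) ≤ hi

theorem outside {r0 D : ℕ} (h0 : 1 ≤ r0) (lo hi r A : ℝ) (hr : 0 ≤ r)
    (a : Fin d → ℝ)
    (ha1 : d * (r + lo + (D + r0)) ^ 2 ≤ ∑ j, a j ^ 2) (ha2 : ∀ j, |a j| ≤ A)
    (hd : 1 ≤ d) (hhi : (D + r0) + A + r ≤ hi) (c : Fin d → ℕ) (y x : T d L)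
    (hy : Near r0 D c y) (hx : ¬ Ann r0 lo hi c x) :
    r ^ 2 ≤ ∑ j, (X j (x - y) - a j) ^ 2 := by
  have key : ∀ j, r ≤ |X j (x - y) - a j| → r ^ 2 ≤ ∑ j, (X j (x - y) - a j) ^ 2 := by
    intro j hj
    refine le_trans ?_ (Finset.single_le_sum (f := fun j => (X j (x - y) - a j) ^ 2)
      (fun j _ => sq_nonneg _) (Finset.mem_univ j))
    show r ^ 2 ≤ (X j (x - y) - a j) ^ 2
    rw [← sq_abs (X j (x - y) - a j)]
    exact pow_le_pow_left₀ hr hj 2
  unfold Ann at hx
  push Not at hx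
  obtain ⟨z, hz, hz2⟩ := hx
  obtain ⟨z', hz', hyz'⟩ := hy
  have hzz : nn (z' - z) ≤ r0 := cell_near h0 (by rw [hz', hz])
  have hyz : nn (y - z) ≤ D + r0 := (nn_tri y z' z).trans (Nat.add_le_add hyz' hzz)
  by_cases hc : lo ≤ (nn (x - z) : ℝ)
  · have hz3 := hz2 hc
    have h1 : nn (x - z) ≤ nn (x - y) + nn (y - z) := nn_tri x y z
    have h2 : (nn (x - z) : ℝ) ≤ nn (x - y) + (D + r0) := by
      have : nn (x - z) ≤ nn (x - y) + (D + r0) := by omega
      exact_mod_cast this
    obtain ⟨j, hj⟩ : ∃ j : Fin d, na ((x - y) j) = nn (x - y) := by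
      have hne : (Finset.univ : Finset (Fin d)).Nonempty := ⟨⟨0, by omega⟩, Finset.mem_univ _⟩
      obtain ⟨j, -, hj⟩ := Finset.exists_mem_eq_sup Finset.univ hne fun i => na ((x - y) i)
      exact ⟨j, hj.symm⟩
    apply key j
    have h3 := X_na j (x - y)
    rw [hj] at h3
    have h4 := abs_sub_abs_le_abs_sub (X j (x - y)) (a j)
    have h5 := ha2 j
    rw [h3] at h4
    linarith
  · push Not at hc
    have h1 : nn (x - y) ≤ nn (x - z) + nn (z - y) := nn_tri x z y
    have h2 : (nn (x - y) : ℝ) < lo + (D + r0) := by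
      have h3 : nn (x - y) ≤ nn (x - z) + (D + r0) := by
        rw [nn_comm z y] at h1
        omega
      have h4 : (nn (x - y) : ℝ) ≤ nn (x - z) + (D + r0) := by exact_mod_cast h3
      linarith
    by_contra hcon
    have h3 : ∀ j, |X j (x - y) - a j| < r := by
      intro j
      by_contra h4
      push Not at h4
      exact hcon (key j h4)
    have h4 : ∀ j, a j ^ 2 < (r + lo + (D + r0)) ^ 2 := by
      intro j
      rw [← sq_abs]
      have h5 := h3 j
      have h6 := X_na j (x - y)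
      have h7 : (na ((x - y) j) : ℝ) ≤ nn (x - y) := by exact_mod_cast na_le_nn (x - y) j
      have h8 := abs_sub_abs_le_abs_sub (a j) (X j (x - y))
      rw [abs_sub_comm] at h8
      have h9 : |a j| < r + lo + (D + r0) := by linarith
      exact pow_lt_pow_left₀ h9 (abs_nonneg _) two_ne_zero
    have h5 : ∑ j, a j ^ 2 < ∑ _j : Fin d, (r + lo + (D + r0)) ^ 2 := by
      refine Finset.sum_lt_sum_of_nonempty ⟨⟨0, by omega⟩, Finset.mem_univ _⟩ fun j _ => h4 j
    rw [Finset.sum_const, Finset.card_univ, Fintype.card_fin, nsmul_eq_mul] at h5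
    linarith

end Pool.Agent.V8H95.EF
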