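import Pool.Agent.V8H95.EF.Nn

/-!
Characters of the torus, Parseval, and the frame of wave packets.
-/

set_option autoImplicit false
set_option linter.unusedSectionVars false

open Complex
open scoped BigOperators ComplexConjugate

namespace Pool.Agent.V8H95.EF

open Pool.Agent.H4R2.AE Pool.Agent.V8H99.AD Pool.Agent.V8H95.MF Pool.Agent.V8H95.BW

variable {d L : ℕ} [NeZero L]

/-- the characters -/
noncomputable def ch (q x : T d L) : ℂ := ZMod.stdAddChar (∑ i, q i * x i)

theorem ch_add (q x y : T d L) : ch q (x + y) = ch q x * ch q y := by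
  unfold ch
  rw [← AddChar.map_add_eq_mul, ← Finset.sum_add_distrib]
  congr 1
  exact Finset.sum_congr rfl fun i _ => by rw [Pi.add_apply, mul_add]

theorem ch_addl (q p x : T d L) : ch (q + p) x = ch q x * ch p x := by
  unfold ch
  rw [← AddChar.map_add_eq_mul, ← Finset.sum_add_distrib]
  congr 1
  exact Finset.sum_congr rfl fun i _ => by rw [Pi.add_apply, add_mul]

theorem ch_zero (q : T d L) : ch q 0 = 1 := by
  unfold ch
  simp

theorem ch_norm (q x : T d L) : ‖ch q x‖ = 1 := by
  unfold ch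
  rw [ZMod.stdAddChar_apply]
  exact Circle.norm_coe _

theorem ch_conj (q x : T d L) : conj (ch q x) * ch q x = 1 := by
  rw [mul_comm, Complex.mul_conj, Complex.normSq_eq_norm_sq, ch_norm]
  simp

theorem ch_sub (q x y : T d L) : ch q (x - y) = ch q x * conj (ch q y) := by
  have h := ch_add q (x - y) y
  rw [sub_add_cancel] at h
  rw [h, mul_assoc, mul_comm (ch q y), ch_conj, mul_one]

theorem ch_single (x : T d L) (i : Fin d) :
    ch (Pi.single i 1 : T d L) x = ZMod.stdAddChar (x i) := by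
  unfold ch
  congr 1
  rw [Finset.sum_eq_single i]
  · rw [Pi.single_eq_same, one_mul]
  · intro j _ hj
    rw [Pi.single_eq_of_ne hj, zero_mul]
  · intro h
    exact absurd (Finset.mem_univ i) h

theorem ch_single' (q : T d L) (i : Fin d) :
    ch q (Pi.single i 1 : T d L) = ZMod.stdAddChar (q i) := by
  rw [← ch_single q i]
  unfold ch
  congr 1
  exact Finset.sum_congr rfl fun j _ => mul_comm _ _

theorem card_T : (Fintype.card (T d L) : ℂ) = (L : ℂ) ^ d := by
  rw [Fintype.card_fun, ZMod.card, Fintype.card_fin]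
  push_cast
  rfl

theorem ch_orth (x : T d L) : ∑ q : T d L, ch q x = if x = 0 then (L : ℂ) ^ d else 0 := by
  split_ifs with h
  · subst h
    simp only [ch_zero]
    rw [Finset.sum_const, Finset.card_univ, nsmul_eq_mul, mul_one, card_T]
  · obtain ⟨i, hi⟩ : ∃ i, x i ≠ 0 := by
      by_contra hc
      push Not at hc
      exact h (funext hc)
    have h1 : ∑ q : T d L, ch q x = ∑ q : T d L, ch (q + Pi.single i 1) x :=
      (Equiv.sum_comp (Equiv.addRight (Pi.single i 1 : T d L)) fun q => ch q x).symm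
    have h2 : ∑ q : T d L, ch (q + Pi.single i 1) x =
        (∑ q : T d L, ch q x) * ZMod.stdAddChar (x i) := by
      rw [Finset.sum_mul]
      refine Finset.sum_congr rfl fun q _ => ?_
      rw [ch_addl, ch_single]
    rw [h2] at h1
    have h3 : (ZMod.stdAddChar (x i) : ℂ) ≠ 1 := by
      intro h4
      apply hi
      apply ZMod.injective_stdAddChar
      rw [h4, AddChar.map_zero_eq_one]
    have h5 : (∑ q : T d L, ch q x) * (1 - ZMod.stdAddChar (x i)) = 0 := by
      rw [mul_sub, mul_one, ← h1, sub_self]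
    rcases mul_eq_zero.1 h5 with h6 | h6
    · exact h6
    · exact absurd (sub_eq_zero.1 h6).symm h3

/-- the Fourier transform -/
noncomputable def ft (f : XT d L) (q : T d L) : ℂ := ∑ x, conj (ch q x) * f x

theorem parseval (f h : XT d L) :
    ∑ q : T d L, conj (ft f q) * ft h q = (L : ℂ) ^ d * inner ℂ f h := by
  have h1 : ∀ q : T d L, conj (ft f q) * ft h q =
      ∑ x, ∑ y, conj (f x) * h y * ch q (x - y) := by
    intro q
    unfold ft
    rw [map_sum, Finset.sum_mul_sum]
    refine Finset.sum_congr rfl fun x _ => Finset.sum_congr rfl fun y _ => ?_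
    rw [ch_sub, map_mul, Complex.conj_conj]
    ring
  simp only [h1]
  rw [Finset.sum_comm]
  have h2 : ∀ x : T d L, ∑ q : T d L, ∑ y, conj (f x) * h y * ch q (x - y) =
      (L : ℂ) ^ d * (conj (f x) * h x) := by
    intro x
    rw [Finset.sum_comm]
    have h3 : ∀ y : T d L, ∑ q : T d L, conj (f x) * h y * ch q (x - y) =
        if y = x then (L : ℂ) ^ d * (conj (f x) * h x) else 0 := by
      intro y
      rw [← Finset.mul_sum, ch_orth]
      by_cases hy : y = x
      · subst hy
        rw [if_pos (sub_self _), if_pos rfl]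
        ring
      · rw [if_neg (sub_ne_zero.2 (Ne.symm hy)), if_neg hy, mul_zero]
    simp only [h3, Finset.sum_ite_eq', Finset.mem_univ, if_true]
  simp only [h2]
  rw [← Finset.mul_sum, inner_eq]

theorem parseval_norm (f : XT d L) : ∑ q : T d L, ‖ft f q‖ ^ 2 = (L : ℝ) ^ d * ‖f‖ ^ 2 := by
  have h := parseval f f
  rw [inner_self_eq_norm_sq_to_K] at h
  have h1 : ∀ q : T d L, conj (ft f q) * ft f q = ((‖ft f q‖ ^ 2 : ℝ) : ℂ) := by
    intro q
    rw [mul_comm, Complex.mul_conj, Complex.normSq_eq_norm_sq]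
  simp only [h1] at h
  have h2 : ((∑ q : T d L, ‖ft f q‖ ^ 2 : ℝ) : ℂ) = (((L : ℝ) ^ d * ‖f‖ ^ 2 : ℝ) : ℂ) := by
    push_cast
    push_cast at h
    exact h
  exact_mod_cast h2

theorem ft_sh (f : XT d L) (i : Fin d) (q : T d L) :
    ft (Sh i f) q = ch q (Pi.single i 1) * ft f q := by
  unfold ft
  have h1 : ∑ x : T d L, conj (ch q x) * (Sh i f) x =
      ∑ x : T d L, (fun y => ch q (Pi.single i 1) * (conj (ch q y) * f y)) (x + Pi.single i 1) := by
    refine Finset.sum_congr rfl fun x _ => ?_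
    show conj (ch q x) * f (x + Pi.single i 1) =
      ch q (Pi.single i 1) * (conj (ch q (x + Pi.single i 1)) * f (x + Pi.single i 1))
    rw [ch_add, map_mul]
    have := ch_conj q (Pi.single i 1 : T d L)
    calc _ = (conj (ch q (Pi.single i 1)) * ch q (Pi.single i 1)) *
          (conj (ch q x) * f (x + Pi.single i 1)) := by rw [this, one_mul]
      _ = _ := by ring
  have h2 := sum_shift i (fun y : T d L => ch q (Pi.single i 1) * (conj (ch q y) * f y))
  rw [Finset.mul_sum]
  exact h1.trans h2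

theorem ft_sub (f h : XT d L) (q : T d L) : ft (f - h) q = ft f q - ft h q := by
  unfold ft
  rw [← Finset.sum_sub_distrib]
  exact Finset.sum_congr rfl fun x _ => by rw [PiLp.sub_apply, mul_sub]

/-- the translated tent -/
noncomputable def tt (M : ℕ) (y x : T d L) : ℝ := tent M (x - y)

/-- the wave packets -/
noncomputable def Ph (M : ℕ) (y q : T d L) : XT d L :=
  WithLp.toLp 2 fun x => ch q x * ((tent M (x - y) : ℝ) : ℂ)

theorem Ph_apply (M : ℕ) (y q x : T d L) : (Ph M y q) x = ch q x * ((tent M (x - y) : ℝ) : ℂ) := rfl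

theorem inner_Ph (M : ℕ) (y q : T d L) (f : XT d L) :
    inner ℂ (Ph M y q) f = ft (Mu (tt M y) f) q := by
  rw [inner_eq]
  unfold ft
  refine Finset.sum_congr rfl fun x _ => ?_
  rw [Ph_apply, Mu_apply, map_mul, Complex.conj_ofReal]
  unfold tt
  ring

theorem tsq_shift (M : ℕ) (x : T d L) : ∑ y : T d L, tent M (x - y) ^ 2 = tsq d L M := by
  unfold tsq
  exact Equiv.sum_comp (Equiv.subLeft x) fun y => tent M y ^ 2

theorem tsq_shift' (M : ℕ) (y : T d L) : ∑ x : T d L, tent M (x - y) ^ 2 = tsq d L M := by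
  unfold tsq
  exact Equiv.sum_comp (Equiv.subRight y) fun y => tent M y ^ 2

/-- the wave packets are a tight frame -/
theorem frame (M : ℕ) (f h : XT d L) :
    ∑ y : T d L, ∑ q : T d L, conj (inner ℂ (Ph M y q) f : ℂ) * inner ℂ (Ph M y q) h =
      (((L : ℝ) ^ d * tsq d L M : ℝ) : ℂ) * inner ℂ f h := by
  simp only [inner_Ph, parseval]
  rw [← Finset.mul_sum]
  have h1 : ∑ y : T d L, (inner ℂ (Mu (tt M y) f) (Mu (tt M y) h) : ℂ) =
      ((tsq d L M : ℝ) : ℂ) * inner ℂ f h := by
    simp only [inner_eq]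
    rw [Finset.sum_comm, Finset.mul_sum]
    refine Finset.sum_congr rfl fun x _ => ?_
    have h2 : ∀ y : T d L, conj ((Mu (tt M y) f) x) * (Mu (tt M y) h) x =
        ((tent M (x - y) ^ 2 : ℝ) : ℂ) * (conj (f x) * h x) := by
      intro y
      rw [Mu_apply, Mu_apply, map_mul, Complex.conj_ofReal]
      unfold tt
      push_cast
      ring
    simp only [h2]
    rw [← Finset.sum_mul, ← Complex.ofReal_sum, tsq_shift]
  rw [h1]
  push_cast
  ring

theorem frame_norm (M : ℕ) (f : XT d L) :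
    ∑ y : T d L, ∑ q : T d L, ‖(inner ℂ (Ph M y q) f : ℂ)‖ ^ 2 =
      ((L : ℝ) ^ d * tsq d L M) * ‖f‖ ^ 2 := by
  have h := frame M f f
  rw [inner_self_eq_norm_sq_to_K] at h
  have h1 : ∀ y q : T d L, conj (inner ℂ (Ph M y q) f : ℂ) * inner ℂ (Ph M y q) f =
      ((‖(inner ℂ (Ph M y q) f : ℂ)‖ ^ 2 : ℝ) : ℂ) := by
    intro y q
    rw [mul_comm, Complex.mul_conj, Complex.normSq_eq_norm_sq]
  simp only [h1] at h
  have h2 : ((∑ y : T d L, ∑ q : T d L, ‖(inner ℂ (Ph M y q) f : ℂ)‖ ^ 2 : ℝ) : ℂ) =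
      ((((L : ℝ) ^ d * tsq d L M) * ‖f‖ ^ 2 : ℝ) : ℂ) := by
    push_cast
    push_cast at h
    exact h
  exact_mod_cast h2

theorem Ph_norm (M : ℕ) (y q : T d L) : ‖Ph M y q‖ ^ 2 = tsq d L M := by
  rw [← mass_sum, ← tsq_shift' M y]
  refine Finset.sum_congr rfl fun x _ => ?_
  rw [Ph_apply, norm_mul, ch_norm, one_mul, Complex.norm_real, Real.norm_eq_abs, sq_abs]

end Pool.Agent.V8H95.EF
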