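import Pool.Agent.V8H95.EF.Key

/-!
The number of eigenfunctions concentrated in a cube.
-/

set_option autoImplicit false
set_option linter.unusedSectionVars false

open Complex
open scoped BigOperators ComplexConjugate

namespace Pool.Agent.V8H95.EF

open Pool.Agent.H4R2.AE Pool.Agent.V8H99.AD Pool.Agent.V8H95.MF Pool.Agent.V8H95.BW

variable {d L : ℕ} [NeZero L] {lam c0 η m : ℝ} {V ψ : T d L → ℝ}

/-- the mass of the packet which is not where it should be -/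
noncomputable def Fm (lam : ℝ) (V : T d L → ℝ) (M : ℕ) (a : Fin d → ℝ) (r t : ℝ) (y q : T d L) : ℝ :=
  ∑ x, if r ^ 2 ≤ ∑ i, (X i (x - y) - a i) ^ 2 then ‖(ev (HC lam V) t (Ph M y q)) x‖ ^ 2 else 0

theorem Fm_nonneg (lam : ℝ) (V : T d L → ℝ) (M : ℕ) (a : Fin d → ℝ) (r t : ℝ) (y q : T d L) :
    0 ≤ Fm lam V M a r t y q :=
  Finset.sum_nonneg fun x _ => by split_ifs <;> positivity

/-- the position at time `t` -/
noncomputable def vq (t : ℝ) (q : T d L) : Fin d → ℝ := fun i => t * (2 * Real.sin (th q i))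

open scoped Classical in
theorem sum_Ys {r0 D : ℕ} (h0 : 1 ≤ r0) (hDr : D ≤ r0) (hd : 1 ≤ d) (lo hi r A t : ℝ)
    (hr : 0 ≤ r) (M : ℕ) (Mv : Finset (T d L))
    (ha1 : ∀ q ∈ Mv, d * (r + lo + (D + r0)) ^ 2 ≤ ∑ i, vq t q i ^ 2)
    (ha2 : ∀ q ∈ Mv, ∀ i, |vq t q i| ≤ A) (hhi : (D + r0) + A + r ≤ hi)
    (b : OrthonormalBasis (T d L) ℂ (XT d L)) (S : Finset (T d L)) (x0 : T d L → T d L) :
    ∑ α ∈ S, Ys M Mv (ev (HC lam V) t) r0 D (cell r0 (x0 α))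
        (Ann r0 lo hi (cell r0 (x0 α))) (b α) ≤
      6 ^ d * ∑ p : T d L × T d L, if p.2 ∈ Mv then Fm lam V M (vq t p.2) r t p.1 p.2 else 0 := by
  set U := ev (HC lam V) t with hU
  set C : Finset (Fin d → ℕ) := Finset.univ.image (cell (d := d) (L := L) r0) with hC
  have h1 : ∀ α ∈ S, Ys M Mv U r0 D (cell r0 (x0 α)) (Ann r0 lo hi (cell r0 (x0 α))) (b α) ≤
      ∑ c ∈ C, Ys M Mv U r0 D c (Ann r0 lo hi c) (b α) := by
    intro α _
    exact Finset.single_le_sum (f := fun c => Ys M Mv U r0 D c (Ann r0 lo hi c) (b α))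
      (fun c _ => Finset.sum_nonneg fun p _ => by split_ifs <;> positivity)
      (Finset.mem_image_of_mem _ (Finset.mem_univ _))
  have h2 : ∀ c : Fin d → ℕ, ∑ α ∈ S, Ys M Mv U r0 D c (Ann r0 lo hi c) (b α) ≤
      ∑ p : T d L × T d L, if p.2 ∈ Mv ∧ Near r0 D c p.1 then
        Fm lam V M (vq t p.2) r t p.1 p.2 else 0 := by
    intro c
    unfold Ys
    rw [Finset.sum_comm]
    refine Finset.sum_le_sum fun p _ => ?_
    by_cases hp : p.2 ∈ Mv ∧ Near r0 D c p.1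
    · simp only [if_pos hp]
      have h3 : ∑ α ∈ S, ‖(inner ℂ (rs (fun x => ¬ Ann r0 lo hi c x) (U (Ph M p.1 p.2))) (b α) : ℂ)‖ ^ 2
          ≤ ‖rs (fun x => ¬ Ann r0 lo hi c x) (U (Ph M p.1 p.2))‖ ^ 2 := by
        rw [← b.sum_sq_norm_inner_left]
        exact Finset.sum_le_sum_of_subset_of_nonneg (Finset.subset_univ S) fun α _ _ => by positivity
      refine h3.trans ?_
      rw [rs_norm]
      unfold Fm
      refine Finset.sum_le_sum fun x _ => ?_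
      by_cases hx : ¬ Ann r0 lo hi c x
      · have h4 := outside h0 lo hi r A hr (vq t p.2) (ha1 p.2 hp.1) (ha2 p.2 hp.1) hd hhi c p.1 x
          hp.2 hx
        rw [if_pos hx, if_pos h4]
      · rw [if_neg hx]
        split_ifs <;> positivity
    · simp only [if_neg hp, Finset.sum_const_zero]
      exact le_rfl
  calc ∑ α ∈ S, Ys M Mv U r0 D (cell r0 (x0 α)) (Ann r0 lo hi (cell r0 (x0 α))) (b α)
      ≤ ∑ α ∈ S, ∑ c ∈ C, Ys M Mv U r0 D c (Ann r0 lo hi c) (b α) :=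
        Finset.sum_le_sum h1
    _ = ∑ c ∈ C, ∑ α ∈ S, Ys M Mv U r0 D c (Ann r0 lo hi c) (b α) := Finset.sum_comm
    _ ≤ ∑ c ∈ C, ∑ p : T d L × T d L, (if p.2 ∈ Mv ∧ Near r0 D c p.1 then
          Fm lam V M (vq t p.2) r t p.1 p.2 else 0) := Finset.sum_le_sum fun c _ => h2 c
    _ = ∑ p : T d L × T d L, ∑ c ∈ C, (if p.2 ∈ Mv ∧ Near r0 D c p.1 then
          Fm lam V M (vq t p.2) r t p.1 p.2 else 0) := Finset.sum_comm
    _ ≤ ∑ p : T d L × T d L, 6 ^ d * (if p.2 ∈ Mv then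
          Fm lam V M (vq t p.2) r t p.1 p.2 else 0) := by
        refine Finset.sum_le_sum fun p _ => ?_
        by_cases hp : p.2 ∈ Mv
        · simp only [hp, true_and, if_true]
          rw [← Finset.sum_filter, Finset.sum_const, nsmul_eq_mul]
          have h5 := overlap (L := L) h0 hDr p.1 C
          have h6 : ((C.filter fun c => Near r0 D c p.1).card : ℝ) ≤ 6 ^ d := by
            exact_mod_cast h5
          exact mul_le_mul_of_nonneg_right h6 (Fm_nonneg _ _ _ _ _ _ _ _)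
        · simp [hp]
    _ = _ := by rw [Finset.mul_sum]

open scoped Classical in
theorem sum_Xs (h : Gd lam c0 η m V ψ) (M : ℕ) (hM1 : 1 ≤ M) (hM : M ≤ L)
    (b : OrthonormalBasis (T d L) ℂ (XT d L)) (E : T d L → ℝ)
    (hb : ∀ α, HC lam V (b α) = ((E α : ℝ) : ℂ) • b α) (κ s1 s2 : ℝ) (hκ : 0 < κ) (hs1 : 0 < s1)
    (hm : 48 * m ≤ κ ^ 2) (hMκ : d * (2 ^ (d + 1) / (M : ℝ)) ^ 2 ≤ κ ^ 2)
    (S : Finset (T d L)) (hS : S ⊆ win E κ) (Mv Sl : Finset (T d L))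
    (hMv : ∀ q, q ∈ Mv ∨ q ∈ Sl ∨ s1 ^ 2 ≤ kq q) :
    ∑ α ∈ S, Xs M Mv (b α) ≤ ZZ d L M * (Sl.card : ℝ) +
      ZZ d L M * ((12 * κ ^ 2 / s1 ^ 2 + 2 * η ^ 2) * (S.card : ℝ)) := by
  have hZ0 : 0 ≤ ZZ d L M := by unfold ZZ tsq; positivity
  set P : Finset (T d L) := Finset.univ.filter fun q => s1 ^ 2 ≤ kq q with hP
  have h1 : ∀ α, Xs M Mv (b α) ≤ ∑ y : T d L, ∑ q ∈ Sl, ‖(inner ℂ (Ph M y q) (b α) : ℂ)‖ ^ 2 +
      ∑ y : T d L, ∑ q ∈ P, ‖(inner ℂ (Ph M y q) (b α) : ℂ)‖ ^ 2 := by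
    intro α
    unfold Xs
    rw [Fintype.sum_prod_type, ← Finset.sum_add_distrib]
    refine Finset.sum_le_sum fun y _ => ?_
    rw [← Finset.sum_filter_add_sum_filter_not Finset.univ (fun q => q ∈ Sl)]
    refine add_le_add ?_ ?_
    · refine (Finset.sum_le_sum_of_subset_of_nonneg (t := Sl) (fun q hq => ?_) ?_).trans
        (Finset.sum_le_sum fun q _ => ?_)
      · rw [Finset.mem_filter] at hq; exact hq.2
      · intro q _ _
        split_ifs <;> positivity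
      · split_ifs
        · positivity
        · exact le_rfl
    · have h2 : ∀ q ∈ Finset.univ.filter (fun q => ¬ q ∈ Sl),
          (if q ∈ Mv then 0 else ‖(inner ℂ (Ph M y q) (b α) : ℂ)‖ ^ 2) ≤
          if q ∈ P then ‖(inner ℂ (Ph M y q) (b α) : ℂ)‖ ^ 2 else 0 := by
        intro q hq
        rw [Finset.mem_filter] at hq
        by_cases h3 : q ∈ Mv
        · rw [if_pos h3]; split_ifs <;> positivity
        · rw [if_neg h3]
          have h4 : q ∈ P := by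
            rw [hP, Finset.mem_filter]
            rcases hMv q with h5 | h5 | h5
            · exact absurd h5 h3
            · exact absurd h5 hq.2
            · exact ⟨Finset.mem_univ _, h5⟩
          rw [if_pos h4]
      refine (Finset.sum_le_sum h2).trans ?_
      rw [← Finset.sum_filter]
      refine Finset.sum_le_sum_of_subset_of_nonneg (fun q hq => ?_) fun _ _ _ => by positivity
      rw [Finset.mem_filter] at hq
      exact hq.2
  have h2 : ∑ α ∈ S, ∑ y : T d L, ∑ q ∈ Sl, ‖(inner ℂ (Ph M y q) (b α) : ℂ)‖ ^ 2 ≤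
      ZZ d L M * (Sl.card : ℝ) := by
    rw [Finset.sum_comm]
    have h3 : ∀ y : T d L, ∑ α ∈ S, ∑ q ∈ Sl, ‖(inner ℂ (Ph M y q) (b α) : ℂ)‖ ^ 2 ≤
        tsq d L M * Sl.card := by
      intro y
      rw [Finset.sum_comm]
      have h4 : ∀ q ∈ Sl, ∑ α ∈ S, ‖(inner ℂ (Ph M y q) (b α) : ℂ)‖ ^ 2 ≤ tsq d L M := by
        intro q _
        rw [← Ph_norm M y q, ← b.sum_sq_norm_inner_left]
        exact Finset.sum_le_sum_of_subset_of_nonneg (Finset.subset_univ S) fun α _ _ => by positivity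
      refine (Finset.sum_le_sum h4).trans (le_of_eq ?_)
      rw [Finset.sum_const, nsmul_eq_mul, mul_comm]
    refine (Finset.sum_le_sum fun y _ => h3 y).trans (le_of_eq ?_)
    rw [Finset.sum_const, Finset.card_univ, nsmul_eq_mul]
    have h5 : (Fintype.card (T d L) : ℝ) = (L : ℝ) ^ d := by
      rw [Fintype.card_fun, ZMod.card, Fintype.card_fin]
      push_cast
      rfl
    rw [h5]
    unfold ZZ
    ring
  have h3 : ∀ α ∈ S, ∑ y : T d L, ∑ q ∈ P, ‖(inner ℂ (Ph M y q) (b α) : ℂ)‖ ^ 2 ≤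
      ZZ d L M * (12 * κ ^ 2 / s1 ^ 2 + 2 * η ^ 2) := by
    intro α hα
    set v := und ψ (b α) with hv
    have hvn : ‖v‖ ≤ 1 := by
      have := und_norm h (b α)
      rwa [b.norm_eq_one] at this
    have hclose : ‖b α - v‖ ^ 2 ≤ η ^ 2 := by
      have h4 := mu_close h v
      rw [hv, mu_und h, ← hv] at h4
      rw [← norm_neg, neg_sub]
      refine pow_le_pow_left₀ (norm_nonneg _) (h4.trans ?_) 2
      have := h.h0
      nlinarith
    have hdir := win_dir h b E hb κ hm α (hS hα)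
    rw [← hv] at hdir
    have hh := high M hM1 hM v s1 hs1 P fun q hq => by
      rw [hP, Finset.mem_filter] at hq; exact hq.2
    have hrest : ∑ y : T d L, ∑ q ∈ P, ‖(inner ℂ (Ph M y q) (b α - v) : ℂ)‖ ^ 2 ≤
        ZZ d L M * η ^ 2 := by
      calc ∑ y : T d L, ∑ q ∈ P, ‖(inner ℂ (Ph M y q) (b α - v) : ℂ)‖ ^ 2
          ≤ ∑ y : T d L, ∑ q : T d L, ‖(inner ℂ (Ph M y q) (b α - v) : ℂ)‖ ^ 2 :=
            Finset.sum_le_sum fun y _ => Finset.sum_le_sum_of_subset_of_nonneg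
              (Finset.subset_univ P) fun _ _ _ => by positivity
        _ = ZZ d L M * ‖b α - v‖ ^ 2 := frame_norm M (b α - v)
        _ ≤ _ := by gcongr
    have hsplit : ∑ y : T d L, ∑ q ∈ P, ‖(inner ℂ (Ph M y q) (b α) : ℂ)‖ ^ 2 ≤
        2 * ∑ y : T d L, ∑ q ∈ P, ‖(inner ℂ (Ph M y q) v : ℂ)‖ ^ 2 +
        2 * ∑ y : T d L, ∑ q ∈ P, ‖(inner ℂ (Ph M y q) (b α - v) : ℂ)‖ ^ 2 := by
      rw [Finset.mul_sum, Finset.mul_sum, ← Finset.sum_add_distrib]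
      refine Finset.sum_le_sum fun y _ => ?_
      rw [Finset.mul_sum, Finset.mul_sum, ← Finset.sum_add_distrib]
      refine Finset.sum_le_sum fun q _ => ?_
      have e : (inner ℂ (Ph M y q) (b α) : ℂ) = inner ℂ (Ph M y q) v +
          inner ℂ (Ph M y q) (b α - v) := by
        rw [← inner_add_right]
        congr 1
        abel
      have h5 : ‖(inner ℂ (Ph M y q) (b α) : ℂ)‖ ≤ ‖(inner ℂ (Ph M y q) v : ℂ)‖ +
          ‖(inner ℂ (Ph M y q) (b α - v) : ℂ)‖ := by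
        rw [e]; exact norm_add_le _ _
      have h6 := pow_le_pow_left₀ (norm_nonneg _) h5 2
      nlinarith [sq_nonneg (‖(inner ℂ (Ph M y q) v : ℂ)‖ -
        ‖(inner ℂ (Ph M y q) (b α - v) : ℂ)‖)]
    have hh2 : ∑ y : T d L, ∑ q ∈ P, ‖(inner ℂ (Ph M y q) v : ℂ)‖ ^ 2 ≤
        ZZ d L M * (6 * κ ^ 2 / s1 ^ 2) := by
      refine hh.trans ?_
      show ZZ d L M * _ ≤ _
      apply mul_le_mul_of_nonneg_left _ hZ0
      apply div_le_div_of_nonneg_right _ (by positivity)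
      have h7 : ‖v‖ ^ 2 ≤ 1 := pow_le_one₀ (norm_nonneg _) hvn
      have h8 : 2 * (d * (2 ^ (d + 1) / (M : ℝ)) ^ 2) * ‖v‖ ^ 2 ≤ 2 * κ ^ 2 * 1 := by gcongr
      linarith
    calc ∑ y : T d L, ∑ q ∈ P, ‖(inner ℂ (Ph M y q) (b α) : ℂ)‖ ^ 2
        ≤ 2 * (ZZ d L M * (6 * κ ^ 2 / s1 ^ 2)) + 2 * (ZZ d L M * η ^ 2) := by linarith
      _ = _ := by ring
  calc ∑ α ∈ S, Xs M Mv (b α)
      ≤ ∑ α ∈ S, (∑ y : T d L, ∑ q ∈ Sl, ‖(inner ℂ (Ph M y q) (b α) : ℂ)‖ ^ 2 +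
        ∑ y : T d L, ∑ q ∈ P, ‖(inner ℂ (Ph M y q) (b α) : ℂ)‖ ^ 2) :=
        Finset.sum_le_sum fun α _ => h1 α
    _ = ∑ α ∈ S, (∑ y : T d L, ∑ q ∈ Sl, ‖(inner ℂ (Ph M y q) (b α) : ℂ)‖ ^ 2) +
        ∑ α ∈ S, ∑ y : T d L, ∑ q ∈ P, ‖(inner ℂ (Ph M y q) (b α) : ℂ)‖ ^ 2 :=
        Finset.sum_add_distrib
    _ ≤ ZZ d L M * (Sl.card : ℝ) +
        ∑ _α ∈ S, ZZ d L M * (12 * κ ^ 2 / s1 ^ 2 + 2 * η ^ 2) :=
        add_le_add h2 (Finset.sum_le_sum h3)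
    _ = _ := by
        rw [Finset.sum_const, nsmul_eq_mul]
        ring

open scoped Classical in
/-- **the counting inequality** -/
theorem count (h : Gd lam c0 η m V ψ) (hd : 1 ≤ d) (M : ℕ) (hM1 : 1 ≤ M) (hM : M ≤ L)
    (b : OrthonormalBasis (T d L) ℂ (XT d L)) (E : T d L → ℝ)
    (hb : ∀ α, HC lam V (b α) = ((E α : ℝ) : ℂ) • b α) (κ s1 s2 : ℝ) (hκ : 0 < κ) (hs1 : 0 < s1)
    (hm : 48 * m ≤ κ ^ 2) (hMκ : d * (2 ^ (d + 1) / (M : ℝ)) ^ 2 ≤ κ ^ 2)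
    (S : Finset (T d L)) (hS : S ⊆ win E κ) (Mv Sl : Finset (T d L))
    (hMv : ∀ q, q ∈ Mv ∨ q ∈ Sl ∨ s1 ^ 2 ≤ kq q)
    (R r0 D : ℕ) (h0 : 1 ≤ r0) (hRD : R + M ≤ D) (hDr : D ≤ r0)
    (J : ℕ) (lo hi r A t : ℕ → ℝ) (hr : ∀ j, 0 ≤ r j)
    (ha1 : ∀ j < J, ∀ q ∈ Mv, d * (r j + lo j + (D + r0)) ^ 2 ≤ ∑ i, vq (t j) q i ^ 2)
    (ha2 : ∀ j < J, ∀ q ∈ Mv, ∀ i, |vq (t j) q i| ≤ A j)
    (hhi : ∀ j < J, (D + r0) + A j + r j ≤ hi j)
    (hdis : ∀ i j, i < j → j < J → hi j < lo i)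
    (ε : ℝ) (hJ : 6 ≤ J * ε) (hε : ∀ α ∈ S, ∃ x0 : T d L,
      ε < ‖rs (fun x => nn (x - x0) ≤ R) (b α)‖ ^ 2) :
    ZZ d L M * (S.card : ℝ) ≤ J * (ZZ d L M * (Sl.card : ℝ) +
      ZZ d L M * ((12 * κ ^ 2 / s1 ^ 2 + 2 * η ^ 2) * (S.card : ℝ))) +
      6 ^ d * ∑ j ∈ Finset.range J, ∑ p : T d L × T d L,
        if p.2 ∈ Mv then Fm lam V M (vq (t j) p.2) (r j) (t j) p.1 p.2 else 0 := by
  have hZ : 0 < ZZ d L M := by
    have := tsq_pos (d := d) (L := L) M hM1 hM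
    have hL := L_pos (L := L)
    unfold ZZ
    positivity
  set Z := ZZ d L M with hZd
  choose! x0 hx0 using hε
  have h1 : ∀ α ∈ S, Z ≤ J * Xs M Mv (b α) + ∑ j ∈ Finset.range J,
      Ys M Mv (ev (HC lam V) (t j)) r0 D (cell r0 (x0 α))
        (Ann r0 (lo j) (hi j) (cell r0 (x0 α))) (b α) := by
    intro α hα
    set w := ‖rs (fun x => nn (x - x0 α) ≤ R) (b α)‖ ^ 2 with hw
    have h2 : ∀ j ∈ Finset.range J, Z * w ≤ 3 * (Z * ‖rs (Ann r0 (lo j) (hi j) (cell r0 (x0 α))) (b α)‖ ^ 2 +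
        Xs M Mv (b α) + Ys M Mv (ev (HC lam V) (t j)) r0 D (cell r0 (x0 α))
        (Ann r0 (lo j) (hi j) (cell r0 (x0 α))) (b α)) := fun j _ =>
      step lam V (b α) (E α) (hb α) (t j) M R r0 D hRD (x0 α) _ Mv
    have h3 := Finset.sum_le_sum h2
    rw [Finset.sum_const, Finset.card_range, nsmul_eq_mul, ← Finset.mul_sum,
      Finset.sum_add_distrib, Finset.sum_add_distrib, Finset.sum_const, Finset.card_range,
      nsmul_eq_mul, ← Finset.mul_sum] at h3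
    have h4 : ∑ j ∈ Finset.range J, ‖rs (Ann r0 (lo j) (hi j) (cell r0 (x0 α))) (b α)‖ ^ 2 ≤ 1 := by
      have h5 : ‖b α‖ ^ 2 = 1 := by rw [b.norm_eq_one]; norm_num
      rw [← h5, ← mass_sum]
      simp only [rs_norm]
      rw [Finset.sum_comm]
      refine Finset.sum_le_sum fun x _ => ?_
      by_cases hex : ∃ j ∈ Finset.range J, Ann r0 (lo j) (hi j) (cell r0 (x0 α)) x
      · obtain ⟨j, hj, hjx⟩ := hex
        rw [Finset.sum_eq_single j]
        · rw [if_pos hjx]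
        · intro i hi' hij
          rw [if_neg]
          intro hix
          have a1 := hjx (x0 α) rfl
          have a2 := hix (x0 α) rfl
          rw [Finset.mem_range] at hj hi'
          rcases lt_or_gt_of_ne hij with hlt | hlt
          · have := hdis i j hlt hj
            linarith [a1.2, a2.1]
          · have := hdis j i hlt hi'
            linarith [a2.2, a1.1]
        · intro hj'
          exact absurd hj hj'
      · push Not at hex
        rw [Finset.sum_eq_zero fun j hj => if_neg (hex j hj)]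
        positivity
    have h5 := hx0 α hα
    have h6 : Z * ∑ j ∈ Finset.range J, ‖rs (Ann r0 (lo j) (hi j) (cell r0 (x0 α))) (b α)‖ ^ 2 ≤
        Z * 1 := by gcongr
    have h7 : Z * 6 ≤ J * (Z * w) := by
      calc Z * 6 ≤ Z * (J * ε) := by gcongr
        _ = J * (Z * ε) := by ring
        _ ≤ J * (Z * w) := by
            have := h5.le
            gcongr
    linarith
  have h2 := Finset.sum_le_sum h1
  rw [Finset.sum_const, nsmul_eq_mul, Finset.sum_add_distrib, ← Finset.mul_sum,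
    Finset.sum_comm] at h2
  have h3 := sum_Xs h M hM1 hM b E hb κ s1 s2 hκ hs1 hm hMκ S hS Mv Sl hMv
  have h4 : ∀ j ∈ Finset.range J, ∑ α ∈ S, Ys M Mv (ev (HC lam V) (t j)) r0 D (cell r0 (x0 α))
        (Ann r0 (lo j) (hi j) (cell r0 (x0 α))) (b α) ≤ 6 ^ d * ∑ p : T d L × T d L,
        if p.2 ∈ Mv then Fm lam V M (vq (t j) p.2) (r j) (t j) p.1 p.2 else 0 := by
    intro j hj
    rw [Finset.mem_range] at hj
    exact sum_Ys h0 hDr hd (lo j) (hi j) (r j) (A j) (t j) (hr j) M Mv (ha1 j hj) (ha2 j hj)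
      (hhi j hj) b S x0
  have h5 := Finset.sum_le_sum h4
  rw [← Finset.mul_sum] at h5
  rw [← hZd] at h3
  have h6 : (J : ℝ) * ∑ α ∈ S, Xs M Mv (b α) ≤ J * (Z * (Sl.card : ℝ) +
      Z * ((12 * κ ^ 2 / s1 ^ 2 + 2 * η ^ 2) * (S.card : ℝ))) := by gcongr
  linarith

end Pool.Agent.V8H95.EF
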