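import Pool.Agent.V8H95.EF.Cnt

/-!
Translation invariance and expectations.
-/

set_option autoImplicit false
set_option linter.unusedSectionVars false

open Complex MeasureTheory
open scoped BigOperators ComplexConjugate

namespace Pool.Agent.V8H95.EF

open Pool.Agent.H4R2.AE Pool.Agent.V8H99.AD Pool.Agent.V8H95.MF Pool.Agent.V8H95.BW

variable {d L : ℕ} [NeZero L]

/-- translation -/
noncomputable def Ts (y : T d L) : XT d L →L[ℂ] XT d L :=
  LinearMap.toContinuousLinearMap
    { toFun := fun f => WithLp.toLp 2 fun x => f (x + y)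
      map_add' := fun f g => by
        ext x
        rfl
      map_smul' := fun a f => by
        ext x
        rfl }

theorem Ts_apply (y : T d L) (f : XT d L) (x : T d L) : (Ts y f) x = f (x + y) := rfl

theorem HC_Ts (lam : ℝ) (V : T d L → ℝ) (y : T d L) (f : XT d L) :
    Ts y (HC lam V f) = HC lam (fun x => V (x + y)) (Ts y f) := by
  ext x
  rw [Ts_apply, HC_apply, HC_apply]
  unfold Bf
  simp only [Ts_apply]
  congr 1
  refine Finset.sum_congr rfl fun j _ => ?_
  have e1 : x + y + Pi.single j 1 = x + Pi.single j 1 + y := by abel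
  have e2 : x + y - Pi.single j 1 = x - Pi.single j 1 + y := by abel
  rw [e1, e2]

theorem Ts_Ph (M : ℕ) (y q : T d L) : Ts y (Ph M y q) = ch q y • Ph M 0 q := by
  ext x
  rw [Ts_apply, PiLp.smul_apply, Ph_apply, Ph_apply, ch_add, add_sub_cancel_right, sub_zero,
    smul_eq_mul]
  ring

theorem Fm_eq (lam : ℝ) (V : T d L → ℝ) (M : ℕ) (a : Fin d → ℝ) (r t : ℝ) (y q : T d L) :
    Fm lam V M a r t y q = farm a r (ev (HC lam fun x => V (x + y)) t (Ph M 0 q)) := by
  have h1 : Ts y (ev (HC lam V) t (Ph M y q)) =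
      ev (HC lam fun x => V (x + y)) t (Ts y (Ph M y q)) :=
    ev_inter (Ts y) (HC lam V) (HC lam fun x => V (x + y)) (HC_Ts lam V y) t (Ph M y q)
  rw [Ts_Ph, map_smul] at h1
  unfold Fm farm
  rw [← Equiv.sum_comp (Equiv.addRight y)]
  refine Finset.sum_congr rfl fun x _ => ?_
  have h2 : ‖(ev (HC lam V) t (Ph M y q)) (x + y)‖ =
      ‖(ev (HC lam fun x => V (x + y)) t (Ph M 0 q)) x‖ := by
    have h3 : (ev (HC lam V) t (Ph M y q)) (x + y) = (Ts y (ev (HC lam V) t (Ph M y q))) x := rfl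
    rw [h3, h1, PiLp.smul_apply, smul_eq_mul, norm_mul, ch_norm, one_mul]
  show (if r ^ 2 ≤ ∑ i, (X i (x + y - y) - a i) ^ 2 then
    ‖(ev (HC lam V) t (Ph M y q)) (x + y)‖ ^ 2 else 0) = _
  rw [add_sub_cancel_right, h2]

section
variable (μ : Measure ℝ) [IsProbabilityMeasure μ]

theorem farm_cont (lam : ℝ) (a : Fin d → ℝ) (r t : ℝ) (u : XT d L) :
    Continuous fun V : T d L → ℝ => farm a r (ev (HC lam V) t u) := by
  unfold farm
  refine continuous_finsetSum _ fun x _ => ?_
  split_ifs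
  · exact ((EuclideanSpace.proj x : XT d L →L[ℂ] ℂ).continuous.comp
      (ev_V_cont lam t u)).norm.pow 2
  · exact continuous_const

theorem shift_cont (y : T d L) : Continuous fun (V : T d L → ℝ) (x : T d L) => V (x + y) :=
  continuous_pi fun x => continuous_apply (x + y)

theorem Fm_cont (lam : ℝ) (M : ℕ) (a : Fin d → ℝ) (r t : ℝ) (y q : T d L) :
    Continuous fun V : T d L → ℝ => Fm lam V M a r t y q := by
  simp only [Fm_eq]
  exact (farm_cont lam a r t (Ph M 0 q)).comp (shift_cont y)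

theorem Fm_le (lam : ℝ) (V : T d L → ℝ) (M : ℕ) (a : Fin d → ℝ) (r t : ℝ) (y q : T d L) :
    Fm lam V M a r t y q ≤ tsq d L M := by
  rw [Fm_eq]
  refine (farm_le_norm _ _ _).trans ?_
  rw [evn, Ph_norm]

theorem Fm_int (lam : ℝ) (M : ℕ) (a : Fin d → ℝ) (r t : ℝ) (y q : T d L) :
    Integrable (fun V : T d L → ℝ => Fm lam V M a r t y q) (Measure.pi fun _ : T d L => μ) := by
  refine Integrable.of_bound (C := tsq d L M) (Fm_cont lam M a r t y q).aestronglyMeasurable
    (Filter.Eventually.of_forall fun V => ?_)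
  rw [Real.norm_eq_abs, abs_of_nonneg (Fm_nonneg _ _ _ _ _ _ _ _)]
  exact Fm_le _ _ _ _ _ _ _ _

theorem Fm_mean (lam : ℝ) (M : ℕ) (a : Fin d → ℝ) (r t : ℝ) (y q : T d L) :
    ∫ V, Fm lam V M a r t y q ∂(Measure.pi fun _ : T d L => μ) =
      ∫ V, farm a r (ev (HC lam V) t (Ph M 0 q)) ∂(Measure.pi fun _ : T d L => μ) := by
  simp only [Fm_eq]
  have h2 := shift_law (d := d) (L := L) μ (Equiv.addRight y)
  have h3 := integral_map (μ := Measure.pi fun _ : T d L => μ) h2.measurable.aemeasurable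
    (f := fun V : T d L → ℝ => farm a r (ev (HC lam V) t (Ph M 0 q)))
    (farm_cont lam a r t (Ph M 0 q)).aestronglyMeasurable
  rw [h2.map_eq] at h3
  exact h3.symm

open scoped Classical in
/-- the total error -/
noncomputable def FF (lam : ℝ) (M J : ℕ) (r t : ℕ → ℝ) (Mv : Finset (T d L)) (V : T d L → ℝ) : ℝ :=
  ∑ j ∈ Finset.range J, ∑ p : T d L × T d L,
    if p.2 ∈ Mv then Fm lam V M (vq (t j) p.2) (r j) (t j) p.1 p.2 else 0

theorem FF_nonneg (lam : ℝ) (M J : ℕ) (r t : ℕ → ℝ) (Mv : Finset (T d L)) (V : T d L → ℝ) :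
    0 ≤ FF lam M J r t Mv V := by
  classical
  refine Finset.sum_nonneg fun j _ => Finset.sum_nonneg fun p _ => ?_
  split_ifs
  · exact Fm_nonneg _ _ _ _ _ _ _ _
  · exact le_rfl

theorem FF_cont (lam : ℝ) (M J : ℕ) (r t : ℕ → ℝ) (Mv : Finset (T d L)) :
    Continuous fun V : T d L → ℝ => FF lam M J r t Mv V := by
  classical
  unfold FF
  refine continuous_finsetSum _ fun j _ => continuous_finsetSum _ fun p _ => ?_
  split_ifs
  · exact Fm_cont _ _ _ _ _ _ _
  · exact continuous_const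

theorem FF_mean (lam : ℝ) (M J : ℕ) (r t : ℕ → ℝ) (Mv : Finset (T d L)) (e : ℝ) (he : 0 ≤ e)
    (h : ∀ j < J, ∀ q ∈ Mv, ∫ V, farm (vq (t j) q) (r j) (ev (HC lam V) (t j) (Ph M 0 q))
      ∂(Measure.pi fun _ : T d L => μ) ≤ e * tsq d L M) :
    Integrable (fun V : T d L → ℝ => FF lam M J r t Mv V) (Measure.pi fun _ : T d L => μ) ∧
    ∫ V, FF lam M J r t Mv V ∂(Measure.pi fun _ : T d L => μ) ≤
      J * (Mv.card : ℝ) * e * ZZ d L M := by
  classical
  set P : Measure (T d L → ℝ) := Measure.pi fun _ : T d L => μ with hP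
  have i1 : ∀ j, ∀ p : T d L × T d L, Integrable (fun V : T d L → ℝ =>
      if p.2 ∈ Mv then Fm lam V M (vq (t j) p.2) (r j) (t j) p.1 p.2 else 0) P := by
    intro j p
    by_cases hp : p.2 ∈ Mv
    · simp only [if_pos hp]
      exact Fm_int μ _ _ _ _ _ _ _
    · simp only [if_neg hp]
      exact integrable_zero _ _ _
  have i2 : ∀ j, Integrable (fun V : T d L → ℝ => ∑ p : T d L × T d L,
      if p.2 ∈ Mv then Fm lam V M (vq (t j) p.2) (r j) (t j) p.1 p.2 else 0) P :=
    fun j => integrable_finsetSum _ fun p _ => i1 j p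
  refine ⟨integrable_finsetSum _ fun j _ => i2 j, ?_⟩
  unfold FF
  rw [integral_finsetSum _ fun j _ => i2 j]
  have h1 : ∀ j ∈ Finset.range J, ∫ V, (∑ p : T d L × T d L,
      if p.2 ∈ Mv then Fm lam V M (vq (t j) p.2) (r j) (t j) p.1 p.2 else 0) ∂P ≤
      (Mv.card : ℝ) * e * ZZ d L M := by
    intro j hj
    rw [Finset.mem_range] at hj
    rw [integral_finsetSum _ fun p _ => i1 j p, Fintype.sum_prod_type]
    have h2 : ∀ y : T d L, ∑ q : T d L, ∫ V, (if q ∈ Mv then
        Fm lam V M (vq (t j) q) (r j) (t j) y q else 0) ∂P ≤ (Mv.card : ℝ) * (e * tsq d L M) := by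
      intro y
      have h3 : ∀ q : T d L, ∫ V, (if q ∈ Mv then
          Fm lam V M (vq (t j) q) (r j) (t j) y q else 0) ∂P ≤ if q ∈ Mv then e * tsq d L M else 0 := by
        intro q
        by_cases hq : q ∈ Mv
        · simp only [if_pos hq]
          rw [hP, Fm_mean]
          exact h j hj q hq
        · simp only [if_neg hq, integral_zero]
          exact le_rfl
      refine (Finset.sum_le_sum fun q _ => h3 q).trans (le_of_eq ?_)
      rw [Finset.sum_ite_mem, Finset.univ_inter, Finset.sum_const, nsmul_eq_mul]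
    refine (Finset.sum_le_sum fun y _ => h2 y).trans (le_of_eq ?_)
    rw [Finset.sum_const, Finset.card_univ, nsmul_eq_mul]
    have h5 : (Fintype.card (T d L) : ℝ) = (L : ℝ) ^ d := by
      rw [Fintype.card_fun, ZMod.card, Fintype.card_fin]
      push_cast
      rfl
    rw [h5]
    unfold ZZ
    ring
  refine (Finset.sum_le_sum h1).trans (le_of_eq ?_)
  rw [Finset.sum_const, Finset.card_range, nsmul_eq_mul]
  ring

/-- Markov's inequality -/
theorem markov {Ω : Type*} [MeasurableSpace Ω] (P : Measure Ω) [IsProbabilityMeasure P]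
    (f : Ω → ℝ) (hf : Measurable f) (h0 : ∀ x, 0 ≤ f x) (hi : Integrable f P) (B ε : ℝ)
    (hε : 0 < ε) (h : ∫ x, f x ∂P ≤ B) :
    MeasurableSet {x | ε * f x ≤ B} ∧ 1 - ε ≤ P.real {x | ε * f x ≤ B} := by
  have hm : MeasurableSet {x | ε * f x ≤ B} :=
    measurableSet_le (hf.const_mul ε) measurable_const
  refine ⟨hm, ?_⟩
  have hB0 : 0 ≤ B := (integral_nonneg h0).trans h
  have hc : P.real {x | ε * f x ≤ B}ᶜ ≤ ε := by
    rcases eq_or_lt_of_le hB0 with hB | hB
    · have h1 : ∫ x, f x ∂P = 0 := le_antisymm (h.trans hB.symm.le) (integral_nonneg h0)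
      have h2 : f =ᵐ[P] 0 := (integral_eq_zero_iff_of_nonneg h0 hi).1 h1
      have h3 : P {x | ε * f x ≤ B}ᶜ = 0 := by
        refine measure_mono_null (fun x hx => ?_) (ae_iff.1 h2)
        intro hx2
        apply hx
        show ε * f x ≤ B
        have : f x = 0 := hx2
        rw [this, mul_zero]
        exact hB0
      rw [measureReal_def, h3]
      simp [hε.le]
    · have h1 := mul_meas_ge_le_integral_of_nonneg (μ := P) (f := f)
        (Filter.Eventually.of_forall h0) hi (B / ε)
      have h2 : P.real {x | ε * f x ≤ B}ᶜ ≤ P.real {x | B / ε ≤ f x} := by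
        refine measureReal_mono (fun x hx => ?_) (measure_ne_top _ _)
        have hx' : ¬ ε * f x ≤ B := hx
        push Not at hx'
        show B / ε ≤ f x
        rw [div_le_iff₀ hε]
        linarith
      have h3 : B / ε * P.real {x | B / ε ≤ f x} ≤ B := h1.trans h
      have h4 : P.real {x | B / ε ≤ f x} ≤ ε := by
        have h5 : 0 < B / ε := by positivity
        rw [← le_div_iff₀' h5] at h3
        refine h3.trans (le_of_eq ?_)
        field_simp
      exact h2.trans h4
  have h5 := probReal_add_probReal_compl (μ := P) hm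
  linarith

end

end Pool.Agent.V8H95.EF
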