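import Pool.Agent.V8H95.EF.Cell

/-!
The main inequality for one eigenfunction and one time.
-/

set_option autoImplicit false
set_option linter.unusedSectionVars false

open Complex
open scoped BigOperators ComplexConjugate

namespace Pool.Agent.V8H95.EF

open Pool.Agent.H4R2.AE Pool.Agent.V8H99.AD Pool.Agent.V8H95.MF Pool.Agent.V8H95.BW

variable {d L : ℕ} [NeZero L]

open scoped Classical in
/-- the indicator of a set -/
noncomputable def ind (p : T d L → Prop) (x : T d L) : ℝ := if p x then 1 else 0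

/-- restriction to a set -/
noncomputable def rs (p : T d L → Prop) : XT d L →L[ℂ] XT d L := Mu (ind p)

open scoped Classical in
theorem rs_apply (p : T d L → Prop) (f : XT d L) (x : T d L) :
    (rs p f) x = if p x then f x else 0 := by
  unfold rs
  rw [Mu_apply]
  unfold ind
  split_ifs <;> simp

open scoped Classical in
theorem rs_norm (p : T d L → Prop) (f : XT d L) :
    ‖rs p f‖ ^ 2 = ∑ x, if p x then ‖f x‖ ^ 2 else 0 := by
  rw [← mass_sum]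
  refine Finset.sum_congr rfl fun x _ => ?_
  rw [rs_apply]
  split_ifs <;> simp

theorem mu_symm (c : T d L → ℝ) (f g : XT d L) : inner ℂ (Mu c f) g = inner ℂ f (Mu c g) := by
  rw [inner_eq, inner_eq]
  refine Finset.sum_congr rfl fun x _ => ?_
  rw [Mu_apply, Mu_apply, map_mul, Complex.conj_ofReal]
  ring

theorem rs_symm (p : T d L → Prop) (f g : XT d L) : inner ℂ (rs p f) g = inner ℂ f (rs p g) :=
  mu_symm _ f g

theorem rs_split (p : T d L → Prop) (f : XT d L) : rs p f + rs (fun x => ¬ p x) f = f := by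
  ext x
  rw [PiLp.add_apply, rs_apply, rs_apply]
  by_cases h : p x
  · simp [h]
  · simp [h]

theorem rs_self (p : T d L → Prop) (f : XT d L) : inner ℂ (rs p f) f = ((‖rs p f‖ ^ 2 : ℝ) : ℂ) := by
  have h : rs p (rs p f) = rs p f := by
    ext x
    rw [rs_apply, rs_apply]
    split_ifs <;> rfl
  rw [rs_symm]
  have h2 : inner ℂ (rs p f) (rs p f) = inner ℂ f (rs p f) := by
    rw [rs_symm, h]
  rw [← h2, inner_self_eq_norm_sq_to_K]
  push_cast
  rfl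

/-- the evolution of an eigenvector -/
theorem ev_eig {X : Type*} [NormedAddCommGroup X] [InnerProductSpace ℂ X] [CompleteSpace X]
    (A : X →L[ℂ] X) (f : X) (E : ℝ) (h : A f = ((E : ℝ) : ℂ) • f) (t : ℝ) :
    ev A t f = Complex.exp ((-(t : ℂ) * Complex.I) * (E : ℂ)) • f := by
  have hp : ∀ (c : ℂ) (n : ℕ), ((c • A) ^ n) f = (c * (E : ℂ)) ^ n • f := by
    intro c n
    induction n with
    | zero => simp
    | succ n ih =>
      have e1 : ((c • A) ^ (n + 1)) f = ((c • A) ^ n) (c • A f) := by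
        rw [pow_succ]; rfl
      rw [e1, h, map_smul, map_smul, ih, smul_smul, smul_smul]
      congr 1
      ring
  have h1 : HasSum (fun n : ℕ => ((n.factorial : ℂ)⁻¹) • ((-(t : ℂ) * Complex.I) • A) ^ n)
      (ev A t) := NormedSpace.exp_series_hasSum_exp' (𝕂 := ℂ) ((-(t : ℂ) * Complex.I) • A)
  have h2 : HasSum (fun n : ℕ => (((n.factorial : ℂ)⁻¹) • ((-(t : ℂ) * Complex.I) • A) ^ n) f)
      (ev A t f) := h1.mapL (ContinuousLinearMap.apply ℂ X f)
  have h3 : HasSum (fun n : ℕ => ((n.factorial : ℂ)⁻¹) • ((-(t : ℂ) * Complex.I) * (E : ℂ)) ^ n)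
      (NormedSpace.exp ((-(t : ℂ) * Complex.I) * (E : ℂ))) :=
    NormedSpace.exp_series_hasSum_exp' (𝕂 := ℂ) ((-(t : ℂ) * Complex.I) * (E : ℂ))
  rw [← Complex.exp_eq_exp_ℂ] at h3
  have h4 := h3.smul_const f
  refine h2.unique ?_
  convert h4 using 1
  funext n
  rw [smul_apply, hp, smul_smul, smul_eq_mul]

/-- the squared norm of the frame -/
noncomputable def ZZ (d L : ℕ) [NeZero L] (M : ℕ) : ℝ := (L : ℝ) ^ d * tsq d L M

theorem frameP (M : ℕ) (f h : XT d L) :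
    ∑ p : T d L × T d L, conj (inner ℂ (Ph M p.1 p.2) f : ℂ) * inner ℂ (Ph M p.1 p.2) h =
      ((ZZ d L M : ℝ) : ℂ) * inner ℂ f h := by
  rw [Fintype.sum_prod_type]
  exact frame M f h

theorem frameP_norm (M : ℕ) (f : XT d L) :
    ∑ p : T d L × T d L, ‖(inner ℂ (Ph M p.1 p.2) f : ℂ)‖ ^ 2 = ZZ d L M * ‖f‖ ^ 2 := by
  rw [Fintype.sum_prod_type]
  exact frame_norm M f

theorem cs_P {ι : Type*} (s : Finset ι) (f g : ι → ℝ) :
    ∑ i ∈ s, f i * g i ≤ √(∑ i ∈ s, f i ^ 2) * √(∑ i ∈ s, g i ^ 2) :=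
  Real.sum_mul_le_sqrt_mul_sqrt s f g

theorem near_of (M R r0 D : ℕ) (hD : R + M ≤ D) (x0 y q : T d L) (f : XT d L)
    (h : (inner ℂ (Ph M y q) (rs (fun x => nn (x - x0) ≤ R) f) : ℂ) ≠ 0) :
    Near r0 D (cell r0 x0) y := by
  classical
  refine ⟨x0, rfl, ?_⟩
  rw [inner_eq] at h
  obtain ⟨x, -, hx⟩ := Finset.exists_ne_zero_of_sum_ne_zero h
  rw [rs_apply] at hx
  have h1 : nn (x - x0) ≤ R := by
    by_contra hc
    rw [if_neg hc, mul_zero] at hx
    exact hx rfl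
  have h2 : nn (x - y) < M := by
    apply tent_supp
    intro h3
    apply hx
    rw [Ph_apply, h3]
    simp
  have h3 := nn_tri y x x0
  rw [nn_comm y x] at h3
  omega

open scoped Classical in
/-- the packets which do not move in the right way -/
noncomputable def Xs (M : ℕ) (Mv : Finset (T d L)) (f : XT d L) : ℝ :=
  ∑ p : T d L × T d L, if p.2 ∈ Mv then 0 else ‖(inner ℂ (Ph M p.1 p.2) f : ℂ)‖ ^ 2

open scoped Classical in
/-- the packets which do not arrive -/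
noncomputable def Ys (M : ℕ) (Mv : Finset (T d L)) (U : XT d L →L[ℂ] XT d L) (r0 D : ℕ)
    (c : Fin d → ℕ) (A : T d L → Prop) (f : XT d L) : ℝ :=
  ∑ p : T d L × T d L, if p.2 ∈ Mv ∧ Near r0 D c p.1 then
    ‖(inner ℂ (rs (fun x => ¬ A x) (U (Ph M p.1 p.2))) f : ℂ)‖ ^ 2 else 0

theorem step (lam : ℝ) (V : T d L → ℝ) (f : XT d L) (E : ℝ)
    (hf : HC lam V f = ((E : ℝ) : ℂ) • f) (t : ℝ) (M R r0 D : ℕ) (hD : R + M ≤ D) (x0 : T d L)
    (A : T d L → Prop) (Mv : Finset (T d L)) :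
    ZZ d L M * ‖rs (fun x => nn (x - x0) ≤ R) f‖ ^ 2 ≤
      3 * (ZZ d L M * ‖rs A f‖ ^ 2 + Xs M Mv f +
        Ys M Mv (ev (HC lam V) t) r0 D (cell r0 x0) A f) := by
  classical
  set U := ev (HC lam V) t with hU
  set Z := ZZ d L M with hZ
  have hZ0 : 0 ≤ Z := by
    rw [hZ]; unfold ZZ tsq
    positivity
  set w := rs (fun x => nn (x - x0) ≤ R) f with hw
  set h := ContinuousLinearMap.adjoint U (rs A f) with hh
  set z : ℂ := Complex.exp ((-(t : ℂ) * Complex.I) * (E : ℂ)) with hz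
  have hz1 : ‖z‖ = 1 := by
    rw [hz, show (-(t : ℂ) * Complex.I) * (E : ℂ) = ((-(t * E) : ℝ) : ℂ) * Complex.I by
      push_cast; ring]
    exact Complex.norm_exp_ofReal_mul_I _
  have hhn : ‖h‖ ≤ ‖rs A f‖ := by
    have h1 : ‖h‖ ^ 2 = ‖(inner ℂ h h : ℂ)‖ := by
      rw [inner_self_eq_norm_sq_to_K]
      simp
    have h2 : (inner ℂ h h : ℂ) = inner ℂ (U h) (rs A f) := by
      conv_lhs => rw [hh]
      rw [← hh, ContinuousLinearMap.adjoint_inner_right]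
    have h3 : ‖(inner ℂ (U h) (rs A f) : ℂ)‖ ≤ ‖h‖ * ‖rs A f‖ := by
      refine (norm_inner_le_norm _ _).trans ?_
      rw [hU, evn]
    rcases eq_or_lt_of_le (norm_nonneg h) with h4 | h4
    · rw [← h4]; exact norm_nonneg _
    · have : ‖h‖ * ‖h‖ ≤ ‖h‖ * ‖rs A f‖ := by
        rw [← pow_two, h1, h2]; exact h3
      exact le_of_mul_le_mul_left this h4
  -- the coefficients
  have hb : ∀ p : T d L × T d L, (inner ℂ (Ph M p.1 p.2) f : ℂ) =
      z * (inner ℂ (Ph M p.1 p.2) h + inner ℂ (rs (fun x => ¬ A x) (U (Ph M p.1 p.2))) f) := by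
    intro p
    have h1 : (inner ℂ (Ph M p.1 p.2) f : ℂ) = inner ℂ (U (Ph M p.1 p.2)) (U f) := by
      rw [hU, ev_inner (HC_sa lam V)]
    have h2 : U f = z • f := ev_eig (HC lam V) f E hf t
    have h3 : (inner ℂ (Ph M p.1 p.2) h : ℂ) = inner ℂ (U (Ph M p.1 p.2)) (rs A f) := by
      rw [hh, ContinuousLinearMap.adjoint_inner_right]
    rw [h1, h2, inner_smul_right, h3, rs_symm, ← inner_add_right, rs_split]
  set a : T d L × T d L → ℂ := fun p => inner ℂ (Ph M p.1 p.2) w with ha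
  have hsum : ∑ p, ‖a p‖ ^ 2 = Z * ‖w‖ ^ 2 := frameP_norm M w
  have hmain : Z * ‖w‖ ^ 2 ≤ ∑ p : T d L × T d L,
      ‖a p‖ * ‖(inner ℂ (Ph M p.1 p.2) f : ℂ)‖ := by
    have h1 := frameP M w f
    rw [hw, rs_self, ← hw] at h1
    have h2 : ‖((Z : ℝ) : ℂ) * ((‖w‖ ^ 2 : ℝ) : ℂ)‖ = Z * ‖w‖ ^ 2 := by
      rw [← Complex.ofReal_mul, Complex.norm_real, Real.norm_eq_abs, abs_of_nonneg (by positivity)]
    rw [← h2, ← h1]
    refine (norm_sum_le _ _).trans (Finset.sum_le_sum fun p _ => ?_)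
    rw [norm_mul, Complex.norm_conj]
  have hpt : ∀ p : T d L × T d L, ‖a p‖ * ‖(inner ℂ (Ph M p.1 p.2) f : ℂ)‖ ≤
      ‖a p‖ * (if p.2 ∈ Mv then 0 else ‖(inner ℂ (Ph M p.1 p.2) f : ℂ)‖) +
      ‖a p‖ * ‖(inner ℂ (Ph M p.1 p.2) h : ℂ)‖ +
      ‖a p‖ * (if p.2 ∈ Mv ∧ Near r0 D (cell r0 x0) p.1 then
        ‖(inner ℂ (rs (fun x => ¬ A x) (U (Ph M p.1 p.2))) f : ℂ)‖ else 0) := by
    intro p
    by_cases hp : p.2 ∈ Mv
    · by_cases hn : Near r0 D (cell r0 x0) p.1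
      · rw [if_pos hp, if_pos ⟨hp, hn⟩, mul_zero, zero_add, ← mul_add]
        apply mul_le_mul_of_nonneg_left _ (norm_nonneg _)
        conv_lhs => rw [hb p]
        rw [norm_mul, hz1, one_mul]
        exact norm_add_le _ _
      · have h0 : a p = 0 := by
          by_contra hc
          exact hn (near_of M R r0 D hD x0 p.1 p.2 f hc)
        rw [h0]
        simp
    · rw [if_neg hp]
      have h1 : 0 ≤ ‖a p‖ * ‖(inner ℂ (Ph M p.1 p.2) h : ℂ)‖ := by positivity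
      have h2 : 0 ≤ ‖a p‖ * (if p.2 ∈ Mv ∧ Near r0 D (cell r0 x0) p.1 then
        ‖(inner ℂ (rs (fun x => ¬ A x) (U (Ph M p.1 p.2))) f : ℂ)‖ else 0) := by
        split_ifs <;> positivity
      linarith
  have hS := hmain.trans (Finset.sum_le_sum fun p _ => hpt p)
  rw [Finset.sum_add_distrib, Finset.sum_add_distrib] at hS
  have c1 := cs_P Finset.univ (fun p => ‖a p‖)
    (fun p : T d L × T d L => if p.2 ∈ Mv then 0 else ‖(inner ℂ (Ph M p.1 p.2) f : ℂ)‖)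
  have c2 := cs_P Finset.univ (fun p => ‖a p‖)
    (fun p : T d L × T d L => ‖(inner ℂ (Ph M p.1 p.2) h : ℂ)‖)
  have c3 := cs_P Finset.univ (fun p => ‖a p‖)
    (fun p : T d L × T d L => if p.2 ∈ Mv ∧ Near r0 D (cell r0 x0) p.1 then
        ‖(inner ℂ (rs (fun x => ¬ A x) (U (Ph M p.1 p.2))) f : ℂ)‖ else 0)
  rw [hsum] at c1 c2 c3
  have e1 : ∑ p : T d L × T d L, (if p.2 ∈ Mv then 0 else
      ‖(inner ℂ (Ph M p.1 p.2) f : ℂ)‖) ^ 2 = Xs M Mv f := by
    unfold Xs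
    refine Finset.sum_congr rfl fun p _ => ?_
    split_ifs <;> simp
  have e2 : ∑ p : T d L × T d L, ‖(inner ℂ (Ph M p.1 p.2) h : ℂ)‖ ^ 2 = Z * ‖h‖ ^ 2 :=
    frameP_norm M h
  have e3 : ∑ p : T d L × T d L, (if p.2 ∈ Mv ∧ Near r0 D (cell r0 x0) p.1 then
        ‖(inner ℂ (rs (fun x => ¬ A x) (U (Ph M p.1 p.2))) f : ℂ)‖ else 0) ^ 2 =
      Ys M Mv U r0 D (cell r0 x0) A f := by
    unfold Ys
    refine Finset.sum_congr rfl fun p _ => ?_
    split_ifs <;> simp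
  rw [e1] at c1
  rw [e2] at c2
  rw [e3] at c3
  set X1 := Xs M Mv f
  set Y1 := Ys M Mv U r0 D (cell r0 x0) A f
  have hX : 0 ≤ X1 := by
    rw [← e1]; exact Finset.sum_nonneg fun p _ => sq_nonneg _
  have hY : 0 ≤ Y1 := by
    rw [← e3]; exact Finset.sum_nonneg fun p _ => sq_nonneg _
  set u := √(Z * ‖w‖ ^ 2) with hu
  have hu2 : u ^ 2 = Z * ‖w‖ ^ 2 := Real.sq_sqrt (by positivity)
  have hu0 : 0 ≤ u := Real.sqrt_nonneg _
  have s1 : √X1 ^ 2 = X1 := Real.sq_sqrt hX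
  have s2 : √(Z * ‖h‖ ^ 2) ^ 2 = Z * ‖h‖ ^ 2 := Real.sq_sqrt (by positivity)
  have s3 : √Y1 ^ 2 = Y1 := Real.sq_sqrt hY
  have hle : u ≤ √X1 + √(Z * ‖h‖ ^ 2) + √Y1 := by
    rcases eq_or_lt_of_le hu0 with h4 | h4
    · rw [← h4]; positivity
    · have h5 : u * u ≤ u * (√X1 + √(Z * ‖h‖ ^ 2) + √Y1) := by
        rw [← pow_two, hu2]
        calc Z * ‖w‖ ^ 2 ≤ _ := hS
          _ ≤ u * √X1 + u * √(Z * ‖h‖ ^ 2) + u * √Y1 := by linarith
          _ = _ := by ring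
      exact le_of_mul_le_mul_left h5 h4
  have h6 := pow_le_pow_left₀ hu0 hle 2
  have h7 : Z * ‖h‖ ^ 2 ≤ Z * ‖rs A f‖ ^ 2 := by gcongr
  nlinarith [sq_nonneg (√X1 - √(Z * ‖h‖ ^ 2)), sq_nonneg (√X1 - √Y1),
    sq_nonneg (√(Z * ‖h‖ ^ 2) - √Y1)]

end Pool.Agent.V8H95.EF
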