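import Pool.Agent.V8H95.BW.Far

/-!
The sup norm on the torus, counting, and the tent function.
-/

set_option autoImplicit false
set_option linter.unusedSectionVars false

open scoped BigOperators

namespace Pool.Agent.V8H95.EF

open Pool.Agent.H4R2.AE Pool.Agent.V8H99.AD Pool.Agent.V8H95.MF Pool.Agent.V8H95.BW

variable {d L : ℕ} [NeZero L]

/-- the absolute value on the circle -/
def na (a : ZMod L) : ℕ := a.valMinAbs.natAbs

theorem na_add (a b : ZMod L) : na (a + b) ≤ na a + na b :=
  (ZMod.natAbs_valMinAbs_add_le a b).trans (Int.natAbs_add_le _ _)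

theorem na_neg (a : ZMod L) : na (-a) = na a := ZMod.natAbs_valMinAbs_neg a

theorem na_zero : na (0 : ZMod L) = 0 := by
  unfold na
  rw [ZMod.valMinAbs_zero]
  rfl

theorem na_le_cast (a : ZMod L) (k : ℤ) (h : (k : ZMod L) = a) : na a ≤ k.natAbs :=
  ZMod.natAbs_min_of_le_div_two L a.valMinAbs k (by rw [ZMod.coe_valMinAbs, h])
    (ZMod.natAbs_valMinAbs_le a)

/-- the sup norm on the torus -/
def nn (x : T d L) : ℕ := Finset.univ.sup fun i => na (x i)

theorem na_le_nn (x : T d L) (i : Fin d) : na (x i) ≤ nn x :=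
  Finset.le_sup (f := fun i => na (x i)) (Finset.mem_univ i)

theorem nn_le {x : T d L} {r : ℕ} (h : ∀ i, na (x i) ≤ r) : nn x ≤ r :=
  Finset.sup_le fun i _ => h i

theorem nn_add (x y : T d L) : nn (x + y) ≤ nn x + nn y :=
  nn_le fun i => (na_add (x i) (y i)).trans (Nat.add_le_add (na_le_nn x i) (na_le_nn y i))

theorem nn_neg (x : T d L) : nn (-x) = nn x := by
  unfold nn
  congr 1
  funext i
  exact na_neg (x i)

theorem nn_comm (x y : T d L) : nn (x - y) = nn (y - x) := by
  rw [← nn_neg, neg_sub]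

theorem nn_tri (x y z : T d L) : nn (x - z) ≤ nn (x - y) + nn (y - z) := by
  have h := nn_add (x - y) (y - z)
  rwa [sub_add_sub_cancel] at h

theorem nn_single (i : Fin d) : nn (Pi.single i 1 : T d L) ≤ 1 := by
  refine nn_le fun j => ?_
  by_cases h : j = i
  · subst h
    rw [Pi.single_eq_same]
    exact na_le_cast 1 1 (by simp)
  · rw [Pi.single_eq_of_ne h, na_zero]
    exact Nat.zero_le _

theorem nn_step (x : T d L) (i : Fin d) : nn (x + Pi.single i 1) ≤ nn x + 1 :=
  (nn_add _ _).trans (Nat.add_le_add_left (nn_single i) _)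

theorem nn_step' (x : T d L) (i : Fin d) : nn x ≤ nn (x + Pi.single i 1) + 1 := by
  have h := nn_tri x (x + Pi.single i 1) 0
  rw [sub_zero, sub_zero, sub_add_cancel_left, nn_neg] at h
  have := nn_single (L := L) i
  omega

theorem cnt1_le (r : ℕ) :
    ((Finset.univ : Finset (ZMod L)).filter fun a => na a ≤ r).card ≤ 2 * r + 1 := by
  have h : ((Finset.univ : Finset (ZMod L)).filter fun a => na a ≤ r).card ≤
      (Finset.Icc (-(r : ℤ)) r).card := by
    refine Finset.card_le_card_of_injOn (fun a => a.valMinAbs) (fun a ha => ?_) ?_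
    · have h1 : na a ≤ r := by simpa using ha
      unfold na at h1
      simp only [Finset.coe_Icc, Set.mem_Icc]
      omega
    · intro a _ b _ hab
      exact ZMod.valMinAbs_inj.1 hab
  refine h.trans (le_of_eq ?_)
  rw [Int.card_Icc]
  omega

theorem cnt1_ge (r : ℕ) (hr : r ≤ L / 2) :
    r + 1 ≤ ((Finset.univ : Finset (ZMod L)).filter fun a => na a ≤ r).card := by
  have h : (Finset.range (r + 1)).card ≤
      ((Finset.univ : Finset (ZMod L)).filter fun a => na a ≤ r).card := by
    refine Finset.card_le_card_of_injOn (fun n => (n : ZMod L)) (fun n hn => ?_) ?_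
    · have hn' : n < r + 1 := by simpa using hn
      have h1 : na (n : ZMod L) ≤ r := by
        have := na_le_cast (n : ZMod L) (n : ℤ) (by simp)
        rw [Int.natAbs_natCast] at this
        omega
      simpa using h1
    · intro a ha b hb hab
      have ha' : a < r + 1 := by simpa using ha
      have hb' : b < r + 1 := by simpa using hb
      have h1 := ZMod.valMinAbs_natCast_of_le_half (n := L) (a := a) (by omega)
      have h2 := ZMod.valMinAbs_natCast_of_le_half (n := L) (a := b) (by omega)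
      have h3 : (a : ZMod L) = (b : ZMod L) := hab
      rw [h3, h2] at h1
      exact_mod_cast h1.symm
  rwa [Finset.card_range] at h

theorem cube_eq (r : ℕ) : ((Finset.univ : Finset (T d L)).filter fun x => nn x ≤ r) =
    Fintype.piFinset fun _ : Fin d => (Finset.univ : Finset (ZMod L)).filter fun a => na a ≤ r := by
  ext x
  simp only [Finset.mem_filter, Finset.mem_univ, true_and, Fintype.mem_piFinset]
  exact ⟨fun h i => (na_le_nn x i).trans h, fun h => nn_le h⟩

theorem cnt_le (r : ℕ) :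
    ((Finset.univ : Finset (T d L)).filter fun x => nn x ≤ r).card ≤ (2 * r + 1) ^ d := by
  rw [cube_eq, Fintype.card_piFinset]
  simp only [Finset.prod_const, Finset.card_univ, Fintype.card_fin]
  exact Nat.pow_le_pow_left (cnt1_le r) d

theorem cnt_ge (r : ℕ) (hr : r ≤ L / 2) :
    (r + 1) ^ d ≤ ((Finset.univ : Finset (T d L)).filter fun x => nn x ≤ r).card := by
  rw [cube_eq, Fintype.card_piFinset]
  simp only [Finset.prod_const, Finset.card_univ, Fintype.card_fin]
  exact Nat.pow_le_pow_left (cnt1_ge r hr) d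

/-- the tent function -/
noncomputable def tent (M : ℕ) (x : T d L) : ℝ := ((M - nn x : ℕ) : ℝ)

theorem tent_nonneg (M : ℕ) (x : T d L) : 0 ≤ tent M x := Nat.cast_nonneg _

theorem tent_supp (M : ℕ) (x : T d L) (h : tent M x ≠ 0) : nn x < M := by
  by_contra h1
  apply h
  unfold tent
  rw [Nat.sub_eq_zero_of_le (by omega), Nat.cast_zero]

theorem tent_step (M : ℕ) (x : T d L) (i : Fin d) :
    |tent M (x + Pi.single i 1) - tent M x| ≤ 1 := by
  have h1 := nn_step x i
  have h2 := nn_step' x i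
  unfold tent
  rw [abs_le]
  constructor
  · have : (M - nn x : ℕ) ≤ (M - nn (x + Pi.single i 1) : ℕ) + 1 := by omega
    have h3 : ((M - nn x : ℕ) : ℝ) ≤ ((M - nn (x + Pi.single i 1) : ℕ) : ℝ) + 1 := by
      exact_mod_cast this
    linarith
  · have : (M - nn (x + Pi.single i 1) : ℕ) ≤ (M - nn x : ℕ) + 1 := by omega
    have h3 : ((M - nn (x + Pi.single i 1) : ℕ) : ℝ) ≤ ((M - nn x : ℕ) : ℝ) + 1 := by
      exact_mod_cast this
    linarith

/-- the squared norm of the tent -/
noncomputable def tsq (d L : ℕ) [NeZero L] (M : ℕ) : ℝ := ∑ x : T d L, tent M x ^ 2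

/-- the squared norm of the differences of the tent -/
theorem tent_grad (M : ℕ) (i : Fin d) :
    ∑ x : T d L, (tent M (x + Pi.single i 1) - tent M x) ^ 2 ≤ (2 * M + 1) ^ d := by
  have h1 : ∀ x : T d L, (tent M (x + Pi.single i 1) - tent M x) ^ 2 ≤
      if nn x ≤ M then 1 else 0 := by
    intro x
    split_ifs with h
    · have := tent_step M x i
      rw [← sq_abs]
      exact pow_le_one₀ (abs_nonneg _) this
    · have h2 := nn_step' x i
      have e1 : tent M (x + Pi.single i 1) = 0 := by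
        unfold tent
        rw [Nat.sub_eq_zero_of_le (by omega), Nat.cast_zero]
      have e2 : tent M x = 0 := by
        unfold tent
        rw [Nat.sub_eq_zero_of_le (by omega), Nat.cast_zero]
      rw [e1, e2]
      simp
  refine (Finset.sum_le_sum fun x _ => h1 x).trans ?_
  rw [Finset.sum_ite, Finset.sum_const_zero, add_zero, Finset.sum_const, nsmul_eq_mul, mul_one]
  have := cnt_le (d := d) (L := L) M
  exact_mod_cast this

theorem tsq_ge (M : ℕ) (hM : M ≤ L) :
    ((M : ℝ) / 2) ^ 2 * ((M / 2 + 1 : ℕ) : ℝ) ^ d ≤ tsq d L M := by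
  have h0 : M / 2 ≤ L / 2 := Nat.div_le_div_right hM
  have h1 := cnt_ge (d := d) (L := L) (M / 2) h0
  have h2 : ∀ x : T d L, (if nn x ≤ M / 2 then ((M : ℝ) / 2) ^ 2 else 0) ≤ tent M x ^ 2 := by
    intro x
    split_ifs with h
    · refine pow_le_pow_left₀ (by positivity) ?_ 2
      unfold tent
      have h3 : M ≤ 2 * (M - nn x) := by omega
      have h4 : (M : ℝ) ≤ 2 * ((M - nn x : ℕ) : ℝ) := by exact_mod_cast h3
      linarith
    · positivity
  have h3 : ∑ x : T d L, (if nn x ≤ M / 2 then ((M : ℝ) / 2) ^ 2 else 0) ≤ tsq d L M :=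
    Finset.sum_le_sum fun x _ => h2 x
  refine le_trans ?_ h3
  rw [Finset.sum_ite, Finset.sum_const_zero, add_zero, Finset.sum_const, nsmul_eq_mul, mul_comm]
  have h4 : (((M / 2 + 1 : ℕ) : ℝ)) ^ d ≤
      (((Finset.univ : Finset (T d L)).filter fun x => nn x ≤ M / 2).card : ℝ) := by
    exact_mod_cast h1
  gcongr

/-- the tent is flat -/
theorem tent_flat (M : ℕ) (hM1 : 1 ≤ M) (hM : M ≤ L) (i : Fin d) :
    ∑ x : T d L, (tent M (x + Pi.single i 1) - tent M x) ^ 2 ≤
      (2 ^ (d + 1) / (M : ℝ)) ^ 2 * tsq d L M := by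
  have h1 := tent_grad (L := L) M i
  have h2 := tsq_ge (d := d) (L := L) M hM
  have hM0 : (0 : ℝ) < M := by exact_mod_cast hM1
  have h3 : (2 * (M : ℝ) + 1) ^ d ≤ 4 ^ d * ((M / 2 + 1 : ℕ) : ℝ) ^ d := by
    rw [← mul_pow]
    refine pow_le_pow_left₀ (by positivity) ?_ d
    have : 2 * M + 1 ≤ 4 * (M / 2 + 1) := by omega
    exact_mod_cast this
  calc ∑ x : T d L, (tent M (x + Pi.single i 1) - tent M x) ^ 2 ≤ (2 * (M : ℝ) + 1) ^ d := h1
    _ ≤ 4 ^ d * ((M / 2 + 1 : ℕ) : ℝ) ^ d := h3
    _ = (2 ^ (d + 1) / (M : ℝ)) ^ 2 * (((M : ℝ) / 2) ^ 2 * ((M / 2 + 1 : ℕ) : ℝ) ^ d) := by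
        have e4 : (4 : ℝ) ^ d = (2 ^ d) ^ 2 := by
          rw [← pow_mul, mul_comm, pow_mul]; norm_num
        rw [e4, pow_succ]
        field_simp
        ring
    _ ≤ _ := by gcongr

theorem tsq_pos (M : ℕ) (hM1 : 1 ≤ M) (hM : M ≤ L) : 0 < tsq d L M := by
  have hM0 : (0 : ℝ) < M := by exact_mod_cast hM1
  refine lt_of_lt_of_le ?_ (tsq_ge (d := d) (L := L) M hM)
  positivity

end Pool.Agent.V8H95.EF
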