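import Pool.Agent.V8H95.MF.Par

/-!
Choice of the constants.
-/

set_option autoImplicit false

namespace Pool.Agent.V8H95.EF

open Pool.Agent.V8H99.AD (scl scl_ge)

theorem scl_rel (d : ℕ) (hd : 3 ≤ d) (k' p B : ℝ) (hk' : 0 < k') (hp : 0 < p) (hp1 : p ≤ 1)
    (hB : 1 ≤ B) : ∃ c : ℝ, 0 < c ∧ ∀ lam : ℝ, 0 < lam → lam ≤ p ^ 2 → 3 * lam ≤ p →
      2 * B ≤ scl d c (1 / lam) →
      B * scl d c (1 / lam) ≤ scl d k' (p / lam) ∧
      scl d k' (p / lam) ≤ scl d c (1 / lam) ^ (d + 1) := by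
  rcases Nat.lt_or_ge d 4 with h | h
  · have hd3 : d = 3 := by omega
    subst hd3
    refine ⟨k' * p ^ 2 / B, by positivity, ?_⟩
    intro lam hlam hl1 hl2 hℓ
    have hr : 3 ≤ p / lam := by rw [le_div_iff₀ hlam]; linarith
    have hpl : p / lam ≤ 1 / lam := by gcongr
    have hlog : 0 < Real.log (p / lam) := Real.log_pos (by linarith)
    have hlog2 : Real.log (p / lam) ≤ Real.log (1 / lam) := Real.log_le_log (by positivity) hpl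
    have hlog1 : 0 < Real.log (1 / lam) := by linarith
    have e1 : scl 3 (k' * p ^ 2 / B) (1 / lam) =
        k' * p ^ 2 / B * (1 / lam) ^ 2 / Real.log (1 / lam) := by
      unfold scl
      rw [if_pos rfl]
    have e2 : scl 3 k' (p / lam) = k' * p ^ 2 * (1 / lam) ^ 2 / Real.log (p / lam) := by
      unfold scl
      rw [if_pos rfl, div_pow, div_pow]
      field_simp
    have e3 : B * scl 3 (k' * p ^ 2 / B) (1 / lam) =
        k' * p ^ 2 * (1 / lam) ^ 2 / Real.log (1 / lam) := by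
      rw [e1]
      field_simp
    constructor
    · rw [e3, e2]
      gcongr
    · have h4 : Real.log (1 / lam) ≤ 2 * Real.log (p / lam) := by
        have h5 : Real.log ((p / lam) ^ 2) = 2 * Real.log (p / lam) := by
          rw [Real.log_pow]; norm_num
        rw [← h5]
        apply Real.log_le_log (by positivity)
        rw [div_pow, div_le_div_iff₀ hlam (by positivity)]
        calc 1 * lam ^ 2 = lam * lam := by ring
          _ ≤ p ^ 2 * lam := by gcongr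
      have h6 : scl 3 k' (p / lam) ≤ 2 * B * scl 3 (k' * p ^ 2 / B) (1 / lam) := by
        rw [mul_assoc, e3, e2, div_le_iff₀ hlog]
        calc k' * p ^ 2 * (1 / lam) ^ 2 = k' * p ^ 2 * (1 / lam) ^ 2 / Real.log (1 / lam) *
              Real.log (1 / lam) := by field_simp
          _ ≤ k' * p ^ 2 * (1 / lam) ^ 2 / Real.log (1 / lam) * (2 * Real.log (p / lam)) := by
              gcongr
          _ = _ := by ring
      refine h6.trans ?_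
      set ℓ := scl 3 (k' * p ^ 2 / B) (1 / lam) with hℓd
      have hℓ1 : 1 ≤ ℓ := by linarith
      calc 2 * B * ℓ ≤ ℓ * ℓ := by gcongr
        _ = ℓ ^ 2 := by ring
        _ ≤ ℓ ^ (3 + 1) := pow_le_pow_right₀ hℓ1 (by norm_num)
  · have key : ∀ ℓ ℓ' : ℝ, 2 * B ≤ ℓ → ℓ' = ℓ ^ 2 → B * ℓ ≤ ℓ' ∧ ℓ' ≤ ℓ ^ (d + 1) := by
      intro ℓ ℓ' h1 h2
      have hℓ1 : 1 ≤ ℓ := by linarith
      rw [h2]
      constructor
      · rw [pow_two]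
        gcongr
        linarith
      · exact pow_le_pow_right₀ hℓ1 (by omega)
    have hd3 : d ≠ 3 := by omega
    by_cases h4 : d = 4
    · refine ⟨k' * p / 2, by positivity, ?_⟩
      intro lam hlam hl1 hl2 hℓ
      refine key _ _ hℓ ?_
      unfold scl
      rw [if_neg hd3, if_pos h4, if_neg hd3, if_pos h4, ← Real.exp_nat_mul]
      congr 1
      push_cast
      field_simp
    · refine ⟨k' * p ^ ((d : ℝ) / 2) / 2, by positivity, ?_⟩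
      intro lam hlam hl1 hl2 hℓ
      refine key _ _ hℓ ?_
      unfold scl
      rw [if_neg hd3, if_neg h4, if_neg hd3, if_neg h4, ← Real.exp_nat_mul]
      congr 1
      have e : (p / lam) ^ ((d : ℝ) / 2) = p ^ ((d : ℝ) / 2) * (1 / lam) ^ ((d : ℝ) / 2) := by
        rw [← Real.mul_rpow hp.le (by positivity)]
        congr 1
        ring
      rw [e]
      push_cast
      ring

theorem consts (d : ℕ) (hd : 3 ≤ d) (ε C : ℝ) (hε : 0 < ε) (hε1 : ε ≤ 1) (hC : 1 ≤ C) :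
    ∃ (J : ℕ) (K s e5 ϑ β θ q0 cT CM k1 : ℝ),
      6 ≤ J * ε ∧ 1 ≤ K ∧ J * (12 / K ^ 2 + 2 * θ ^ 2) ≤ 1 / 2 ∧ 0 < s ∧ s ≤ 1 ∧ 0 < e5 ∧
      2 * J * (s ^ d + 6 ^ d * K ^ d * e5 * (2 / ε)) ≤ ε / (28 * d) ^ d ∧
      0 < ϑ ∧ ϑ ≤ 1 / 100 ∧ ϑ * K ≤ 1 ∧ 0 < β ∧ 0 < θ ∧ θ ≤ ϑ ∧ 8 * (θ + θ) ^ 2 ≤ β ^ 2 / 2 ∧
      0 < q0 ∧ q0 ≤ 1 ∧ 7 * d * K * q0 ≤ s ∧ 0 < cT ∧ cT ≤ 1 ∧
      8 * C * cT ≤ β ^ 2 / 4 * (θ ^ 2 / (4 * K)) ^ d ∧
      CM = d * 2 ^ (d + 1) / ϑ + 1 ∧ 0 < CM ∧ 0 < k1 ∧ k1 ≤ 1 ∧ k1 ≤ cT ∧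
      2 * ϑ ^ 2 + 8 * d ^ 2 * K ^ 2 / s ^ 2 * ((83 + 160 * d) * ϑ + 40 * d * β) ≤ e5 / 2 ∧
      8 * d ^ 2 / s ^ 2 * ((1 + 2 / ϑ) * (2 * d * CM ^ 2 + d / (2 * ϑ))) *
        (k1 / (cT * q0 ^ J)) ^ 2 ≤ e5 / 4 ∧
      k1 * (8 * d * CM) ≤ cT * q0 ^ J * s := by
  have hd0 : (3 : ℝ) ≤ d := by exact_mod_cast hd
  obtain ⟨J, hJ⟩ : ∃ J : ℕ, J = ⌈6 / ε⌉₊ := ⟨_, rfl⟩
  have hJ6 : 6 / ε ≤ J := by rw [hJ]; exact Nat.le_ceil _
  have hJε : 6 ≤ J * ε := by rwa [div_le_iff₀ hε] at hJ6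
  have hJ1 : (1 : ℝ) ≤ J := by
    have : 6 ≤ 6 / ε := by rw [le_div_iff₀ hε]; linarith
    linarith
  obtain ⟨K, hK⟩ : ∃ K : ℝ, K = 7 * J := ⟨_, rfl⟩
  have hK1 : 1 ≤ K := by rw [hK]; linarith
  have hpd : (1 : ℝ) ≤ (28 * d) ^ d := one_le_pow₀ (by linarith)
  obtain ⟨s, hs⟩ : ∃ s : ℝ, s = ε / (4 * J * (28 * d) ^ d) := ⟨_, rfl⟩
  have hs0 : 0 < s := by rw [hs]; positivity
  have hs1 : s ≤ 1 := by
    rw [hs, div_le_one (by positivity)]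
    have : 1 * 1 * 1 ≤ 4 * J * (28 * (d : ℝ)) ^ d := by gcongr; norm_num
    linarith
  obtain ⟨e5, he5⟩ : ∃ e5 : ℝ, e5 = ε ^ 2 / (8 * J * 6 ^ d * K ^ d * (28 * d) ^ d) := ⟨_, rfl⟩
  have he50 : 0 < e5 := by rw [he5]; positivity
  obtain ⟨D1, hD1⟩ : ∃ D1 : ℝ, D1 = 2 + 8 * d ^ 2 * K ^ 2 / s ^ 2 * (83 + 160 * d) := ⟨_, rfl⟩
  have hD10 : 0 < D1 := by rw [hD1]; positivity
  obtain ⟨ϑ, hϑ⟩ : ∃ ϑ : ℝ, ϑ = min (1 / 100) (min (1 / K) (e5 / (4 * D1))) := ⟨_, rfl⟩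
  have hϑ0 : 0 < ϑ := by rw [hϑ]; positivity
  have hϑ1 : ϑ ≤ 1 / 100 := by rw [hϑ]; exact min_le_left _ _
  have hϑ2 : ϑ ≤ 1 / K := by rw [hϑ]; exact (min_le_right _ _).trans (min_le_left _ _)
  have hϑ3 : ϑ ≤ e5 / (4 * D1) := by rw [hϑ]; exact (min_le_right _ _).trans (min_le_right _ _)
  have hϑK : ϑ * K ≤ 1 := by rwa [le_div_iff₀ (by linarith)] at hϑ2
  obtain ⟨β, hβ⟩ : ∃ β : ℝ, β = e5 * s ^ 2 / (1280 * d ^ 3 * K ^ 2) := ⟨_, rfl⟩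
  have hβ0 : 0 < β := by rw [hβ]; positivity
  obtain ⟨θ, hθ⟩ : ∃ θ : ℝ, θ = min ϑ (min (β / 16) (1 / (8 * J))) := ⟨_, rfl⟩
  have hθ0 : 0 < θ := by rw [hθ]; positivity
  have hθ1 : θ ≤ ϑ := by rw [hθ]; exact min_le_left _ _
  have hθ2 : θ ≤ β / 16 := by rw [hθ]; exact (min_le_right _ _).trans (min_le_left _ _)
  have hθ3 : θ ≤ 1 / (8 * J) := by rw [hθ]; exact (min_le_right _ _).trans (min_le_right _ _)
  obtain ⟨q0, hq0⟩ : ∃ q0 : ℝ, q0 = s / (7 * d * K) := ⟨_, rfl⟩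
  have hq00 : 0 < q0 := by rw [hq0]; positivity
  have hq01 : q0 ≤ 1 := by
    rw [hq0, div_le_one (by positivity)]
    have : 1 * 1 * 1 ≤ 7 * (d : ℝ) * K := by gcongr <;> linarith
    linarith
  obtain ⟨cT, hcT⟩ : ∃ cT : ℝ, cT = min 1 (β ^ 2 / 4 * (θ ^ 2 / (4 * K)) ^ d / (8 * C)) := ⟨_, rfl⟩
  have hcT0 : 0 < cT := by rw [hcT]; positivity
  have hcT1 : cT ≤ 1 := by rw [hcT]; exact min_le_left _ _
  have hcT2 : cT ≤ β ^ 2 / 4 * (θ ^ 2 / (4 * K)) ^ d / (8 * C) := by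
    rw [hcT]; exact min_le_right _ _
  obtain ⟨CM, hCM⟩ : ∃ CM : ℝ, CM = d * 2 ^ (d + 1) / ϑ + 1 := ⟨_, rfl⟩
  have hCM0 : 0 < CM := by rw [hCM]; positivity
  obtain ⟨C7, hC7⟩ : ∃ C7 : ℝ,
    C7 = 8 * d ^ 2 / s ^ 2 * ((1 + 2 / ϑ) * (2 * d * CM ^ 2 + d / (2 * ϑ))) := ⟨_, rfl⟩
  have hC70 : 0 < C7 := by rw [hC7]; positivity
  obtain ⟨k1, hk1⟩ : ∃ k1 : ℝ, k1 = min (min 1 cT) (min (e5 / (4 * C7) * (cT * q0 ^ J) ^ 2)
    (cT * q0 ^ J * s / (8 * d * CM))) := ⟨_, rfl⟩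
  have hk10 : 0 < k1 := by rw [hk1]; positivity
  have hk11 : k1 ≤ 1 := by rw [hk1]; exact (min_le_left _ _).trans (min_le_left _ _)
  have hk12 : k1 ≤ cT := by rw [hk1]; exact (min_le_left _ _).trans (min_le_right _ _)
  have hk13 : k1 ≤ e5 / (4 * C7) * (cT * q0 ^ J) ^ 2 := by
    rw [hk1]; exact (min_le_right _ _).trans (min_le_left _ _)
  have hk14 : k1 ≤ cT * q0 ^ J * s / (8 * d * CM) := by
    rw [hk1]; exact (min_le_right _ _).trans (min_le_right _ _)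
  refine ⟨J, K, s, e5, ϑ, β, θ, q0, cT, CM, k1, hJε, hK1, ?_, hs0, hs1, he50, ?_, hϑ0, hϑ1, hϑK,
    hβ0, hθ0, hθ1, ?_, hq00, hq01, ?_, hcT0, hcT1, ?_, hCM, hCM0, hk10, hk11, hk12, ?_, ?_, ?_⟩
  · have h1 : J * (12 / K ^ 2) = 12 / 49 / J := by
      rw [hK]
      field_simp
      norm_num
    have h2 : (12 / 49 : ℝ) / J ≤ 12 / 49 := div_le_self (by norm_num) hJ1
    have h3 : J * (2 * θ ^ 2) ≤ 1 / 32 := by
      calc (J : ℝ) * (2 * θ ^ 2) ≤ (J : ℝ) * (2 * (1 / (8 * (J : ℝ))) ^ 2) := by gcongr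
        _ = 1 / 32 / (J : ℝ) := by field_simp; norm_num
        _ ≤ 1 / 32 := div_le_self (by norm_num) hJ1
    rw [mul_add, h1]
    linarith
  · have h1 : 2 * J * s ^ d ≤ ε / (28 * d) ^ d / 2 := by
      have h2 : s ^ d ≤ s := by
        calc s ^ d ≤ s ^ 1 := pow_le_pow_of_le_one hs0.le hs1 (by omega)
          _ = s := pow_one s
      calc 2 * J * s ^ d ≤ 2 * J * s := by gcongr
        _ = ε / (28 * d) ^ d / 2 := by
            rw [hs]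
            field_simp
            norm_num
    have h2 : 2 * J * (6 ^ d * K ^ d * e5 * (2 / ε)) = ε / (28 * d) ^ d / 2 := by
      rw [he5]
      field_simp
      norm_num
    rw [mul_add, h2]
    linarith
  · calc 8 * (θ + θ) ^ 2 ≤ 8 * (β / 16 + β / 16) ^ 2 := by gcongr
      _ = β ^ 2 / 8 := by ring
      _ ≤ β ^ 2 / 2 := by
          have := sq_nonneg β
          linarith
  · rw [hq0]
    apply le_of_eq
    field_simp
  · rw [le_div_iff₀ (by positivity)] at hcT2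
    linarith
  · have h1 : 2 * ϑ ^ 2 ≤ 2 * ϑ := by nlinarith
    have h2 : 2 * ϑ + 8 * d ^ 2 * K ^ 2 / s ^ 2 * ((83 + 160 * d) * ϑ) ≤ e5 / 4 := by
      rw [le_div_iff₀ (by positivity)] at hϑ3
      have : D1 * ϑ = 2 * ϑ + 8 * d ^ 2 * K ^ 2 / s ^ 2 * ((83 + 160 * d) * ϑ) := by
        rw [hD1]; ring
      linarith
    have h3 : 8 * (d : ℝ) ^ 2 * K ^ 2 / s ^ 2 * (40 * d * β) = e5 / 4 := by
      rw [hβ]
      field_simp
      norm_num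
    rw [mul_add, h3]
    linarith
  · rw [← hC7]
    have h1 : (k1 / (cT * q0 ^ J)) ^ 2 ≤ e5 / (4 * C7) := by
      rw [div_pow, div_le_iff₀ (by positivity)]
      have : k1 ^ 2 ≤ k1 := by nlinarith
      linarith
    calc C7 * (k1 / (cT * q0 ^ J)) ^ 2 ≤ C7 * (e5 / (4 * C7)) := by gcongr
      _ = e5 / 4 := by field_simp
  · rwa [le_div_iff₀ (by positivity)] at hk14

end Pool.Agent.V8H95.EF
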