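import Pool.Agent.V8H95.EF.Ch

/-!
Properties of the wave packets.
-/

set_option autoImplicit false
set_option linter.unusedSectionVars false

open Complex
open scoped BigOperators ComplexConjugate

namespace Pool.Agent.V8H95.EF

open Pool.Agent.H4R2.AE Pool.Agent.V8H99.AD Pool.Agent.V8H95.MF Pool.Agent.V8H95.BW

variable {d L : ℕ} [NeZero L]

/-- the phase -/
noncomputable def th (q : T d L) (i : Fin d) : ℝ := 2 * Real.pi * (((q i).val : ℝ) / L)

theorem exp_th (q : T d L) (i : Fin d) :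
    Complex.exp ((th q i : ℂ) * Complex.I) = ch q (Pi.single i 1) := by
  rw [ch_single', ZMod.stdAddChar_apply, ZMod.toCircle_apply]
  congr 1
  unfold th
  push_cast
  ring

/-- the kinetic energy of the plane wave, one direction -/
noncomputable def k1q (q : T d L) (i : Fin d) : ℝ := ‖ch q (Pi.single i 1) - 1‖ ^ 2

/-- the kinetic energy of the plane wave -/
noncomputable def kq (q : T d L) : ℝ := ∑ i, k1q q i

theorem k1q_nonneg (q : T d L) (i : Fin d) : 0 ≤ k1q q i := by unfold k1q; positivity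

theorem k1q_le (q : T d L) (i : Fin d) : k1q q i ≤ kq q :=
  Finset.single_le_sum (f := fun i => k1q q i) (fun j _ => k1q_nonneg q j) (Finset.mem_univ i)

theorem kq_nonneg (q : T d L) : 0 ≤ kq q := Finset.sum_nonneg fun i _ => k1q_nonneg q i

theorem k1q_cos (q : T d L) (i : Fin d) : k1q q i = 2 - 2 * Real.cos (th q i) := by
  unfold k1q
  rw [← exp_th, ← Complex.normSq_eq_norm_sq, Complex.normSq_apply]
  have h1 : (Complex.exp ((th q i : ℂ) * Complex.I) - 1).re = Real.cos (th q i) - 1 := by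
    rw [Complex.sub_re, Complex.exp_ofReal_mul_I_re, Complex.one_re]
  have h2 : (Complex.exp ((th q i : ℂ) * Complex.I) - 1).im = Real.sin (th q i) := by
    rw [Complex.sub_im, Complex.exp_ofReal_mul_I_im, Complex.one_im, sub_zero]
  rw [h1, h2]
  have := Real.sin_sq_add_cos_sq (th q i)
  nlinarith

theorem k1q_sin (q : T d L) (i : Fin d) :
    k1q q i = Real.sin (th q i) ^ 2 + k1q q i ^ 2 / 4 := by
  rw [k1q_cos]
  have := Real.sin_sq_add_cos_sq (th q i)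
  nlinarith

theorem sin_le_kq (q : T d L) : ∑ i, Real.sin (th q i) ^ 2 ≤ kq q := by
  unfold kq
  refine Finset.sum_le_sum fun i _ => ?_
  have h := k1q_sin q i
  nlinarith [sq_nonneg (k1q q i)]

theorem kq_le_sin (q : T d L) : kq q ≤ ∑ i, Real.sin (th q i) ^ 2 + kq q ^ 2 / 4 := by
  have h1 : kq q = ∑ i, Real.sin (th q i) ^ 2 + (∑ i, k1q q i ^ 2) / 4 := by
    conv_lhs => unfold kq
    rw [Finset.sum_div, ← Finset.sum_add_distrib]
    exact Finset.sum_congr rfl fun i _ => k1q_sin q i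
  have h2 : ∑ i, k1q q i ^ 2 ≤ kq q ^ 2 := by
    have : ∑ i, k1q q i ^ 2 ≤ ∑ i, k1q q i * kq q := by
      refine Finset.sum_le_sum fun i _ => ?_
      rw [pow_two]
      exact mul_le_mul_of_nonneg_left (k1q_le q i) (k1q_nonneg q i)
    refine this.trans (le_of_eq ?_)
    rw [← Finset.sum_mul, pow_two]
    rfl
  linarith

/-- the packet at the origin is almost a plane wave -/
theorem Ph_mom (M : ℕ) (hM1 : 1 ≤ M) (hM : M ≤ L) (q : T d L) (i : Fin d) :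
    ‖Sh i (Ph M 0 q) - Complex.exp ((th q i : ℂ) * Complex.I) • Ph M 0 q‖ ≤
      2 ^ (d + 1) / (M : ℝ) * ‖Ph M 0 q‖ := by
  have h1 : ‖Sh i (Ph M 0 q) - Complex.exp ((th q i : ℂ) * Complex.I) • Ph M 0 q‖ ^ 2 ≤
      (2 ^ (d + 1) / (M : ℝ) * ‖Ph M 0 q‖) ^ 2 := by
    rw [mul_pow, Ph_norm, ← mass_sum]
    refine le_trans (le_of_eq ?_) (tent_flat M hM1 hM i)
    refine Finset.sum_congr rfl fun x _ => ?_
    rw [PiLp.sub_apply, PiLp.smul_apply, Sh_apply, Ph_apply, Ph_apply, sub_zero, sub_zero,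
      exp_th, ch_add, smul_eq_mul]
    have e : ch q x * ch q (Pi.single i 1) * ((tent M (x + Pi.single i 1) : ℝ) : ℂ) -
        ch q (Pi.single i 1) * (ch q x * ((tent M x : ℝ) : ℂ)) =
        ch q x * ch q (Pi.single i 1) * ((tent M (x + Pi.single i 1) - tent M x : ℝ) : ℂ) := by
      push_cast
      ring
    rw [e, norm_mul, norm_mul, ch_norm, ch_norm, Complex.norm_real, Real.norm_eq_abs, one_mul,
      one_mul, sq_abs]
  exact (pow_le_pow_iff_left₀ (norm_nonneg _) (by positivity) two_ne_zero).1 h1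

theorem Ph_dir (hd : 1 ≤ d) (M : ℕ) (hM1 : 1 ≤ M) (hM : M ≤ L) (q : T d L) (ϑ κ : ℝ)
    (hϑ1 : ϑ ≤ 1 / 100) (hκ : 0 < κ) (hϑ : 0 < ϑ) (hMσ : d * (2 ^ (d + 1) / (M : ℝ)) ≤ ϑ * κ)
    (hq : kq q ≤ κ ^ 2) :
    Dir (fun y => (Ph M 0 q) y) ≤ (kq q + 3 * ϑ * κ ^ 2) * ‖Ph M 0 q‖ ^ 2 := by
  set σ := 2 ^ (d + 1) / (M : ℝ) with hσ
  have hσ0 : 0 ≤ σ := by positivity
  have hd0 : (1 : ℝ) ≤ d := by exact_mod_cast hd
  have hσκ : σ ≤ ϑ * κ := by nlinarith
  rw [dir_Sh]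
  have h1 : ∀ i : Fin d, ‖Sh i (Ph M 0 q) - Ph M 0 q‖ ^ 2 ≤
      (k1q q i + 2 * (σ * κ) + σ ^ 2) * ‖Ph M 0 q‖ ^ 2 := by
    intro i
    have h2 := Ph_mom M hM1 hM q i
    have h3 : ‖Complex.exp ((th q i : ℂ) * Complex.I) • Ph M 0 q - Ph M 0 q‖ =
        √(k1q q i) * ‖Ph M 0 q‖ := by
      have e : Complex.exp ((th q i : ℂ) * Complex.I) • Ph M 0 q - Ph M 0 q =
          (Complex.exp ((th q i : ℂ) * Complex.I) - 1) • Ph M 0 q := by
        rw [sub_smul, one_smul]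
      rw [e, norm_smul, exp_th]
      congr 1
      unfold k1q
      rw [Real.sqrt_sq (norm_nonneg _)]
    have h4 : ‖Sh i (Ph M 0 q) - Ph M 0 q‖ ≤ (σ + √(k1q q i)) * ‖Ph M 0 q‖ := by
      have e : Sh i (Ph M 0 q) - Ph M 0 q =
          (Sh i (Ph M 0 q) - Complex.exp ((th q i : ℂ) * Complex.I) • Ph M 0 q) +
          (Complex.exp ((th q i : ℂ) * Complex.I) • Ph M 0 q - Ph M 0 q) := by abel
      rw [e]
      refine (norm_add_le _ _).trans ?_
      rw [h3, add_mul]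
      linarith
    have h5 : √(k1q q i) ≤ κ := by
      rw [Real.sqrt_le_left hκ.le]
      exact (k1q_le q i).trans hq
    have h6 : √(k1q q i) ^ 2 = k1q q i := Real.sq_sqrt (k1q_nonneg q i)
    have h7 : 0 ≤ √(k1q q i) := Real.sqrt_nonneg _
    calc ‖Sh i (Ph M 0 q) - Ph M 0 q‖ ^ 2 ≤ ((σ + √(k1q q i)) * ‖Ph M 0 q‖) ^ 2 :=
          pow_le_pow_left₀ (norm_nonneg _) h4 2
      _ = (σ ^ 2 + 2 * (σ * √(k1q q i)) + √(k1q q i) ^ 2) * ‖Ph M 0 q‖ ^ 2 := by ring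
      _ ≤ (σ ^ 2 + 2 * (σ * κ) + k1q q i) * ‖Ph M 0 q‖ ^ 2 := by
          rw [h6]
          gcongr
      _ = _ := by ring
  refine (Finset.sum_le_sum fun i _ => h1 i).trans ?_
  rw [← Finset.sum_mul, Finset.sum_add_distrib, Finset.sum_add_distrib]
  simp only [Finset.sum_const, Finset.card_univ, Fintype.card_fin, nsmul_eq_mul]
  apply mul_le_mul_of_nonneg_right _ (by positivity)
  show kq q + d * (2 * (σ * κ)) + d * σ ^ 2 ≤ kq q + 3 * ϑ * κ ^ 2
  have h2 : d * (2 * (σ * κ)) ≤ 2 * ϑ * κ ^ 2 := by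
    calc d * (2 * (σ * κ)) = 2 * κ * (d * σ) := by ring
      _ ≤ 2 * κ * (ϑ * κ) := by gcongr
      _ = _ := by ring
  have h3 : d * σ ^ 2 ≤ ϑ * κ ^ 2 := by
    calc d * σ ^ 2 = (d * σ) * σ := by ring
      _ ≤ (ϑ * κ) * (ϑ * κ) := by gcongr
      _ = ϑ * (ϑ * κ ^ 2) := by ring
      _ ≤ ϑ * (1 * κ ^ 2) := by gcongr; linarith
      _ = _ := by ring
  linarith

theorem X_na (i : Fin d) (x : T d L) : |X i x| = (na (x i) : ℝ) := by
  unfold X rep na
  rw [Nat.cast_natAbs, Int.cast_abs]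

theorem Ph_supp (M : ℕ) (q : T d L) (y : T d L) (hy : (Ph M 0 q) y ≠ 0) : nn y < M := by
  apply tent_supp
  intro h
  apply hy
  rw [Ph_apply, sub_zero, h]
  simp

theorem Ph_supp' (M : ℕ) (q : T d L) (y : T d L) (hy : (Ph M 0 q) y ≠ 0) (i : Fin d) :
    |rep y i| ≤ M := by
  have h1 := Ph_supp M q y hy
  have h2 := na_le_nn y i
  unfold na at h2
  unfold rep
  rw [Int.abs_eq_natAbs]
  omega

theorem Ph_Q (M : ℕ) (q : T d L) : wm Q (Ph M 0 q) ≤ (d * (M : ℝ) ^ 2) * ‖Ph M 0 q‖ ^ 2 := by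
  unfold wm
  rw [← mass_sum, Finset.mul_sum]
  refine Finset.sum_le_sum fun x _ => ?_
  by_cases hx : (Ph M 0 q) x = 0
  · rw [hx]; simp
  · have h1 := Ph_supp M q x hx
    have h2 : Q x ≤ d * (M : ℝ) ^ 2 := by
      unfold Q
      have h3 : ∀ j : Fin d, X j x ^ 2 ≤ (M : ℝ) ^ 2 := by
        intro j
        rw [← sq_abs, X_na]
        have h4 : na (x j) ≤ M := (na_le_nn x j).trans h1.le
        have h5 : (na (x j) : ℝ) ≤ M := by exact_mod_cast h4
        exact pow_le_pow_left₀ (Nat.cast_nonneg _) h5 2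
      refine (Finset.sum_le_sum fun j _ => h3 j).trans (le_of_eq ?_)
      simp
    exact mul_le_mul_of_nonneg_right h2 (by positivity)

/-- the packets with large kinetic energy -/
theorem high (M : ℕ) (hM1 : 1 ≤ M) (hM : M ≤ L) (v : XT d L) (s : ℝ) (hs : 0 < s)
    (P : Finset (T d L)) (hP : ∀ q ∈ P, s ^ 2 ≤ kq q) :
    ∑ y : T d L, ∑ q ∈ P, ‖(inner ℂ (Ph M y q) v : ℂ)‖ ^ 2 ≤
      ((L : ℝ) ^ d * tsq d L M) * ((2 * Dir (fun y => v y) +
        2 * (d * (2 ^ (d + 1) / (M : ℝ)) ^ 2) * ‖v‖ ^ 2) / s ^ 2) := by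
  set σ := 2 ^ (d + 1) / (M : ℝ) with hσ
  have hL : (0 : ℝ) < L := by exact_mod_cast NeZero.pos L
  have h1 : ∀ y q : T d L, q ∈ P → ‖(inner ℂ (Ph M y q) v : ℂ)‖ ^ 2 ≤
      1 / s ^ 2 * ∑ i, ‖ft (Sh i (Mu (tt M y) v) - Mu (tt M y) v) q‖ ^ 2 := by
    intro y q hq
    have h2 : ∑ i, ‖ft (Sh i (Mu (tt M y) v) - Mu (tt M y) v) q‖ ^ 2 =
        kq q * ‖(inner ℂ (Ph M y q) v : ℂ)‖ ^ 2 := by
      unfold kq
      rw [Finset.sum_mul]
      refine Finset.sum_congr rfl fun i _ => ?_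
      rw [ft_sub, ft_sh, inner_Ph]
      have e : ch q (Pi.single i 1) * ft (Mu (tt M y) v) q - ft (Mu (tt M y) v) q =
          (ch q (Pi.single i 1) - 1) * ft (Mu (tt M y) v) q := by ring
      rw [e, norm_mul, mul_pow]
      rfl
    rw [h2]
    have h3 := hP q hq
    have h4 : 0 ≤ ‖(inner ℂ (Ph M y q) v : ℂ)‖ ^ 2 := by positivity
    rw [← mul_assoc, one_div_mul_eq_div]
    have h5 : 1 ≤ kq q / s ^ 2 := by rw [le_div_iff₀ (by positivity)]; linarith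
    nlinarith
  have h2 : ∀ y : T d L, ∑ q ∈ P, ‖(inner ℂ (Ph M y q) v : ℂ)‖ ^ 2 ≤
      1 / s ^ 2 * ((L : ℝ) ^ d * ∑ i, ‖Sh i (Mu (tt M y) v) - Mu (tt M y) v‖ ^ 2) := by
    intro y
    calc ∑ q ∈ P, ‖(inner ℂ (Ph M y q) v : ℂ)‖ ^ 2
        ≤ ∑ q ∈ P, 1 / s ^ 2 * ∑ i, ‖ft (Sh i (Mu (tt M y) v) - Mu (tt M y) v) q‖ ^ 2 :=
          Finset.sum_le_sum fun q hq => h1 y q hq
      _ ≤ ∑ q : T d L, 1 / s ^ 2 * ∑ i, ‖ft (Sh i (Mu (tt M y) v) - Mu (tt M y) v) q‖ ^ 2 :=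
          Finset.sum_le_sum_of_subset_of_nonneg (Finset.subset_univ P) fun q _ _ => by positivity
      _ = _ := by
          rw [← Finset.mul_sum, Finset.sum_comm]
          congr 1
          rw [Finset.mul_sum]
          exact Finset.sum_congr rfl fun i _ =>
            parseval_norm (Sh i (Mu (tt M y) v) - Mu (tt M y) v)
  have h3 : ∀ (y : T d L) (i : Fin d), ‖Sh i (Mu (tt M y) v) - Mu (tt M y) v‖ ^ 2 ≤
      ∑ x, (2 * tent M (x + Pi.single i 1 - y) ^ 2 * ‖v (x + Pi.single i 1) - v x‖ ^ 2 +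
        2 * (tent M (x + Pi.single i 1 - y) - tent M (x - y)) ^ 2 * ‖v x‖ ^ 2) := by
    intro y i
    rw [← mass_sum]
    refine Finset.sum_le_sum fun x _ => ?_
    rw [PiLp.sub_apply, Sh_apply, Mu_apply, Mu_apply]
    unfold tt
    have e : ((tent M (x + Pi.single i 1 - y) : ℝ) : ℂ) * v (x + Pi.single i 1) -
        ((tent M (x - y) : ℝ) : ℂ) * v x =
        ((tent M (x + Pi.single i 1 - y) : ℝ) : ℂ) * (v (x + Pi.single i 1) - v x) +
        ((tent M (x + Pi.single i 1 - y) - tent M (x - y) : ℝ) : ℂ) * v x := by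
      push_cast
      ring
    rw [e]
    have h4 := norm_add_le (((tent M (x + Pi.single i 1 - y) : ℝ) : ℂ) *
      (v (x + Pi.single i 1) - v x))
      (((tent M (x + Pi.single i 1 - y) - tent M (x - y) : ℝ) : ℂ) * v x)
    rw [norm_mul, norm_mul, Complex.norm_real, Complex.norm_real, Real.norm_eq_abs,
      Real.norm_eq_abs] at h4
    have h5 := pow_le_pow_left₀ (norm_nonneg _) h4 2
    refine h5.trans ?_
    set a := tent M (x + Pi.single i 1 - y)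
    set b := tent M (x + Pi.single i 1 - y) - tent M (x - y)
    rw [← sq_abs a, ← sq_abs b]
    nlinarith [sq_nonneg (|a| * ‖v (x + Pi.single i 1) - v x‖ - |b| * ‖v x‖)]
  have h4 : ∀ i : Fin d, ∑ y : T d L, ‖Sh i (Mu (tt M y) v) - Mu (tt M y) v‖ ^ 2 ≤
      2 * tsq d L M * ‖Sh i v - v‖ ^ 2 + 2 * (σ ^ 2 * tsq d L M) * ‖v‖ ^ 2 := by
    intro i
    refine (Finset.sum_le_sum fun y _ => h3 y i).trans ?_
    rw [Finset.sum_comm, ← mass_sum, ← mass_sum, Finset.mul_sum, Finset.mul_sum,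
      ← Finset.sum_add_distrib]
    refine Finset.sum_le_sum fun x _ => ?_
    rw [Finset.sum_add_distrib, ← Finset.sum_mul, ← Finset.sum_mul, ← Finset.mul_sum,
      ← Finset.mul_sum, tsq_shift]
    have e1 : (Sh i v - v) x = v (x + Pi.single i 1) - v x := by
      rw [PiLp.sub_apply, Sh_apply]
    rw [e1]
    have e2 : ∑ y : T d L, (tent M (x + Pi.single i 1 - y) - tent M (x - y)) ^ 2 =
        ∑ z : T d L, (tent M (z + Pi.single i 1) - tent M z) ^ 2 := by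
      have e3 := Equiv.sum_comp (Equiv.subLeft x) fun z : T d L =>
        (tent M (z + Pi.single i 1) - tent M z) ^ 2
      rw [← e3]
      refine Finset.sum_congr rfl fun y _ => ?_
      show _ = (tent M (x - y + Pi.single i 1) - tent M (x - y)) ^ 2
      rw [show x + Pi.single i 1 - y = x - y + Pi.single i 1 by abel]
    rw [e2]
    have := tent_flat (d := d) (L := L) M hM1 hM i
    gcongr
  calc ∑ y : T d L, ∑ q ∈ P, ‖(inner ℂ (Ph M y q) v : ℂ)‖ ^ 2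
      ≤ ∑ y : T d L, 1 / s ^ 2 * ((L : ℝ) ^ d *
          ∑ i, ‖Sh i (Mu (tt M y) v) - Mu (tt M y) v‖ ^ 2) :=
        Finset.sum_le_sum fun y _ => h2 y
    _ = 1 / s ^ 2 * ((L : ℝ) ^ d * ∑ i, ∑ y : T d L,
          ‖Sh i (Mu (tt M y) v) - Mu (tt M y) v‖ ^ 2) := by
        rw [← Finset.mul_sum, ← Finset.mul_sum, Finset.sum_comm]
    _ ≤ 1 / s ^ 2 * ((L : ℝ) ^ d * ∑ i : Fin d,
          (2 * tsq d L M * ‖Sh i v - v‖ ^ 2 + 2 * (σ ^ 2 * tsq d L M) * ‖v‖ ^ 2)) := by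
        gcongr with i _
        exact h4 i
    _ = _ := by
        rw [Finset.sum_add_distrib, ← Finset.mul_sum, ← dir_Sh]
        simp only [Finset.sum_const, Finset.card_univ, Fintype.card_fin, nsmul_eq_mul]
        ring

end Pool.Agent.V8H95.EF
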