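import Pool.Agent.V8H95.EF.Ex

/-!
The theorem on the torus, with abstract parameters.
-/

set_option autoImplicit false
set_option linter.unusedSectionVars false

open Complex MeasureTheory
open scoped BigOperators ComplexConjugate

namespace Pool.Agent.V8H95.EF

open Pool.Agent.H4R2.AE Pool.Agent.V8H99.AD Pool.Agent.V8H95.MF Pool.Agent.V8H95.BW

theorem torus_main (d : ℕ) (hd : 3 ≤ d) : ∃ C : ℝ, 1 ≤ C ∧ ∀ (L : ℕ) [NeZero L]
    (lam c0 m θ ϑ K s e5 β ε κ τ q0 : ℝ) (J M R Nt n n' : ℕ)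
    (μ : Measure ℝ) [IsProbabilityMeasure μ], (∀ᵐ s ∂μ, |s| ≤ 1) → ∀ G : Set (T d L → ℝ),
    MeasurableSet G → (∀ V ∈ G, ∃ ψ : T d L → ℝ, Gd lam c0 θ m V ψ) →
    0 ≤ θ → 0 < ε → 6 ≤ J * ε → 1 ≤ K → J * (12 / K ^ 2 + 2 * θ ^ 2) ≤ 1 / 2 →
    0 < s → s ≤ 1 → 0 ≤ e5 → 2 * J * (s ^ d + 6 ^ d * K ^ d * e5 * (2 / ε)) ≤ ε / (28 * d) ^ d →
    0 < κ → K * κ ≤ 1 → (K * κ) ^ 2 ≤ 4 * ϑ → 0 < ϑ → ϑ ≤ 1 / 100 → θ ≤ ϑ → ϑ * K ≤ 1 →
    48 * m ≤ κ ^ 2 → m ≤ ϑ * κ ^ 2 → 1 ≤ M → M ≤ L → d * (2 ^ (d + 1) / (M : ℝ)) ≤ ϑ * (K * κ) →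
    0 < τ → 0 < q0 → q0 ≤ 1 → 7 * d * K * q0 ≤ s →
    (∀ j < J, 2 * ((R : ℝ) + M) ≤ τ * q0 ^ j * s * κ / (2 * d)) → 2 ≤ s * κ * L →
    2 * (M + Nt) + 2 < L → 24 * ((4 * d + 1) * τ) ≤ Nt →
    12 * d * (L : ℝ) ^ 2 * Real.exp (-(Nt : ℝ)) ≤ ϑ * (K * κ) →
    1 ≤ n' → n' ≤ n → n' * (1 / (2 * n + 1) + 1 / (L : ℝ) ^ 2) ≤ θ ^ 2 →
    ((2 * n : ℕ) : ℝ) * (4 * (2 * (K * κ)) ^ 2 + 12 * m) ≤ bb d * θ ^ 2 → 0 ≤ lam → 0 < β →
    8 * (θ + θ) ^ 2 + 2 * C * (lam * (n + τ)) ^ 2 / (n' : ℝ) ^ ((d : ℝ) / 2) +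
        6 * (L : ℝ) ^ d * (Measure.pi fun _ : T d L => μ).real Gᶜ ≤ β ^ 2 →
    (∀ j < J, (Measure.pi fun _ : T d L => μ).real Gᶜ + 2 * ϑ ^ 2 +
      2 / (τ * q0 ^ j * s * κ / (2 * d)) ^ 2 * ((1 + 2 / ϑ) * (2 * (√d * M) ^ 2 + d / (2 * ϑ)) +
        (83 + 160 * d) * ϑ * (K * κ) ^ 2 * (τ * q0 ^ j) ^ 2 +
          40 * d * (K * κ) ^ 2 * (τ * q0 ^ j) ^ 2 * β) ≤ e5) →
    ∃ G' : Set (T d L → ℝ), MeasurableSet G' ∧
      1 - ((Measure.pi fun _ : T d L => μ).real Gᶜ + ε / 2) ≤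
        (Measure.pi fun _ : T d L => μ).real G' ∧
      ∀ V ∈ G', ∀ (b : OrthonormalBasis (T d L) ℂ (XT d L)) (E : T d L → ℝ),
        (∀ α, HC lam V (b α) = ((E α : ℝ) : ℂ) • b α) →
        (κ * L / (28 * d)) ^ d ≤ ((win E κ).card : ℝ) ∧
        ∀ S : Finset (T d L), S ⊆ win E κ → (∀ α ∈ S, ∃ x0 : T d L,
          ε < ‖rs (fun x => nn (x - x0) ≤ R) (b α)‖ ^ 2) →
          (S.card : ℝ) ≤ ε * ((win E κ).card : ℝ) := by
  classical
  obtain ⟨C, hC, HM⟩ := mf_torus d hd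
  refine ⟨C, hC, ?_⟩
  intro L _ lam c0 m θ ϑ K s e5 β ε κ τ q0 J M R Nt n n' μ _ hμ G hGm hG hθ hε hJ hK hJK hs hs1
    he5 hfin hκ hKκ hKϑ hϑ hϑ1 hθϑ hϑK hm1 hm2 hM1 hML hMσ hT hq0 hq1 hq0s hR hsL hMN hNt htail
    hn1 hn2 hn3 hn4 hlam hβ hβ2 herr
  have hd1 : 1 ≤ d := by omega
  have hd0 : (1 : ℝ) ≤ d := by exact_mod_cast hd1
  set P : Measure (T d L → ℝ) := Measure.pi fun _ : T d L => μ with hP
  have hL := L_pos (L := L)
  have hM0 : (0 : ℝ) < M := by exact_mod_cast hM1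
  have hZ : 0 < ZZ d L M := by
    have := tsq_pos (d := d) (L := L) M hM1 hML
    unfold ZZ
    positivity
  have hKκ0 : 0 < K * κ := by positivity
  -- the sets of momenta
  set Mv : Finset (T d L) := Finset.univ.filter fun q => (s * κ) ^ 2 < kq q ∧ kq q < (K * κ) ^ 2
    with hMv
  set Sl : Finset (T d L) := Finset.univ.filter fun q => kq q ≤ (s * κ) ^ 2 with hSl
  have hcov : ∀ q, q ∈ Mv ∨ q ∈ Sl ∨ (K * κ) ^ 2 ≤ kq q := by
    intro q
    by_cases h1 : kq q ≤ (s * κ) ^ 2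
    · right; left
      rw [hSl, Finset.mem_filter]
      exact ⟨Finset.mem_univ _, h1⟩
    · by_cases h2 : (K * κ) ^ 2 ≤ kq q
      · right; right; exact h2
      · left
        rw [hMv, Finset.mem_filter]
        exact ⟨Finset.mem_univ _, not_le.1 h1, not_le.1 h2⟩
  have hMvq : ∀ q ∈ Mv, (s * κ) ^ 2 < kq q ∧ kq q < (K * κ) ^ 2 := by
    intro q hq
    rw [hMv, Finset.mem_filter] at hq
    exact hq.2
  -- times
  set t : ℕ → ℝ := fun j => τ * q0 ^ j with ht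
  set r : ℕ → ℝ := fun j => τ * q0 ^ j * s * κ / (2 * d) with hr
  have ht0 : ∀ j, 0 < t j := fun j => by rw [ht]; positivity
  have hr0 : ∀ j, 0 < r j := fun j => by rw [hr]; positivity
  have htT : ∀ j, t j ≤ τ := by
    intro j
    have : q0 ^ j ≤ 1 := pow_le_one₀ hq0.le hq1
    calc τ * q0 ^ j ≤ τ * 1 := by gcongr
      _ = τ := mul_one τ
  -- the packets
  have hun : ∀ q : T d L, 0 < ‖Ph M 0 q‖ := by
    intro q
    have h1 := Ph_norm M 0 q
    have h2 := tsq_pos (d := d) (L := L) M hM1 hML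
    by_contra hc
    have h3 : ‖Ph M 0 q‖ = 0 := le_antisymm (not_lt.1 hc) (norm_nonneg _)
    rw [h3] at h1
    norm_num at h1
    linarith
  have hσ : 2 ^ (d + 1) / (M : ℝ) ≤ ϑ * (K * κ) := by
    refine le_trans ?_ hMσ
    have : 0 ≤ 2 ^ (d + 1) / (M : ℝ) := by positivity
    nlinarith
  have hfar : ∀ j < J, ∀ q ∈ Mv, ∫ V, farm (vq (t j) q) (r j) (ev (HC lam V) (t j) (Ph M 0 q))
      ∂P ≤ e5 * tsq d L M := by
    intro j hj q hq
    have hq12 := hMvq q hq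
    have hkq : kq q ≤ (K * κ) ^ 2 := hq12.2.le
    have hdirq := Ph_dir hd1 M hM1 hML q ϑ (K * κ) hϑ1 hKκ0 hϑ hMσ hkq
    have hkq0 := kq_nonneg q
    have hsin : kq q ≤ ∑ i, Real.sin (th q i) ^ 2 + ϑ * (K * κ) ^ 2 := by
      have h1 := kq_le_sin q
      have h2 : kq q ^ 2 / 4 ≤ ϑ * (K * κ) ^ 2 := by
        calc kq q ^ 2 / 4 ≤ ((K * κ) ^ 2) ^ 2 / 4 := by gcongr
          _ = (K * κ) ^ 2 * (K * κ) ^ 2 / 4 := by ring
          _ ≤ (4 * ϑ) * (K * κ) ^ 2 / 4 := by gcongr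
          _ = _ := by ring
      linarith
    have hmK : m ≤ ϑ * (K * κ) ^ 2 := by
      refine hm2.trans ?_
      have : κ ^ 2 ≤ (K * κ) ^ 2 := by
        apply pow_le_pow_left₀ hκ.le
        nlinarith
      gcongr
    have hu2 : 0 ≤ ‖Ph M 0 q‖ ^ 2 := by positivity
    have hDir : Dir (fun y => (Ph M 0 q) y) + 3 * m * ‖Ph M 0 q‖ ^ 2 ≤
        (∑ i, Real.sin (th q i) ^ 2 + 7 * ϑ * (K * κ) ^ 2) * ‖Ph M 0 q‖ ^ 2 := by
      have h3 : 3 * m * ‖Ph M 0 q‖ ^ 2 ≤ 3 * (ϑ * (K * κ) ^ 2) * ‖Ph M 0 q‖ ^ 2 := by gcongr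
      calc _ ≤ (kq q + 3 * ϑ * (K * κ) ^ 2) * ‖Ph M 0 q‖ ^ 2 +
            3 * (ϑ * (K * κ) ^ 2) * ‖Ph M 0 q‖ ^ 2 := add_le_add hdirq h3
        _ = (kq q + 6 * ϑ * (K * κ) ^ 2) * ‖Ph M 0 q‖ ^ 2 := by ring
        _ ≤ _ := by
            apply mul_le_mul_of_nonneg_right _ hu2
            linarith
    have hmvar : ((2 * n : ℕ) : ℝ) * (4 * Dir (fun y => (Ph M 0 q) y) + 12 * m * ‖Ph M 0 q‖ ^ 2) ≤
        bb d * (θ * ‖Ph M 0 q‖) ^ 2 := by
      have h1 : Dir (fun y => (Ph M 0 q) y) ≤ (2 * (K * κ)) ^ 2 * ‖Ph M 0 q‖ ^ 2 := by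
        refine hdirq.trans (mul_le_mul_of_nonneg_right ?_ hu2)
        have : 3 * ϑ * (K * κ) ^ 2 ≤ 3 * (K * κ) ^ 2 := by
          have h5 : 0 < (K * κ) ^ 2 := by positivity
          nlinarith
        calc kq q + 3 * ϑ * (K * κ) ^ 2 ≤ (K * κ) ^ 2 + 3 * (K * κ) ^ 2 := by linarith
          _ = _ := by ring
      calc ((2 * n : ℕ) : ℝ) * (4 * Dir (fun y => (Ph M 0 q) y) + 12 * m * ‖Ph M 0 q‖ ^ 2)
          ≤ ((2 * n : ℕ) : ℝ) * (4 * ((2 * (K * κ)) ^ 2 * ‖Ph M 0 q‖ ^ 2) +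
            12 * m * ‖Ph M 0 q‖ ^ 2) := by gcongr
        _ = ((2 * n : ℕ) : ℝ) * (4 * (2 * (K * κ)) ^ 2 + 12 * m) * ‖Ph M 0 q‖ ^ 2 := by ring
        _ ≤ bb d * θ ^ 2 * ‖Ph M 0 q‖ ^ 2 := by gcongr
        _ = _ := by ring
    have hfarT := far_torus μ hd1 lam c0 θ m G hGm hG (Ph M 0 q) (norm_pos_iff.1 (hun q))
      (th q) ϑ (K * κ) (√d * M) (r j) (t j) β hϑ hϑ1 hθ hθϑ hKκ0 (hr0 j) (ht0 j).le hβ
      ((sin_le_kq q).trans hkq) hDir
      (fun i => (Ph_mom M hM1 hML q i).trans (by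
        have := hun q
        gcongr))
      (by
        rw [mul_pow, Real.sq_sqrt (by positivity)]
        exact Ph_Q M q)
      M Nt (Ph_supp' M q) hMN (by
        refine le_trans ?_ hNt
        have := htT j
        gcongr) htail
      (fun s' hs' => by
        obtain ⟨mm, hmm⟩ := HM L lam c0 θ m θ μ hμ G hGm hG hθ hθ n n' hn1 hn2 hn3 (Ph M 0 q)
          hmvar s'
        refine ⟨mm, hmm.trans ?_⟩
        rw [mul_pow β]
        apply mul_le_mul_of_nonneg_right _ hu2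
        refine le_trans ?_ hβ2
        have h6 : |s'| ≤ τ := by
          rw [abs_of_nonneg hs'.1]
          exact hs'.2.trans (htT j)
        gcongr)
    refine hfarT.trans ?_
    rw [Ph_norm]
    apply mul_le_mul_of_nonneg_right _ (tsq_pos (d := d) (L := L) M hM1 hML).le
    exact herr j hj
  -- Markov
  obtain ⟨hFi, hFm⟩ := FF_mean μ lam M J r t Mv e5 he5 hfar
  set B : ℝ := J * (Mv.card : ℝ) * e5 * ZZ d L M with hB
  obtain ⟨hG1m, hG1P⟩ := markov P (fun V => FF lam M J r t Mv V)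
    (FF_cont lam M J r t Mv).measurable (fun V => FF_nonneg lam M J r t Mv V) hFi B (ε / 2)
    (by positivity) hFm
  set G1 : Set (T d L → ℝ) := {V | ε / 2 * FF lam M J r t Mv V ≤ B} with hG1
  refine ⟨G ∩ G1, hGm.inter hG1m, ?_, ?_⟩
  · have h1 : P.real (G ∩ G1)ᶜ ≤ P.real Gᶜ + P.real G1ᶜ := by
      rw [Set.compl_inter]
      exact measureReal_union_le _ _
    have h2 := probReal_add_probReal_compl (μ := P) (hGm.inter hG1m)
    have h3 := probReal_add_probReal_compl (μ := P) hG1m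
    linarith
  · intro V hV b E hb
    obtain ⟨ψ, h⟩ := hG V hV.1
    have hκ1 : κ ≤ 1 := by nlinarith
    have hW := win_card hd1 h b E hb κ hκ hκ1 hm1
    refine ⟨hW, ?_⟩
    intro S hS hSε
    have hMκ : d * (2 ^ (d + 1) / (M : ℝ)) ^ 2 ≤ κ ^ 2 := by
      have h1 : d * (2 ^ (d + 1) / (M : ℝ)) ≤ κ := by
        refine hMσ.trans ?_
        calc ϑ * (K * κ) = (ϑ * K) * κ := by ring
          _ ≤ 1 * κ := by gcongr
          _ = κ := one_mul κ
      have h2 : 2 ^ (d + 1) / (M : ℝ) ≤ κ := by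
        refine le_trans ?_ h1
        have : 0 ≤ 2 ^ (d + 1) / (M : ℝ) := by positivity
        nlinarith
      calc d * (2 ^ (d + 1) / (M : ℝ)) ^ 2 = (d * (2 ^ (d + 1) / (M : ℝ))) * (2 ^ (d + 1) / M) := by
            ring
        _ ≤ κ * κ := by gcongr
        _ = κ ^ 2 := by ring
    have hcnt := count h hd1 M hM1 hML b E hb κ (K * κ) 0 hκ hKκ0 hm1 hMκ S hS Mv Sl hcov R
      (R + M) (R + M) (by omega) le_rfl le_rfl J r
      (fun j => 2 * r j + 2 * t j * (K * κ)) r (fun j => 2 * t j * (K * κ)) t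
      (fun j => (hr0 j).le)
      (fun j hj q hq => by
        have hq12 := hMvq q hq
        have h1 := kq_le_sin q
        have hkq1 : kq q ≤ 1 := hq12.2.le.trans (pow_le_one₀ hKκ0.le hKκ)
        have hkq0 := kq_nonneg q
        have h2 : 3 / 4 * (s * κ) ^ 2 ≤ ∑ i, Real.sin (th q i) ^ 2 := by nlinarith
        have h3 : ∑ i, vq (t j) q i ^ 2 = 4 * t j ^ 2 * ∑ i, Real.sin (th q i) ^ 2 := by
          rw [Finset.mul_sum]
          refine Finset.sum_congr rfl fun i _ => ?_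
          unfold vq
          ring
        rw [h3]
        have h4 : ((R + M : ℕ) : ℝ) + ((R + M : ℕ) : ℝ) ≤ r j := by
          push_cast
          have := hR j hj
          show (R : ℝ) + M + (R + M) ≤ τ * q0 ^ j * s * κ / (2 * d)
          linarith
        have hrj := hr0 j
        have h5 : r j + r j + (((R + M : ℕ) : ℝ) + ((R + M : ℕ) : ℝ)) ≤ 3 * r j := by linarith
        have h6 : 0 ≤ r j + r j + (((R + M : ℕ) : ℝ) + ((R + M : ℕ) : ℝ)) := by positivity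
        calc (d : ℝ) * (r j + r j + (((R + M : ℕ) : ℝ) + ((R + M : ℕ) : ℝ))) ^ 2
            ≤ d * (3 * r j) ^ 2 := by gcongr
          _ = d * (3 * (t j * s * κ / (2 * d))) ^ 2 := rfl
          _ = 9 / (4 * d) * (t j ^ 2 * (s * κ) ^ 2) := by field_simp; ring
          _ ≤ 9 / (4 * 1) * (t j ^ 2 * (s * κ) ^ 2) := by gcongr
          _ ≤ 4 * t j ^ 2 * (3 / 4 * (s * κ) ^ 2) := by
              have : 0 ≤ t j ^ 2 * (s * κ) ^ 2 := by positivity
              linarith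
          _ ≤ _ := by gcongr)
      (fun j hj q hq i => by
        have hq12 := hMvq q hq
        have h1 : Real.sin (th q i) ^ 2 ≤ (K * κ) ^ 2 := by
          have h2 := sin_le_kq q
          have h3 : Real.sin (th q i) ^ 2 ≤ ∑ i, Real.sin (th q i) ^ 2 :=
            Finset.single_le_sum (f := fun i => Real.sin (th q i) ^ 2)
              (fun i _ => sq_nonneg _) (Finset.mem_univ i)
          linarith
        have h2 : |Real.sin (th q i)| ≤ K * κ := abs_le_of_sq_le_sq h1 hKκ0.le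
        have h3 := ht0 j
        show |t j * (2 * Real.sin (th q i))| ≤ 2 * t j * (K * κ)
        rw [abs_mul (t j), abs_mul (2 : ℝ), abs_of_pos h3, abs_of_pos (show (0 : ℝ) < 2 by norm_num)]
        calc t j * (2 * |Real.sin (th q i)|) ≤ t j * (2 * (K * κ)) := by gcongr
          _ = _ := by ring)
      (fun j hj => by
        have h4 : ((R + M : ℕ) : ℝ) + ((R + M : ℕ) : ℝ) ≤ r j := by
          push_cast
          have := hR j hj
          show (R : ℝ) + M + (R + M) ≤ τ * q0 ^ j * s * κ / (2 * d)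
          linarith
        show ((R + M : ℕ) : ℝ) + ((R + M : ℕ) : ℝ) + 2 * t j * (K * κ) + r j ≤
          2 * r j + 2 * t j * (K * κ)
        linarith)
      (fun i j hij hj => by
        show 2 * r j + 2 * t j * (K * κ) < r i
        have h1 : t j ≤ t i * q0 := by
          show τ * q0 ^ j ≤ τ * q0 ^ i * q0
          rw [mul_assoc, ← pow_succ]
          have : q0 ^ j ≤ q0 ^ (i + 1) := pow_le_pow_of_le_one hq0.le hq1 hij
          gcongr
        have hti := ht0 i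
        have htj := ht0 j
        have e1 : r j = t j * s * κ / (2 * d) := rfl
        have e2 : r i = t i * s * κ / (2 * d) := rfl
        rw [e1, e2, lt_div_iff₀ (by positivity)]
        have h2 : (2 * (t j * s * κ / (2 * d)) + 2 * t j * (K * κ)) * (2 * d) =
            t j * κ * (2 * s + 4 * d * K) := by
          field_simp
          ring
        rw [h2]
        have h3 : 2 * s + 4 * d * K < 7 * d * K := by
          have : 1 * 1 ≤ (d : ℝ) * K := by gcongr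
          nlinarith
        calc t j * κ * (2 * s + 4 * d * K) < t j * κ * (7 * d * K) := by gcongr
          _ ≤ t i * q0 * κ * (7 * d * K) := by gcongr
          _ = t i * κ * (7 * d * K * q0) := by ring
          _ ≤ t i * κ * s := by gcongr
          _ = t i * s * κ := by ring)
      ε hJ hSε
    have hFF : ∑ j ∈ Finset.range J, ∑ p : T d L × T d L,
        (if p.2 ∈ Mv then Fm lam V M (vq (t j) p.2) (r j) (t j) p.1 p.2 else 0) =
        FF lam M J r t Mv V := by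
      unfold FF
      rfl
    rw [hFF] at hcnt
    have hV2 : ε / 2 * FF lam M J r t Mv V ≤ B := hV.2
    have hFB : FF lam M J r t Mv V ≤ 2 / ε * B := by
      rw [div_mul_eq_mul_div, le_div_iff₀ hε]
      linarith
    -- cardinalities
    have hSlc : (Sl.card : ℝ) ≤ (s * κ * L) ^ d := cntq_le (s * κ) (by positivity) hsL
    have hMvc : (Mv.card : ℝ) ≤ (K * κ * L) ^ d := by
      have h1 : Mv ⊆ Finset.univ.filter fun q => kq q ≤ (K * κ) ^ 2 := by
        intro q hq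
        rw [Finset.mem_filter]
        exact ⟨Finset.mem_univ _, (hMvq q hq).2.le⟩
      have h2 := cntq_le (d := d) (L := L) (K * κ) hKκ0 (by
        refine hsL.trans ?_
        have : s ≤ K := hs1.trans hK
        gcongr)
      refine le_trans ?_ h2
      exact_mod_cast Finset.card_le_card h1
    have hκL : 0 ≤ κ * L := by positivity
    -- divide by Z
    have hdiv : (S.card : ℝ) ≤ J * ((Sl.card : ℝ) + (12 / K ^ 2 + 2 * θ ^ 2) * (S.card : ℝ)) +
        6 ^ d * (2 / ε * (J * (Mv.card : ℝ) * e5)) := by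
      have e1 : 12 * κ ^ 2 / (K * κ) ^ 2 = 12 / K ^ 2 := by
        field_simp
      rw [e1] at hcnt
      have h1 : ZZ d L M * (S.card : ℝ) ≤ ZZ d L M * (J * ((Sl.card : ℝ) +
          (12 / K ^ 2 + 2 * θ ^ 2) * (S.card : ℝ)) + 6 ^ d * (2 / ε * (J * (Mv.card : ℝ) * e5))) := by
        calc ZZ d L M * (S.card : ℝ) ≤ _ := hcnt
          _ ≤ J * (ZZ d L M * (Sl.card : ℝ) + ZZ d L M * ((12 / K ^ 2 + 2 * θ ^ 2) * (S.card : ℝ))) +
              6 ^ d * (2 / ε * B) := by gcongr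
          _ = _ := by rw [hB]; ring
      exact le_of_mul_le_mul_left h1 hZ
    have hS0 : (0 : ℝ) ≤ S.card := Nat.cast_nonneg _
    have h1 : J * ((12 / K ^ 2 + 2 * θ ^ 2) * (S.card : ℝ)) ≤ 1 / 2 * (S.card : ℝ) := by
      calc J * ((12 / K ^ 2 + 2 * θ ^ 2) * (S.card : ℝ)) =
            (J * (12 / K ^ 2 + 2 * θ ^ 2)) * (S.card : ℝ) := by ring
        _ ≤ _ := by gcongr
    have h2 : (S.card : ℝ) ≤ 2 * (J * (s * κ * L) ^ d + 6 ^ d * (2 / ε * (J * (K * κ * L) ^ d * e5))) := by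
      have h3 : J * (Sl.card : ℝ) ≤ J * (s * κ * L) ^ d := by gcongr
      have h4 : 6 ^ d * (2 / ε * (J * (Mv.card : ℝ) * e5)) ≤
          6 ^ d * (2 / ε * (J * (K * κ * L) ^ d * e5)) := by gcongr
      rw [mul_add] at hdiv
      linarith
    calc (S.card : ℝ) ≤ 2 * (J * (s * κ * L) ^ d + 6 ^ d * (2 / ε * (J * (K * κ * L) ^ d * e5))) := h2
      _ = 2 * J * (s ^ d + 6 ^ d * K ^ d * e5 * (2 / ε)) * (κ * L) ^ d := by
          rw [mul_assoc s κ, mul_assoc K κ, mul_pow s, mul_pow K]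
          ring
      _ ≤ ε / (28 * d) ^ d * (κ * L) ^ d := by gcongr
      _ = ε * (κ * L / (28 * d)) ^ d := by rw [div_pow]; ring
      _ ≤ _ := by gcongr

end Pool.Agent.V8H95.EF
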