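import Pool.Agent.V8H95.EF.Pk

/-!
The eigenfunctions at the bottom of the spectrum: number and kinetic energy.
-/

set_option autoImplicit false
set_option linter.unusedSectionVars false

open Complex
open scoped BigOperators ComplexConjugate

namespace Pool.Agent.V8H95.EF

open Pool.Agent.H4R2.AE Pool.Agent.V8H99.AD Pool.Agent.V8H95.MF Pool.Agent.V8H95.BW

variable {d L : ℕ} [NeZero L] {lam c0 η m : ℝ} {V ψ : T d L → ℝ}

theorem k1q_na (q : T d L) (i : Fin d) :
    k1q q i = 4 * Real.sin (Real.pi * (na (q i) : ℝ) / L) ^ 2 := by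
  have h0 : ch q (Pi.single i 1) =
      Complex.exp (((2 * (Real.pi * ((q i).valMinAbs : ℝ) / L) : ℝ) : ℂ) * Complex.I) := by
    rw [ch_single']
    have h1 := ZMod.stdAddChar_coe (N := L) (q i).valMinAbs
    rw [ZMod.coe_valMinAbs] at h1
    rw [h1]
    congr 1
    push_cast
    ring
  have h2 : ∀ a : ℝ, ‖Complex.exp (((2 * a : ℝ) : ℂ) * Complex.I) - 1‖ ^ 2 =
      4 * Real.sin a ^ 2 := by
    intro a
    rw [← Complex.normSq_eq_norm_sq, Complex.normSq_apply]
    have h3 : (Complex.exp (((2 * a : ℝ) : ℂ) * Complex.I) - 1).re = Real.cos (2 * a) - 1 := by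
      rw [Complex.sub_re, Complex.exp_ofReal_mul_I_re, Complex.one_re]
    have h4 : (Complex.exp (((2 * a : ℝ) : ℂ) * Complex.I) - 1).im = Real.sin (2 * a) := by
      rw [Complex.sub_im, Complex.exp_ofReal_mul_I_im, Complex.one_im, sub_zero]
    rw [h3, h4, Real.cos_two_mul, Real.sin_two_mul]
    have := Real.sin_sq_add_cos_sq a
    have h5 : Real.cos a ^ 2 = 1 - Real.sin a ^ 2 := by linarith
    calc (2 * Real.cos a ^ 2 - 1 - 1) * (2 * Real.cos a ^ 2 - 1 - 1) +
          2 * Real.sin a * Real.cos a * (2 * Real.sin a * Real.cos a)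
        = (2 * Real.cos a ^ 2 - 2) ^ 2 + 4 * Real.sin a ^ 2 * Real.cos a ^ 2 := by ring
      _ = (2 * (1 - Real.sin a ^ 2) - 2) ^ 2 + 4 * Real.sin a ^ 2 * (1 - Real.sin a ^ 2) := by
          rw [h5]
      _ = _ := by ring
  unfold k1q
  rw [h0, h2]
  have h6 : (na (q i) : ℝ) = |((q i).valMinAbs : ℝ)| := by
    unfold na
    rw [Nat.cast_natAbs, Int.cast_abs]
  rw [h6]
  rcases abs_cases ((q i).valMinAbs : ℝ) with ⟨h7, _⟩ | ⟨h7, _⟩
  · rw [h7]
  · rw [h7, mul_neg, neg_div, Real.sin_neg, neg_sq]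

theorem na_half (a : ZMod L) : 2 * (na a : ℝ) ≤ L := by
  have h := ZMod.natAbs_valMinAbs_le a
  have h2 : 2 * na a ≤ L := by
    unfold na
    omega
  exact_mod_cast h2

theorem L_pos : (0 : ℝ) < L := by exact_mod_cast NeZero.pos L

theorem k1q_up (q : T d L) (i : Fin d) : k1q q i ≤ (7 * (na (q i) : ℝ) / L) ^ 2 := by
  rw [k1q_na]
  have hL := L_pos (L := L)
  have h1 : 0 ≤ Real.pi * (na (q i) : ℝ) / L := by positivity
  have h2 := Real.sin_le h1
  have h3 : 0 ≤ Real.sin (Real.pi * (na (q i) : ℝ) / L) := by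
    apply Real.sin_nonneg_of_nonneg_of_le_pi h1
    rw [div_le_iff₀ hL]
    have := na_half (q i)
    have : (na (q i) : ℝ) ≤ L := by
      have : (0 : ℝ) ≤ na (q i) := Nat.cast_nonneg _
      linarith
    gcongr
  have h4 : Real.sin (Real.pi * (na (q i) : ℝ) / L) ^ 2 ≤ (Real.pi * (na (q i) : ℝ) / L) ^ 2 :=
    pow_le_pow_left₀ h3 h2 2
  have h5 : Real.pi * (na (q i) : ℝ) / L ≤ 7 / 2 * (na (q i) : ℝ) / L := by
    have := Real.pi_lt_d2
    gcongr
    linarith
  have h6 := pow_le_pow_left₀ h1 h5 2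
  calc _ ≤ 4 * (7 / 2 * (na (q i) : ℝ) / L) ^ 2 := by linarith
    _ = _ := by ring

theorem k1q_lo (q : T d L) (i : Fin d) : (4 * (na (q i) : ℝ) / L) ^ 2 ≤ k1q q i := by
  rw [k1q_na]
  have hL := L_pos (L := L)
  have h1 : 0 ≤ Real.pi * (na (q i) : ℝ) / L := by positivity
  have h3 : Real.pi * (na (q i) : ℝ) / L ≤ Real.pi / 2 := by
    rw [div_le_iff₀ hL]
    have := na_half (q i)
    have hp := Real.pi_pos
    nlinarith
  have h4 := Real.mul_le_sin h1 h3
  have h5 : 2 / Real.pi * (Real.pi * (na (q i) : ℝ) / L) = 2 * (na (q i) : ℝ) / L := by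
    have := Real.pi_pos
    field_simp
  rw [h5] at h4
  have h6 := pow_le_pow_left₀ (by positivity) h4 2
  calc (4 * (na (q i) : ℝ) / L) ^ 2 = 4 * (2 * (na (q i) : ℝ) / L) ^ 2 := by ring
    _ ≤ _ := by linarith

/-- the number of slow plane waves, from above -/
theorem cntq_le (s : ℝ) (hs : 0 < s) (hsL : 2 ≤ s * L) :
    (((Finset.univ : Finset (T d L)).filter fun q => kq q ≤ s ^ 2).card : ℝ) ≤ (s * L) ^ d := by
  have hL := L_pos (L := L)
  set r : ℕ := ⌊s * L / 4⌋₊ with hr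
  have h1 : ((Finset.univ : Finset (T d L)).filter fun q => kq q ≤ s ^ 2) ⊆
      (Finset.univ : Finset (T d L)).filter fun q => nn q ≤ r := by
    intro q hq
    rw [Finset.mem_filter] at hq ⊢
    refine ⟨hq.1, nn_le fun i => ?_⟩
    rw [hr, Nat.le_floor_iff (by positivity)]
    have h2 := (k1q_lo q i).trans ((k1q_le q i).trans hq.2)
    have h3 := (pow_le_pow_iff_left₀ (by positivity) hs.le two_ne_zero).1 h2
    rw [div_le_iff₀ hL] at h3
    linarith
  have h2 := (Finset.card_le_card h1).trans (cnt_le (d := d) (L := L) r)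
  have h3 : (r : ℝ) ≤ s * L / 4 := Nat.floor_le (by positivity)
  calc (((Finset.univ : Finset (T d L)).filter fun q => kq q ≤ s ^ 2).card : ℝ)
      ≤ (2 * (r : ℝ) + 1) ^ d := by exact_mod_cast h2
    _ ≤ (s * L) ^ d := by
        gcongr
        linarith

/-- the number of slow plane waves, from below -/
theorem cntq_ge (hd : 1 ≤ d) (s : ℝ) (hs : 0 < s) (hs1 : s ≤ 1) :
    (s * L / (7 * d)) ^ d ≤
      (((Finset.univ : Finset (T d L)).filter fun q => kq q ≤ s ^ 2).card : ℝ) := by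
  have hL := L_pos (L := L)
  have hd0 : (1 : ℝ) ≤ d := by exact_mod_cast hd
  set r : ℕ := ⌊s * L / (7 * d)⌋₊ with hr
  have h3 : (r : ℝ) ≤ s * L / (7 * d) := Nat.floor_le (by positivity)
  have hrL : r ≤ L / 2 := by
    have : (r : ℝ) ≤ L / 2 := by
      refine h3.trans ?_
      rw [div_le_div_iff₀ (by positivity) (by norm_num)]
      have h4 : s * L * 2 ≤ 1 * L * 2 := by gcongr
      have h5 : (L : ℝ) * 1 ≤ L * d := by gcongr
      linarith
    have h4 : 2 * r ≤ L := by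
      have : (2 : ℝ) * r ≤ L := by linarith
      exact_mod_cast this
    omega
  have h1 : ((Finset.univ : Finset (T d L)).filter fun q => nn q ≤ r) ⊆
      (Finset.univ : Finset (T d L)).filter fun q => kq q ≤ s ^ 2 := by
    intro q hq
    rw [Finset.mem_filter] at hq ⊢
    refine ⟨hq.1, ?_⟩
    have h4 : ∀ i, k1q q i ≤ (s / d) ^ 2 := by
      intro i
      refine (k1q_up q i).trans (pow_le_pow_left₀ (by positivity) ?_ 2)
      have h5 : na (q i) ≤ r := (na_le_nn q i).trans hq.2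
      have h6 : (na (q i) : ℝ) ≤ s * L / (7 * d) := by
        refine le_trans ?_ h3
        exact_mod_cast h5
      rw [div_le_div_iff₀ hL (by positivity)]
      rw [le_div_iff₀ (by positivity)] at h6
      linarith
    unfold kq
    refine (Finset.sum_le_sum fun i _ => h4 i).trans ?_
    rw [Finset.sum_const, Finset.card_univ, Fintype.card_fin, nsmul_eq_mul, div_pow]
    rw [← mul_div_assoc, div_le_iff₀ (by positivity)]
    have : s ^ 2 * d * 1 ≤ s ^ 2 * d * d := by gcongr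
    linarith
  have h2 := (cnt_ge (d := d) (L := L) r hrL).trans (Finset.card_le_card h1)
  have h5 : s * L / (7 * d) ≤ ((r + 1 : ℕ) : ℝ) := by
    push_cast
    exact (Nat.lt_floor_add_one _).le
  calc (s * L / (7 * d)) ^ d ≤ (((r + 1 : ℕ) : ℝ)) ^ d := by gcongr
    _ ≤ _ := by exact_mod_cast h2

/-- Plancherel for the Dirichlet form -/
theorem dir_ft (g : XT d L) : (L : ℝ) ^ d * Dir (fun y => g y) = ∑ q, kq q * ‖ft g q‖ ^ 2 := by
  rw [dir_Sh, Finset.mul_sum]
  have h1 : ∀ i : Fin d, (L : ℝ) ^ d * ‖Sh i g - g‖ ^ 2 = ∑ q, k1q q i * ‖ft g q‖ ^ 2 := by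
    intro i
    rw [← parseval_norm]
    refine Finset.sum_congr rfl fun q _ => ?_
    rw [ft_sub, ft_sh]
    have e : ch q (Pi.single i 1) * ft g q - ft g q = (ch q (Pi.single i 1) - 1) * ft g q := by ring
    rw [e, norm_mul, mul_pow]
    rfl
  simp only [h1]
  rw [Finset.sum_comm]
  refine Finset.sum_congr rfl fun q _ => ?_
  rw [← Finset.sum_mul]
  rfl

section
variable (b : OrthonormalBasis (T d L) ℂ (XT d L)) (E : T d L → ℝ)
  (hb : ∀ α, HC lam V (b α) = ((E α : ℝ) : ℂ) • b α)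
include hb

theorem expand (f : XT d L) :
    (inner ℂ f (HC lam V f - ((c0 : ℝ) : ℂ) • f)).re =
      ∑ α, (E α - c0) * ‖(inner ℂ (b α) f : ℂ)‖ ^ 2 := by
  have h1 : inner ℂ f (HC lam V f - ((c0 : ℝ) : ℂ) • f) =
      ((∑ α, (E α - c0) * ‖(inner ℂ (b α) f : ℂ)‖ ^ 2 : ℝ) : ℂ) := by
    rw [← b.sum_inner_mul_inner f, Complex.ofReal_sum]
    refine Finset.sum_congr rfl fun α _ => ?_
    rw [inner_sub_right, inner_smul_right, ← HC_symm, hb, inner_smul_left, Complex.conj_ofReal,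
      ← inner_conj_symm f (b α)]
    have e : (starRingEnd ℂ) (inner ℂ (b α) f) * ((E α : ℂ) * inner ℂ (b α) f -
        (c0 : ℂ) * inner ℂ (b α) f) = ((E α : ℂ) - (c0 : ℂ)) *
          (inner ℂ (b α) f * (starRingEnd ℂ) (inner ℂ (b α) f)) := by ring
    rw [e, Complex.mul_conj, Complex.normSq_eq_norm_sq]
    push_cast
    ring
  rw [h1, Complex.ofReal_re]

theorem mass_b (f : XT d L) : ∑ α, ‖(inner ℂ (b α) f : ℂ)‖ ^ 2 = ‖f‖ ^ 2 :=
  b.sum_sq_norm_inner_right f

theorem E_ge (h : Gd lam c0 η m V ψ) (α : T d L) : c0 ≤ E α := by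
  have h1 := dir_le' h (und ψ (b α))
  rw [mu_und h] at h1
  have h2 : inner ℂ (b α) (HC lam V (b α) - ((c0 : ℝ) : ℂ) • b α) = ((E α - c0 : ℝ) : ℂ) := by
    rw [hb, ← sub_smul, inner_smul_right, inner_self_eq_norm_sq_to_K, b.norm_eq_one]
    push_cast
    ring
  rw [h2, Complex.ofReal_re] at h1
  have := Dir_nonneg (fun y => (und ψ (b α)) y)
  linarith

theorem dir_b (h : Gd lam c0 η m V ψ) (α : T d L) :
    Dir (fun y => (und ψ (b α)) y) ≤ E α - c0 := by
  have h1 := dir_le' h (und ψ (b α))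
  rw [mu_und h] at h1
  have h2 : inner ℂ (b α) (HC lam V (b α) - ((c0 : ℝ) : ℂ) • b α) = ((E α - c0 : ℝ) : ℂ) := by
    rw [hb, ← sub_smul, inner_smul_right, inner_self_eq_norm_sq_to_K, b.norm_eq_one]
    push_cast
    ring
  rwa [h2, Complex.ofReal_re] at h1

theorem E_low (h : Gd lam c0 η m V ψ) : ∃ β, E β ≤ c0 + 3 * m := by
  set f : XT d L := Mu ψ (WithLp.toLp 2 fun _ => 1) with hf
  have h1 := energy' h (WithLp.toLp 2 fun _ => (1 : ℂ))
  have h2 : ∑ i : Fin d, ∑ x, ψ x * ψ (x + Pi.single i 1) *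
      ‖(WithLp.toLp 2 fun _ : T d L => (1 : ℂ) : XT d L) x -
        (WithLp.toLp 2 fun _ : T d L => (1 : ℂ) : XT d L) (x + Pi.single i 1)‖ ^ 2 = 0 := by
    refine Finset.sum_eq_zero fun i _ => Finset.sum_eq_zero fun x _ => ?_
    show ψ x * ψ (x + Pi.single i 1) * ‖(1 : ℂ) - 1‖ ^ 2 = 0
    simp
  rw [h2, zero_add] at h1
  have h3 := (gg_sum h f).2
  rw [← h1, expand b E hb, ← mass_b b E hb, Finset.mul_sum] at h3
  have hf0 : 0 < ∑ α, ‖(inner ℂ (b α) f : ℂ)‖ ^ 2 := by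
    rw [mass_b b E hb]
    have h4 : f (0 : T d L) ≠ 0 := by
      rw [hf, Mu_apply]
      have : ψ (0 : T d L) ≠ 0 := (lt_of_lt_of_le one_pos (h.lo 0)).ne'
      simpa using this
    have h5 : f ≠ 0 := fun h6 => h4 (by rw [h6]; rfl)
    have := norm_pos_iff.2 h5
    positivity
  by_contra hc
  push Not at hc
  obtain ⟨β, -, hβ⟩ : ∃ β ∈ (Finset.univ : Finset (T d L)), 0 < ‖(inner ℂ (b β) f : ℂ)‖ ^ 2 := by
    by_contra hcon
    push Not at hcon
    have := Finset.sum_nonpos hcon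
    linarith
  have h6 : ∑ α, 3 * m * ‖(inner ℂ (b α) f : ℂ)‖ ^ 2 <
      ∑ α, (E α - c0) * ‖(inner ℂ (b α) f : ℂ)‖ ^ 2 := by
    refine Finset.sum_lt_sum (fun α _ => ?_) ⟨β, Finset.mem_univ β, ?_⟩
    · apply mul_le_mul_of_nonneg_right _ (by positivity)
      linarith [hc α]
    · apply mul_lt_mul_of_pos_right _ hβ
      linarith [hc β]
  linarith

end

/-- the eigenvalues at most `κ²` above the lowest one -/
noncomputable def win (E : T d L → ℝ) (κ : ℝ) : Finset (T d L) :=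
  (Finset.univ : Finset (T d L)).filter fun α => ∀ β, E α ≤ E β + κ ^ 2

/-- the number of eigenvalues in the window -/
theorem win_card (hd : 1 ≤ d) (h : Gd lam c0 η m V ψ)
    (b : OrthonormalBasis (T d L) ℂ (XT d L)) (E : T d L → ℝ)
    (hb : ∀ α, HC lam V (b α) = ((E α : ℝ) : ℂ) • b α) (κ : ℝ) (hκ : 0 < κ) (hκ1 : κ ≤ 1)
    (hm : 48 * m ≤ κ ^ 2) :
    (κ * L / (28 * d)) ^ d ≤ ((win E κ).card : ℝ) := by
  have hd0 : (1 : ℝ) ≤ d := by exact_mod_cast hd
  have hL := L_pos (L := L)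
  set Q0 : Finset (T d L) := (Finset.univ : Finset (T d L)).filter fun q => kq q ≤ (κ / 4) ^ 2
    with hQ0
  have hQ := cntq_ge (L := L) hd (κ / 4) (by positivity) (by linarith)
  rw [← hQ0] at hQ
  have e0 : κ / 4 * L / (7 * d) = κ * L / (28 * d) := by
    field_simp
    norm_num
  rw [e0] at hQ
  refine hQ.trans ?_
  rw [Nat.cast_le]
  by_contra hlt
  push Not at hlt
  set W := win E κ with hW
  let Λ : XT d L →ₗ[ℂ] ({q : T d L // q ∉ Q0} ⊕ {α : T d L // α ∈ W} → ℂ) :=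
    { toFun := fun g s => Sum.elim (fun q : {q : T d L // q ∉ Q0} => ft g q)
        (fun α : {α : T d L // α ∈ W} => inner ℂ (b α) (Mu ψ g)) s
      map_add' := fun f g => by
        funext s
        rcases s with q | α
        · show ft (f + g) q = ft f q + ft g q
          unfold ft
          rw [← Finset.sum_add_distrib]
          exact Finset.sum_congr rfl fun x _ => by rw [PiLp.add_apply, mul_add]
        · show inner ℂ (b α) (Mu ψ (f + g)) = inner ℂ (b α) (Mu ψ f) + inner ℂ (b α) (Mu ψ g)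
          rw [map_add, inner_add_right]
      map_smul' := fun c g => by
        funext s
        rcases s with q | α
        · show ft (c • g) q = c * ft g q
          unfold ft
          rw [Finset.mul_sum]
          refine Finset.sum_congr rfl fun x _ => ?_
          rw [PiLp.smul_apply, smul_eq_mul]
          ring
        · show inner ℂ (b α) (Mu ψ (c • g)) = c * inner ℂ (b α) (Mu ψ g)
          rw [map_smul, inner_smul_right] }
  have hfr : Module.finrank ℂ ({q : T d L // q ∉ Q0} ⊕ {α : T d L // α ∈ W} → ℂ) <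
      Module.finrank ℂ (XT d L) := by
    rw [Module.finrank_fintype_fun_eq_card, finrank_euclideanSpace, Fintype.card_sum,
      Fintype.card_coe]
    have h1 : Fintype.card {q : T d L // q ∉ Q0} = Fintype.card (T d L) - Q0.card := by
      rw [Fintype.card_subtype_compl, Fintype.card_coe]
    rw [h1]
    have h2 : Q0.card ≤ Fintype.card (T d L) := Finset.card_le_univ Q0
    omega
  obtain ⟨g, hg1, hg2⟩ := Submodule.exists_mem_ne_zero_of_ne_bot
    (LinearMap.ker_ne_bot_of_finrank_lt (f := Λ) hfr)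
  rw [LinearMap.mem_ker] at hg1
  have hq : ∀ q, q ∉ Q0 → ft g q = 0 := fun q hq => congrFun hg1 (Sum.inl ⟨q, hq⟩)
  have hα : ∀ α ∈ W, inner ℂ (b α) (Mu ψ g) = 0 := fun α hα => congrFun hg1 (Sum.inr ⟨α, hα⟩)
  have hdir : Dir (fun y => g y) ≤ (κ / 4) ^ 2 * ‖g‖ ^ 2 := by
    have h1 : (L : ℝ) ^ d * Dir (fun y => g y) ≤ (L : ℝ) ^ d * ((κ / 4) ^ 2 * ‖g‖ ^ 2) := by
      rw [dir_ft]
      have e : (L : ℝ) ^ d * ((κ / 4) ^ 2 * ‖g‖ ^ 2) = ∑ q, (κ / 4) ^ 2 * ‖ft g q‖ ^ 2 := by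
        rw [← Finset.mul_sum, parseval_norm]
        ring
      rw [e]
      refine Finset.sum_le_sum fun q _ => ?_
      by_cases hqq : q ∈ Q0
      · rw [hQ0, Finset.mem_filter] at hqq
        exact mul_le_mul_of_nonneg_right hqq.2 (by positivity)
      · rw [hq q hqq]; simp
    exact le_of_mul_le_mul_left h1 (by positivity)
  have hen := energy_le h g
  rw [expand b E hb] at hen
  have hgn : ‖g‖ ^ 2 ≤ ‖Mu ψ g‖ ^ 2 := by
    refine pow_le_pow_left₀ (norm_nonneg _) ?_ 2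
    have h1 := und_norm h (Mu ψ g)
    have h2 : und ψ (Mu ψ g) = g := by
      ext x
      unfold und
      rw [Mu_apply, Mu_apply, ← mul_assoc, ← Complex.ofReal_mul,
        inv_mul_cancel₀ (lt_of_lt_of_le one_pos (h.lo x)).ne', Complex.ofReal_one, one_mul]
    rwa [h2] at h1
  have hlow : κ ^ 2 * ‖Mu ψ g‖ ^ 2 ≤ ∑ α, (E α - c0) * ‖(inner ℂ (b α) (Mu ψ g) : ℂ)‖ ^ 2 := by
    rw [← mass_b b E hb, Finset.mul_sum]
    refine Finset.sum_le_sum fun α _ => ?_
    by_cases hαW : α ∈ W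
    · rw [hα α hαW]; simp
    · apply mul_le_mul_of_nonneg_right _ (by positivity)
      rw [hW, win, Finset.mem_filter] at hαW
      push Not at hαW
      obtain ⟨β, hβ⟩ := hαW (Finset.mem_univ α)
      have := E_ge b E hb h β
      linarith
  have hgpos : 0 < ‖g‖ ^ 2 := by
    have := norm_pos_iff.2 hg2
    positivity
  have hκ2 : 0 < κ ^ 2 := by positivity
  nlinarith

/-- the kinetic energy of the eigenfunctions in the window -/
theorem win_dir (h : Gd lam c0 η m V ψ)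
    (b : OrthonormalBasis (T d L) ℂ (XT d L)) (E : T d L → ℝ)
    (hb : ∀ α, HC lam V (b α) = ((E α : ℝ) : ℂ) • b α) (κ : ℝ)
    (hm : 48 * m ≤ κ ^ 2) (α : T d L) (hα : α ∈ win E κ) :
    Dir (fun y => (und ψ (b α)) y) ≤ 2 * κ ^ 2 := by
  obtain ⟨β, hβ⟩ := E_low b E hb h
  rw [win, Finset.mem_filter] at hα
  have h1 := hα.2 β
  have h2 := dir_b b E hb h α
  have h3 := mpos h
  linarith

end Pool.Agent.V8H95.EF
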